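import Mathlib

/-! # Integer interval exchange maps: a periodic orbit of cells -/

namespace Pool.Agent.W_ef8234_h97

variable {d : ℕ}

/-- The positions of the letters in the row of `p` cover `[0, Q)`. -/
private theorem cyc_cover (n : Fin d → ℤ) (p : Equiv.Perm (Fin d)) (j : ℤ) (h0 : 0 ≤ j)
    (h1 : j < ∑ i, n i) :
    ∃ a, (∑ m, if p m < p a then n m else 0) ≤ j ∧
      j + 1 ≤ (∑ m, if p m < p a then n m else 0) + n a := by
  classical
  let S : ℕ → ℤ := fun k => ∑ m, if (p m : ℕ) < k then n m else 0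
  have hS0 : S 0 = 0 := by simp [S]
  have hSd : S d = ∑ i, n i := by
    refine Finset.sum_congr rfl fun m _ => ?_
    rw [if_pos (p m).2]
  have hex : ∃ k, j < S k := ⟨d, by rw [hSd]; exact h1⟩
  obtain ⟨k, hk1, hk2⟩ : ∃ k, j < S k ∧ ∀ k' < k, S k' ≤ j :=
    ⟨Nat.find hex, Nat.find_spec hex, fun k' hk' => not_lt.1 (Nat.find_min hex hk')⟩
  have hk0 : k ≠ 0 := by
    rintro rfl
    rw [hS0] at hk1
    omega
  obtain ⟨k, rfl⟩ := Nat.exists_eq_succ_of_ne_zero hk0
  have hkd : k < d := by
    by_contra hcon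
    have h2 := hk2 d (by omega)
    rw [hSd] at h2
    omega
  have hpa : (p (p.symm ⟨k, hkd⟩) : ℕ) = k := by simp
  refine ⟨p.symm ⟨k, hkd⟩, ?_⟩
  have e1 : (∑ m, if p m < p (p.symm ⟨k, hkd⟩) then n m else 0) = S k := by
    refine Finset.sum_congr rfl fun m _ => ?_
    have hiff : p m < p (p.symm ⟨k, hkd⟩) ↔ (p m : ℕ) < k := by rw [Fin.lt_def, hpa]
    by_cases hm : (p m : ℕ) < k
    · rw [if_pos hm, if_pos (hiff.2 hm)]
    · rw [if_neg hm, if_neg (fun h => hm (hiff.1 h))]
  have e2 : S (k + 1) = S k + n (p.symm ⟨k, hkd⟩) := by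
    have e3 : n (p.symm ⟨k, hkd⟩) = ∑ m, if m = p.symm ⟨k, hkd⟩ then n m else 0 := by
      simp
    rw [e3]
    show (∑ m, if (p m : ℕ) < k + 1 then n m else 0) = (∑ m, if (p m : ℕ) < k then n m else 0) +
      ∑ m, if m = p.symm ⟨k, hkd⟩ then n m else 0
    rw [← Finset.sum_add_distrib]
    refine Finset.sum_congr rfl fun m _ => ?_
    by_cases hm : m = p.symm ⟨k, hkd⟩
    · rw [if_pos hm, hm, hpa, if_pos (by omega), if_neg (by omega), zero_add]
    · have hm' : (p m : ℕ) ≠ k := by
        intro h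
        apply hm
        rw [Equiv.eq_symm_apply]
        exact Fin.ext h
      rw [if_neg hm, add_zero]
      by_cases h : (p m : ℕ) < k
      · rw [if_pos h, if_pos (by omega)]
      · rw [if_neg h, if_neg (by omega)]
  rw [e1]
  refine ⟨hk2 k (by omega), ?_⟩
  rw [← e2]
  exact hk1

private theorem cyc_disj (n : Fin d → ℤ) (hn : ∀ i, 1 ≤ n i) (p : Equiv.Perm (Fin d))
    (a b : Fin d) (hab : p a < p b) :
    (∑ m, if p m < p a then n m else 0) + n a ≤ ∑ m, if p m < p b then n m else 0 := by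
  classical
  have e3 : n a = ∑ m, if m = a then n m else 0 := by simp
  rw [e3, ← Finset.sum_add_distrib]
  refine Finset.sum_le_sum fun m _ => ?_
  by_cases hm : m = a
  · subst hm
    rw [if_neg (lt_irrefl _), if_pos rfl, if_pos hab, zero_add]
  · rw [if_neg hm, add_zero]
    by_cases h : p m < p a
    · rw [if_pos h, if_pos (h.trans hab)]
    · rw [if_neg h]
      split_ifs
      · have := hn m
        omega
      · exact le_rfl

private theorem cyc_nonneg (n : Fin d → ℤ) (hn : ∀ i, 1 ≤ n i) (p : Equiv.Perm (Fin d))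
    (a : Fin d) : 0 ≤ ∑ m, if p m < p a then n m else 0 := by
  refine Finset.sum_nonneg fun m _ => ?_
  split_ifs
  · have := hn m
    omega
  · exact le_rfl

private theorem cyc_le (n : Fin d → ℤ) (hn : ∀ i, 1 ≤ n i) (p : Equiv.Perm (Fin d))
    (a : Fin d) : (∑ m, if p m < p a then n m else 0) + n a ≤ ∑ m, n m := by
  classical
  have e3 : n a = ∑ m, if m = a then n m else 0 := by simp
  rw [e3, ← Finset.sum_add_distrib]
  refine Finset.sum_le_sum fun m _ => ?_
  by_cases hm : m = a
  · subst hm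
    rw [if_neg (lt_irrefl _), if_pos rfl, zero_add]
  · rw [if_neg hm, add_zero]
    split_ifs
    · exact le_rfl
    · have := hn m
      omega

/-- PROOF.  Integer lengths `n a ≥ 1`, `tp a = ∑ i, if i < a then n i else 0`,
`bp a = ∑ i, if p i < p a then n i else 0`, `Q = ∑ n`.
(1) every integer `0 ≤ j < Q` has a letter `a` with `tp a ≤ j < tp a + n a` (take the largest
`a` with `tp a ≤ j`; `tp` is strictly increasing, `tp 0 = 0`, `tp a + n a = tp (a+1)` or `= Q` for
the last letter).  Choose such a letter `α j` for every such `j`.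
(2) `σ j = j + (bp (α j) - tp (α j))` maps `[0, Q)` to itself (`0 ≤ bp a`, `bp a + n a ≤ Q`)
and is injective there: if `p a < p b` then `bp a + n a ≤ bp b`, and for the same letter it is a
translation.
(3) the orbit of `0` in the finite set `[0, Q)` (which has `Q` elements) under the injective map
`σ` is periodic: let `q ≥ 1` be the least number with `σ^q 0 = 0`; `q ≤ Q` and the points
`σ^i 0`, `i < q`, are distinct (`Function.minimalPeriod`).
Put `j i = σ^i 0`, `a i = α (σ^i 0)`. -/
theorem exists_cycle (hd : 0 < d) (n : Fin d → ℤ) (hn : ∀ i, 1 ≤ n i)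
    (p : Equiv.Perm (Fin d)) :
    ∃ (q : ℕ) (j : ℕ → ℤ) (a : ℕ → Fin d), 1 ≤ q ∧ (q : ℤ) ≤ ∑ i, n i ∧
      (∀ i, (∑ m, if m < a i then n m else 0) ≤ j i ∧
        j i + 1 ≤ (∑ m, if m < a i then n m else 0) + n (a i)) ∧
      (∀ i, j i + ((∑ m, if p m < p (a i) then n m else 0) -
        (∑ m, if m < a i then n m else 0)) = j (i + 1)) ∧
      j q = j 0 ∧ (∀ i k, i < k → k < q → j i ≠ j k) := by
  classical
  have hQ : 0 < ∑ i, n i := by
    refine Finset.sum_pos (fun i _ => ?_) ⟨⟨0, hd⟩, Finset.mem_univ _⟩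
    have := hn i
    omega
  let X := {x // x ∈ Finset.Ico (0 : ℤ) (∑ i, n i)}
  let iX : Fintype X := inferInstanceAs (Fintype (Finset.Ico (0 : ℤ) (∑ i, n i)))
  have hX0 : ∀ x : X, 0 ≤ x.1 := fun x => (Finset.mem_Ico.1 x.2).1
  have hX1 : ∀ x : X, x.1 < ∑ i, n i := fun x => (Finset.mem_Ico.1 x.2).2
  have hcov : ∀ x : X, ∃ a, (∑ m, if m < a then n m else 0) ≤ x.1 ∧
      x.1 + 1 ≤ (∑ m, if m < a then n m else 0) + n a := fun x =>
    cyc_cover n 1 x.1 (hX0 x) (hX1 x)
  choose α hα1 hα2 using hcov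
  let σ : X → X := fun x => ⟨x.1 + ((∑ m, if p m < p (α x) then n m else 0) -
        (∑ m, if m < α x then n m else 0)), by
      have h1 := hα1 x
      have h2 := hα2 x
      have h3 := cyc_nonneg n hn p (α x)
      have h4 := cyc_le n hn p (α x)
      rw [Finset.mem_Ico]
      constructor <;> linarith⟩
  have hσ : ∀ x : X, (σ x).1 = x.1 + ((∑ m, if p m < p (α x) then n m else 0) -
        (∑ m, if m < α x then n m else 0)) := fun x => rfl
  have hinj : Function.Injective σ := by
    intro x y hxy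
    have h1 : (σ x).1 = (σ y).1 := by rw [hxy]
    rw [hσ, hσ] at h1
    have hx1 := hα1 x
    have hx2 := hα2 x
    have hy1 := hα1 y
    have hy2 := hα2 y
    have hne : α x = α y := by
      by_contra hne
      have hp : p (α x) ≠ p (α y) := fun h => hne (p.injective h)
      rcases lt_or_gt_of_ne hp with h | h
      · have := cyc_disj n hn p _ _ h
        linarith
      · have := cyc_disj n hn p _ _ h
        linarith
    rw [hne] at h1
    exact Subtype.ext (by linarith)
  let x0 : X := ⟨0, Finset.mem_Ico.2 ⟨le_rfl, hQ⟩⟩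
  have hper : x0 ∈ Function.periodicPts σ := hinj.mem_periodicPts x0
  have hq : 0 < Function.minimalPeriod σ x0 :=
    Function.minimalPeriod_pos_of_mem_periodicPts hper
  have hdist : ∀ i k, i < k → k < Function.minimalPeriod σ x0 →
      σ^[i] x0 ≠ σ^[k] x0 := by
    intro i k hik hk h
    have h1 := Function.iterate_injOn_Iio_minimalPeriod (f := σ) (x := x0)
      (Set.mem_Iio.2 (hik.trans hk)) (Set.mem_Iio.2 hk) h
    omega
  refine ⟨Function.minimalPeriod σ x0, fun i => (σ^[i] x0).1, fun i => α (σ^[i] x0), hq, ?_,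
    fun i => ⟨hα1 _, hα2 _⟩, fun i => ?_, ?_, fun i k hik hk h => hdist i k hik hk
      (Subtype.ext h)⟩
  · have h1 : Function.minimalPeriod σ x0 ≤ Fintype.card X := by
      have h2 : Function.Injective (fun i : Fin (Function.minimalPeriod σ x0) =>
          σ^[(i : ℕ)] x0) := by
        intro i k h
        by_contra hne
        have hne' : (i : ℕ) ≠ k := fun h' => hne (Fin.ext h')
        rcases lt_or_gt_of_ne hne' with h' | h'
        · exact hdist i k h' k.2 h
        · exact hdist k i h' i.2 h.symm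
      have h3 := Fintype.card_le_of_injective _ h2
      rwa [Fintype.card_fin] at h3
    have h2 : Fintype.card X = (∑ i, n i).toNat := by
      have h4 : Fintype.card X = (Finset.Ico (0 : ℤ) (∑ i, n i)).card := Fintype.card_coe _
      rw [h4, Int.card_Ico, sub_zero]
    rw [h2] at h1
    have h3 : ((∑ i, n i).toNat : ℤ) = ∑ i, n i := Int.toNat_of_nonneg hQ.le
    rw [← h3]
    exact_mod_cast h1
  · show (σ^[i] x0).1 + _ = (σ^[i + 1] x0).1
    rw [Function.iterate_succ_apply', hσ]
  · show (σ^[Function.minimalPeriod σ x0] x0).1 = (σ^[0] x0).1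
    rw [Function.iterate_minimalPeriod]
    rfl

end Pool.Agent.W_ef8234_h97
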