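import Mathlib

/-!
# Interval exchange maps and their simple deformations

The alphabet is `Fin d`, the top order is the order of `Fin d`, the bottom order is given by the
permutation `p` (`p a` = position of the letter `a` in the bottom row), the lengths are `l a`.
The interval is `I = (0, tot l)`.
-/

namespace Pool.Agent.W_ef8234_h97

open scoped BoundedContinuousFunction Topology

variable {d : ℕ}

/-- The left endpoint of the interval of the letter `a` (top row). -/
noncomputable def top (l : Fin d → ℝ) (a : Fin d) : ℝ := ∑ i, if i < a then l i else 0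

/-- The left endpoint of the image of the interval of the letter `a` (bottom row). -/
noncomputable def bot (p : Equiv.Perm (Fin d)) (l : Fin d → ℝ) (a : Fin d) : ℝ :=
  ∑ i, if p i < p a then l i else 0

/-- The total length: the interval is `I = (0, tot l)`. -/
noncomputable def tot (l : Fin d → ℝ) : ℝ := ∑ i, l i

/-- The open interval of the letter `a`. -/
def cell (l : Fin d → ℝ) (a : Fin d) : Set ℝ := Set.Ioo (top l a) (top l a + l a)

/-- The union of the `d` open intervals: the domain of the interval exchange map. -/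
def dom (l : Fin d → ℝ) : Set ℝ := ⋃ a, cell l a

/-- The standard interval exchange map: the translation by `bot p l a - top l a` on `cell l a`. -/
noncomputable def iem (p : Equiv.Perm (Fin d)) (l : Fin d → ℝ) (x : ℝ) : ℝ :=
  x + ∑ a, (cell l a).indicator (fun _ => bot p l a - top l a) x

/-- The datum is irreducible: no proper initial segment of the top row is an initial segment of
the bottom row. -/
def Irreducible (p : Equiv.Perm (Fin d)) : Prop :=
  ∀ k : ℕ, 0 < k → k < d → ∃ i : Fin d, (i : ℕ) < k ∧ k ≤ (p i : ℕ)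

/-- A function `F = g 0 : ℝ → ℝ` of class `C^R` together with its derivatives `g i = F^(i)`,
`i ≤ R`, which all vanish outside `I` and at the singularities. -/
def IsDisp (R : ℕ) (l : Fin d → ℝ) (g : Fin (R + 1) → (ℝ →ᵇ ℝ)) : Prop :=
  (∀ (i : Fin R) (x : ℝ), HasDerivAt (g i.castSucc) (g i.succ x) x) ∧
    (∀ (i : Fin (R + 1)) (x : ℝ), x ∉ Set.Ioo 0 (tot l) → g i x = 0) ∧
    ∀ (i : Fin (R + 1)) (a : Fin d), g i (top l a) = 0

theorem isDisp_zero (R : ℕ) (l : Fin d → ℝ) : IsDisp R l 0 :=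
  ⟨fun i x => hasDerivAt_const x (0 : ℝ), fun i x _ => rfl, fun i a => rfl⟩

theorem isDisp_add (R : ℕ) (l : Fin d → ℝ) {f g : Fin (R + 1) → (ℝ →ᵇ ℝ)}
    (hf : IsDisp R l f) (hg : IsDisp R l g) : IsDisp R l (f + g) := by
  obtain ⟨hf1, hf2, hf3⟩ := hf
  obtain ⟨hg1, hg2, hg3⟩ := hg
  refine ⟨fun i x => ?_, fun i x hx => ?_, fun i a => ?_⟩
  · simpa using (hf1 i x).add (hg1 i x)
  · simp [hf2 i x hx, hg2 i x hx]
  · simp [hf3 i a, hg3 i a]

theorem isDisp_smul (R : ℕ) (l : Fin d → ℝ) (c : ℝ) {f : Fin (R + 1) → (ℝ →ᵇ ℝ)}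
    (hf : IsDisp R l f) : IsDisp R l (c • f) := by
  obtain ⟨hf1, hf2, hf3⟩ := hf
  refine ⟨fun i x => ?_, fun i x hx => ?_, fun i a => ?_⟩
  · simpa using (hf1 i x).const_mul c
  · simp [hf2 i x hx]
  · simp [hf3 i a]

/-- The normed space of the displacements of class `C^R`.  The norm is the `C^R` norm
`max_{i ≤ R} sup_x |F^(i) x|`. -/
def Disp (R : ℕ) (l : Fin d → ℝ) : Submodule ℝ (Fin (R + 1) → (ℝ →ᵇ ℝ)) where
  carrier := {g | IsDisp R l g}
  zero_mem' := isDisp_zero R l
  add_mem' := fun hf hg => isDisp_add R l hf hg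
  smul_mem' := fun c _ hf => isDisp_smul R l c hf

/-- The displacement function of an element of `Disp R l`. -/
def disp {R : ℕ} {l : Fin d → ℝ} (g : Disp R l) : ℝ → ℝ := g.1 0

/-- The `C^R` simple deformations `T = T₀ + F` of the standard map `T₀ = iem p l` for which some
`C^1` diffeomorphism `h` of `[0, tot l]` with `|h' - 1| < η` everywhere maps the domain of `T₀`
to itself and satisfies `h ∘ T₀ = T ∘ h` there.  (The condition `-1 < F'` says that `T` is an
increasing diffeomorphism on each interval.) -/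
def ConjClass (R : ℕ) (p : Equiv.Perm (Fin d)) (l : Fin d → ℝ) (η : ℝ) : Set (Disp R l) :=
  {g | (∀ x, -1 < deriv (disp g) x) ∧
    ∃ h : ℝ → ℝ, ContDiffOn ℝ 1 h (Set.Icc 0 (tot l)) ∧ h 0 = 0 ∧ h (tot l) = tot l ∧
      (∀ x ∈ Set.Icc 0 (tot l), |derivWithin h (Set.Icc 0 (tot l)) x - 1| < η) ∧
      (∀ x ∈ Set.Ioo 0 (tot l), x ∈ dom l ↔ h x ∈ dom l) ∧
      ∀ x ∈ dom l, h (iem p l x) = iem p l (h x) + disp g (h x)}

/-- `S` is a `C^1` submanifold of codimension `c` of the normed space `E`. -/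
def IsC1Submanifold {E : Type*} [NormedAddCommGroup E] [NormedSpace ℝ E] (c : ℕ) (S : Set E) :
    Prop :=
  ∀ x ∈ S, ∃ (U : Set E) (f : E → (Fin c → ℝ)), IsOpen U ∧ x ∈ U ∧ ContDiffOn ℝ 1 f U ∧
    Function.Surjective (fderiv ℝ f x) ∧ ∀ y ∈ U, y ∈ S ↔ f y = 0

/-- Rational independence of the lengths. -/
def RatIndep (l : Fin d → ℝ) : Prop := ∀ a : Fin d → ℤ, ∑ i, (a i : ℝ) * l i = 0 → a = 0

/-- The lengths have simultaneous rational approximations of every order. -/
def Liouvillian (l : Fin d → ℝ) : Prop :=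
  ∀ (K : ℕ) (ε : ℝ), 0 < ε → ∃ (M : ℕ) (n : Fin d → ℤ), 1 ≤ M ∧
    ∀ i, (M : ℝ) ^ K * |l i - n i / M| < ε

/-- A thin almost periodic cylinder of `T₀ = iem p l`: `q` disjoint intervals
`(x i, x i + w)`, `i < q`, each inside one interval of `T₀`, each mapped by `T₀` to the next one,
the last one to `(x 0 + s, x 0 + s + w)`. -/
structure IsCylinder (p : Equiv.Perm (Fin d)) (l : Fin d → ℝ) (x : ℕ → ℝ) (q : ℕ) (w s : ℝ) :
    Prop where
  q_pos : 1 ≤ q
  w_pos : 0 < w
  inside : ∀ i < q, ∃ a, top l a ≤ x i ∧ x i + w ≤ top l a + l a ∧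
    x i + (bot p l a - top l a) = if i + 1 < q then x (i + 1) else x 0 + s
  disjoint : ∀ i j, i < j → j < q → x i + w ≤ x j ∨ x j + w ≤ x i

end Pool.Agent.W_ef8234_h97
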