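import Mathlib
import Pool.Agent.W_ef8234_h97.Defs

/-! # Nonvanishing drift -/

namespace Pool.Agent.W_ef8234_h97

variable {d : ℕ}

/-- For a permutation `e` of `Fin d` and a threshold `k`, the sum of `e m - m` over `m < k` is
nonnegative, and positive if some `m` crosses the threshold. -/
private theorem drift_aux (e : Equiv.Perm (Fin d)) (k : ℕ) :
    (0 ≤ ∑ m : Fin d, (if (m : ℕ) < k then ((e m : ℕ) : ℤ) - ((m : ℕ) : ℤ) else 0)) ∧
    ((∃ m : Fin d, ¬ ((m : ℕ) < k ↔ (e m : ℕ) < k)) →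
      0 < ∑ m : Fin d, (if (m : ℕ) < k then ((e m : ℕ) : ℤ) - ((m : ℕ) : ℤ) else 0)) := by
  have h1 : ∑ m : Fin d, (if (e m : ℕ) < k then ((e m : ℕ) : ℤ) else 0)
      = ∑ m : Fin d, (if (m : ℕ) < k then ((m : ℕ) : ℤ) else 0) :=
    Equiv.sum_comp e (fun j : Fin d => (if (j : ℕ) < k then ((j : ℕ) : ℤ) else 0))
  have h2 : ∑ m : Fin d, (if (e m : ℕ) < k then (1 : ℤ) else 0)
      = ∑ m : Fin d, (if (m : ℕ) < k then (1 : ℤ) else 0) :=
    Equiv.sum_comp e (fun j : Fin d => (if (j : ℕ) < k then (1 : ℤ) else 0))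
  have key : 2 * ∑ m : Fin d, (if (m : ℕ) < k then ((e m : ℕ) : ℤ) - ((m : ℕ) : ℤ) else 0)
      = ∑ m : Fin d, ((if (m : ℕ) < k then (1 : ℤ) else 0) - (if (e m : ℕ) < k then (1 : ℤ) else 0))
        * (2 * ((e m : ℕ) : ℤ) - 2 * (k : ℤ) + 1) := by
    have h3 : ∑ m : Fin d, (if (m : ℕ) < k then ((e m : ℕ) : ℤ) - ((m : ℕ) : ℤ) else 0)
        = ∑ m : Fin d, (if (m : ℕ) < k then ((e m : ℕ) : ℤ) else 0)
          - ∑ m : Fin d, (if (m : ℕ) < k then ((m : ℕ) : ℤ) else 0) := by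
      rw [← Finset.sum_sub_distrib]
      refine Finset.sum_congr rfl fun m _ => ?_
      split_ifs <;> simp
    have h4 : ∑ m : Fin d, ((if (m : ℕ) < k then (1 : ℤ) else 0)
          - (if (e m : ℕ) < k then (1 : ℤ) else 0)) * (2 * ((e m : ℕ) : ℤ) - 2 * (k : ℤ) + 1)
        = 2 * (∑ m : Fin d, (if (m : ℕ) < k then ((e m : ℕ) : ℤ) else 0)
            - ∑ m : Fin d, (if (e m : ℕ) < k then ((e m : ℕ) : ℤ) else 0))
          + (1 - 2 * (k : ℤ)) * (∑ m : Fin d, (if (m : ℕ) < k then (1 : ℤ) else 0)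
            - ∑ m : Fin d, (if (e m : ℕ) < k then (1 : ℤ) else 0)) := by
      rw [← Finset.sum_sub_distrib, ← Finset.sum_sub_distrib, Finset.mul_sum, Finset.mul_sum,
        ← Finset.sum_add_distrib]
      refine Finset.sum_congr rfl fun m _ => ?_
      split_ifs <;> ring
    rw [h3, h4, h1, h2]
    ring
  have hterm : ∀ m : Fin d, 0 ≤ ((if (m : ℕ) < k then (1 : ℤ) else 0)
      - (if (e m : ℕ) < k then (1 : ℤ) else 0)) * (2 * ((e m : ℕ) : ℤ) - 2 * (k : ℤ) + 1) := by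
    intro m
    split_ifs with a b b
    · simp
    · have : (k : ℤ) ≤ ((e m : ℕ) : ℤ) := by exact_mod_cast not_lt.mp b
      linarith
    · have : ((e m : ℕ) : ℤ) < (k : ℤ) := by exact_mod_cast b
      linarith
    · simp
  refine ⟨?_, ?_⟩
  · have := Finset.sum_nonneg fun m (_ : m ∈ (Finset.univ : Finset (Fin d))) => hterm m
    rw [← key] at this
    linarith
  · rintro ⟨m, hm⟩
    have hpos : 0 < ∑ m : Fin d, ((if (m : ℕ) < k then (1 : ℤ) else 0)
        - (if (e m : ℕ) < k then (1 : ℤ) else 0)) * (2 * ((e m : ℕ) : ℤ) - 2 * (k : ℤ) + 1) := by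
      refine Finset.sum_pos' (fun m _ => hterm m) ⟨m, Finset.mem_univ m, ?_⟩
      split_ifs with a b b
      · exact absurd (iff_of_true a b) hm
      · have : (k : ℤ) ≤ ((e m : ℕ) : ℤ) := by exact_mod_cast not_lt.mp b
        linarith
      · have : ((e m : ℕ) : ℤ) < (k : ℤ) := by exact_mod_cast b
        linarith
      · exact absurd (iff_of_false a b) hm
    rw [← key] at hpos
    linarith

/-- The integer inequality: the claim `G b < 0`. -/
private theorem drift_neg (hd : 2 ≤ d) (p : Equiv.Perm (Fin d)) (hp : Irreducible p)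
    (b : Fin d) :
    ∑ m : Fin d, ((if p m < p b then (1 : ℤ) else 0) - (if m < b then (1 : ℤ) else 0))
      * (((p m : ℕ) : ℤ) - ((m : ℕ) : ℤ)) < 0 := by
  have h1 : ∑ m : Fin d, (if p m < p b then ((p m : ℕ) : ℤ) - ((m : ℕ) : ℤ) else 0)
      = - ∑ j : Fin d, (if (j : ℕ) < (p b : ℕ) then ((p.symm j : ℕ) : ℤ) - ((j : ℕ) : ℤ)
          else 0) := by
    rw [← Equiv.sum_comp p (fun j : Fin d => (if (j : ℕ) < (p b : ℕ) then
      ((p.symm j : ℕ) : ℤ) - ((j : ℕ) : ℤ) else 0)), ← Finset.sum_neg_distrib]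
    refine Finset.sum_congr rfl fun m _ => ?_
    simp only [Equiv.symm_apply_apply, Fin.lt_def]
    split_ifs <;> ring
  have h2 : ∑ m : Fin d, ((if p m < p b then (1 : ℤ) else 0) - (if m < b then (1 : ℤ) else 0))
      * (((p m : ℕ) : ℤ) - ((m : ℕ) : ℤ))
      = - ∑ j : Fin d, (if (j : ℕ) < (p b : ℕ) then ((p.symm j : ℕ) : ℤ) - ((j : ℕ) : ℤ) else 0)
        - ∑ m : Fin d, (if (m : ℕ) < (b : ℕ) then ((p m : ℕ) : ℤ) - ((m : ℕ) : ℤ) else 0) := by
    rw [← h1, ← Finset.sum_sub_distrib]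
    refine Finset.sum_congr rfl fun m _ => ?_
    simp only [Fin.lt_def]
    split_ifs <;> ring
  rw [h2]
  obtain ⟨a1, a2⟩ := drift_aux p (b : ℕ)
  obtain ⟨b1, b2⟩ := drift_aux p.symm (p b : ℕ)
  rcases Nat.eq_zero_or_pos (b : ℕ) with h0 | h0
  · rcases Nat.eq_zero_or_pos (p b : ℕ) with g0 | g0
    · exfalso
      obtain ⟨i, hi1, hi2⟩ := hp 1 one_pos (by omega)
      have hib : i = b := Fin.ext (by omega)
      rw [hib] at hi2
      omega
    · obtain ⟨i, hi1, hi2⟩ := hp (p b : ℕ) g0 (p b).2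
      have := b2 ⟨p i, by
        rw [Equiv.symm_apply_apply]
        intro h
        exact absurd (h.mpr hi1) (not_lt.mpr hi2)⟩
      linarith
  · obtain ⟨i, hi1, hi2⟩ := hp (b : ℕ) h0 b.2
    have := a2 ⟨i, fun h => absurd (h.mp hi1) (not_lt.mpr hi2)⟩
    linarith

/-- PROOF.  The sum is `∑ m, c m * l m` with the integers
`c m = ∑ i < q, ((if p m < p (a i) then 1 else 0) - (if m < a i then 1 else 0))`.  If it were
`0`, then `c = 0` by rational independence.  Put `τ m = (p m : ℤ) - (m : ℤ)`.  Then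
`0 = ∑ m, c m * τ m = ∑ i < q, G (a i)` with
`G b = (∑ m, if p m < p b then τ m else 0) - (∑ m, if m < b then τ m else 0)`.
CLAIM `G b < 0` for every `b` (so the sum over `i < q`, `q ≥ 1`, is negative: contradiction).
Second sum: over the `b` letters `m < b` (`b = (b : ℕ)`), `∑ (p m) ≥ 0 + 1 + ... + (b - 1)`
because the values `p m` are `b` distinct natural numbers, so the sum `∑_{m<b} τ m ≥ 0`, with
equality only if `{p m : m < b} = {0, ..., b-1}`, which for `0 < b < d` is excluded by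
irreducibility (if `b > 0` there is `m < b` with `p m ≥ b`).  First sum: with `j = p m`,
`∑_{j < p b} (j - p⁻¹ j) ≤ 0` in the same way, strictly if `0 < p b` (by irreducibility with
`k = p b`: some `i < k` has `p i ≥ k`, so the set `p⁻¹{0..k-1}` is not `{0..k-1}`).
So `G b ≤ 0`, with equality only if `b = 0` and `p b = 0`, but then `p 0 = 0`, against
irreducibility for `k = 1 < d`.
(Strict version of the sum estimate: for a finset `S` of naturals with `|S| = k`,
`∑ S ≥ k(k-1)/2`, strict if `S ≠ range k`; e.g. compare `∑_{S \ range k} ≥ k |S \ range k|` and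
`∑_{range k \ S} ≤ (k-1) |range k \ S|`, `|S \ range k| = |range k \ S|`.) -/
theorem drift_ne_zero (hd : 2 ≤ d) (p : Equiv.Perm (Fin d)) (hp : Irreducible p)
    (l : Fin d → ℝ) (hl : RatIndep l) (q : ℕ) (hq : 1 ≤ q) (a : ℕ → Fin d) :
    ∑ i ∈ Finset.range q, (bot p l (a i) - top l (a i)) ≠ 0 := by
  intro h0
  set c : Fin d → ℤ := fun m => ∑ i ∈ Finset.range q,
    ((if p m < p (a i) then (1 : ℤ) else 0) - (if m < a i then (1 : ℤ) else 0)) with hc
  have h1 : ∑ m, (c m : ℝ) * l m = 0 := by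
    rw [← h0]
    have h2 : ∀ i, bot p l (a i) - top l (a i) = ∑ m : Fin d,
        (((if p m < p (a i) then (1 : ℤ) else 0) - (if m < a i then (1 : ℤ) else 0) : ℤ) : ℝ)
          * l m := by
      intro i
      unfold bot top
      rw [← Finset.sum_sub_distrib]
      refine Finset.sum_congr rfl fun m _ => ?_
      split_ifs <;> simp
    rw [Finset.sum_congr rfl fun i _ => h2 i, Finset.sum_comm]
    refine Finset.sum_congr rfl fun m _ => ?_
    rw [← Finset.sum_mul, hc]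
    push_cast
    rfl
  have h3 : c = 0 := hl c h1
  have h4 : ∑ m : Fin d, c m * (((p m : ℕ) : ℤ) - ((m : ℕ) : ℤ)) = 0 := by
    rw [h3]
    simp
  have h5 : ∑ m : Fin d, c m * (((p m : ℕ) : ℤ) - ((m : ℕ) : ℤ))
      = ∑ i ∈ Finset.range q, ∑ m : Fin d,
        ((if p m < p (a i) then (1 : ℤ) else 0) - (if m < a i then (1 : ℤ) else 0))
          * (((p m : ℕ) : ℤ) - ((m : ℕ) : ℤ)) := by
    rw [Finset.sum_comm]
    refine Finset.sum_congr rfl fun m _ => ?_
    rw [← Finset.sum_mul]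
  have h6 : ∑ i ∈ Finset.range q, ∑ m : Fin d,
        ((if p m < p (a i) then (1 : ℤ) else 0) - (if m < a i then (1 : ℤ) else 0))
          * (((p m : ℕ) : ℤ) - ((m : ℕ) : ℤ)) < 0 :=
    Finset.sum_neg (fun i _ => drift_neg hd p hp (a i)) ⟨0, Finset.mem_range.mpr hq⟩
  rw [h5] at h4
  exact absurd h4 h6.ne

end Pool.Agent.W_ef8234_h97
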