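import Mathlib
import Pool.Agent.W_ef8234_h97.Cyc
import Pool.Agent.W_ef8234_h97.Drift

/-! # Thin cylinders from simultaneous rational approximations -/

namespace Pool.Agent.W_ef8234_h97

variable {d : ℕ}

/-- A signed combination of the errors is bounded by their sum. -/
theorem Cyl_comb (l : Fin d → ℝ) (n : Fin d → ℤ) (M E : ℝ)
    (hE : ∑ m, |M * l m - n m| ≤ E) (c : Fin d → ℝ) (hc : ∀ m, |c m| ≤ 1) :
    |∑ m, c m * (M * l m - n m)| ≤ E := by
  refine (Finset.abs_sum_le_sum_abs _ _).trans (le_trans (Finset.sum_le_sum fun m _ => ?_) hE)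
  rw [abs_mul]
  exact mul_le_of_le_one_left (abs_nonneg _) (hc m)

theorem Cyl_top (l : Fin d → ℝ) (n : Fin d → ℤ) (M E : ℝ)
    (hE : ∑ m, |M * l m - n m| ≤ E) (a : Fin d) :
    |M * top l a - ((∑ m, if m < a then n m else 0 : ℤ) : ℝ)| ≤ E := by
  have h := Cyl_comb l n M E hE (fun m => if m < a then 1 else 0) (fun m => by
    split_ifs <;> simp)
  have e : M * top l a - ((∑ m, if m < a then n m else 0 : ℤ) : ℝ) =
      ∑ m, (if m < a then (1 : ℝ) else 0) * (M * l m - n m) := by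
    unfold top
    rw [Finset.mul_sum]
    push_cast
    rw [← Finset.sum_sub_distrib]
    refine Finset.sum_congr rfl fun m _ => ?_
    split_ifs <;> ring
  rw [e]
  exact h

theorem Cyl_top_add (l : Fin d → ℝ) (n : Fin d → ℤ) (M E : ℝ)
    (hE : ∑ m, |M * l m - n m| ≤ E) (a : Fin d) :
    |M * (top l a + l a) - (((∑ m, if m < a then n m else 0 : ℤ) : ℝ) + n a)| ≤ E := by
  have h := Cyl_comb l n M E hE (fun m => if m ≤ a then 1 else 0) (fun m => by
    split_ifs <;> simp)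
  have e : M * (top l a + l a) - (((∑ m, if m < a then n m else 0 : ℤ) : ℝ) + n a) =
      ∑ m, (if m ≤ a then (1 : ℝ) else 0) * (M * l m - n m) := by
    have h1 : M * (top l a + l a) - (((∑ m, if m < a then n m else 0 : ℤ) : ℝ) + n a) =
        (M * top l a - ((∑ m, if m < a then n m else 0 : ℤ) : ℝ)) + (M * l a - n a) := by ring
    have h2 : (M * l a - n a) = ∑ m, if m = a then (M * l m - n m) else 0 := by
      rw [Finset.sum_ite_eq' Finset.univ a fun m => M * l m - (n m : ℝ)]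
      simp
    rw [h1, h2]
    unfold top
    rw [Finset.mul_sum]
    push_cast
    rw [← Finset.sum_sub_distrib, ← Finset.sum_add_distrib]
    refine Finset.sum_congr rfl fun m _ => ?_
    rcases lt_trichotomy m a with h3 | h3 | h3
    · rw [if_pos h3, if_pos h3, if_neg h3.ne, if_pos h3.le]
      ring
    · subst h3
      simp
    · rw [if_neg h3.not_gt, if_neg h3.not_gt, if_neg h3.ne', if_neg h3.not_ge]
      ring
  rw [e]
  exact h

theorem Cyl_trans (p : Equiv.Perm (Fin d)) (l : Fin d → ℝ) (n : Fin d → ℤ) (M E : ℝ)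
    (hE : ∑ m, |M * l m - n m| ≤ E) (a : Fin d) :
    |M * (bot p l a - top l a) - (((∑ m, if p m < p a then n m else 0) -
      (∑ m, if m < a then n m else 0) : ℤ) : ℝ)| ≤ E := by
  have h := Cyl_comb l n M E hE
    (fun m => (if p m < p a then 1 else 0) - (if m < a then 1 else 0)) (fun m => by
    split_ifs <;> simp)
  have e : M * (bot p l a - top l a) - (((∑ m, if p m < p a then n m else 0) -
      (∑ m, if m < a then n m else 0) : ℤ) : ℝ) =
      ∑ m, ((if p m < p a then (1 : ℝ) else 0) - (if m < a then 1 else 0)) *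
        (M * l m - n m) := by
    unfold top bot
    rw [← Finset.sum_sub_distrib, Finset.mul_sum]
    push_cast
    rw [← Finset.sum_sub_distrib, ← Finset.sum_sub_distrib]
    refine Finset.sum_congr rfl fun m _ => ?_
    split_ifs <;> ring
  rw [e]
  exact h

/-- PROOF.  Let `L = tot l`.  Apply `Liouvillian` with `K + 2` and a small `ε'` (chosen below):
`M ≥ 1`, integers `n i`, `M^(K+2) |l i - n i / M| < ε'`.  If `ε' ≤ min l i` then `n i ≥ 1`
(otherwise `|l i - n i / M| ≥ l i`).  Put `E = d ε' / M^(K+1)`: it bounds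
`∑ i, |M l i - n i|`.  Take `q, j, a` of `exists_cycle`, `t i = bot p l (a i) - top l (a i)`,
`e i = M t i - (bp - tp)(a i)` with `|e i| ≤ E`, and `S i = ∑ i' < i, e i'`, so that
`|S i| ≤ q E ≤ (M L + E) E` for `i ≤ q`, as `q ≤ ∑ n ≤ M L + E`.  Define
`x i = (j i + 1/4 + S i) / M`, `w = 1/(2M)`, `s = S q / M`.
* `M x i ≥ M top l (a i)`: `M top l (a i) ≤ tp (a i) + E ≤ j i + E ≤ j i + 1/4 + S i` if
  `E + |S i| ≤ 1/4`; similarly `M (x i + w) = j i + 3/4 + S i ≤ tp + n - 1/4 + S i ≤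
  M (top l + l) `.
* `M (x i + t i) = j i + 1/4 + S i + (bp - tp)(a i) + e i = j (i+1) + 1/4 + S (i+1)`; for
  `i = q - 1` this is `j 0 + 1/4 + S q = M (x 0 + s)` as `S 0 = 0`.
* disjointness: `j i ≠ j k` are integers, `|S i|, |S k| ≤ 1/8`.
* `S q = ∑ i < q, (M t i) - (j q - j 0) = M ∑ i < q, t i ≠ 0` by `drift_ne_zero`.
* `|s| = |S q| / M ≤ (M L + E) E / M ≤ (L + d ε') d ε' / M^(K+1)` and
  `ε w^K = ε / (2M)^K`, so `|s| < ε w^K` if `(L + d ε') d ε' 2^K < ε`.
* `w ≤ 1`. -/
theorem exists_cylinder (hd : 2 ≤ d) (p : Equiv.Perm (Fin d)) (hp : Irreducible p)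
    (l : Fin d → ℝ) (hl : ∀ i, 0 < l i) (hl1 : RatIndep l) (hl2 : Liouvillian l)
    (K : ℕ) (ε : ℝ) (hε : 0 < ε) :
    ∃ (x : ℕ → ℝ) (q : ℕ) (w s : ℝ), IsCylinder p l x q w s ∧ w ≤ 1 ∧ s ≠ 0 ∧
      |s| < ε * w ^ K := by
  obtain ⟨L, hL⟩ : ∃ L : ℝ, L = ∑ i, l i := ⟨_, rfl⟩
  have hL0 : 0 ≤ L := by
    rw [hL]
    exact Finset.sum_nonneg fun i _ => (hl i).le
  have hd0 : (0 : ℝ) < d := by
    have : 0 < d := by omega
    exact_mod_cast this
  -- the smallness parameters
  obtain ⟨δ, hδ0, hδ1, hδ2⟩ : ∃ δ : ℝ, 0 < δ ∧ (L + 1) * δ ≤ 1 / 8 ∧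
      (L + 1) * δ * 2 ^ K < ε := by
    refine ⟨min (1 / (8 * (L + 1))) (ε / (2 * (L + 1) * 2 ^ K)), by positivity, ?_, ?_⟩
    · calc (L + 1) * min (1 / (8 * (L + 1))) (ε / (2 * (L + 1) * 2 ^ K)) ≤
          (L + 1) * (1 / (8 * (L + 1))) :=
            mul_le_mul_of_nonneg_left (min_le_left _ _) (by positivity)
        _ = 1 / 8 := by
            field_simp
    · calc (L + 1) * min (1 / (8 * (L + 1))) (ε / (2 * (L + 1) * 2 ^ K)) * 2 ^ K ≤
          (L + 1) * (ε / (2 * (L + 1) * 2 ^ K)) * 2 ^ K := by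
            refine mul_le_mul_of_nonneg_right ?_ (by positivity)
            exact mul_le_mul_of_nonneg_left (min_le_right _ _) (by positivity)
        _ = ε / 2 := by
            field_simp
        _ < ε := by linarith
  have hδ8 : δ ≤ 1 / 8 := by nlinarith
  have hne : (Finset.univ : Finset (Fin d)).Nonempty := ⟨⟨0, by omega⟩, Finset.mem_univ _⟩
  obtain ⟨ε', hε'0, hε'1, hε'2⟩ : ∃ ε' : ℝ, 0 < ε' ∧ d * ε' ≤ δ ∧ ∀ i, ε' ≤ l i := by
    refine ⟨min (δ / d) (Finset.univ.inf' hne l), ?_, ?_, ?_⟩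
    · refine lt_min (by positivity) ?_
      rw [Finset.lt_inf'_iff]
      exact fun i _ => hl i
    · calc (d : ℝ) * min (δ / d) (Finset.univ.inf' hne l) ≤ d * (δ / d) :=
          mul_le_mul_of_nonneg_left (min_le_left _ _) hd0.le
        _ = δ := by
            field_simp
    · exact fun i => (min_le_right _ _).trans (Finset.inf'_le _ (Finset.mem_univ i))
  obtain ⟨M, n, hM1, hM⟩ := hl2 (K + 2) ε' hε'0
  have hMR : (1 : ℝ) ≤ M := by exact_mod_cast hM1
  have hM0 : (0 : ℝ) < M := by linarith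
  have hMK : (1 : ℝ) ≤ (M : ℝ) ^ (K + 1) := one_le_pow₀ hMR
  have hMK2 : (1 : ℝ) ≤ (M : ℝ) ^ (K + 2) := one_le_pow₀ hMR
  have hn : ∀ i, 1 ≤ n i := by
    intro i
    have h1 : |l i - n i / M| < ε' := by
      have h2 := hM i
      have h3 : |l i - n i / M| ≤ (M : ℝ) ^ (K + 2) * |l i - n i / M| :=
        le_mul_of_one_le_left (abs_nonneg _) hMK2
      linarith
    have h4 := (abs_lt.1 h1).2
    have h5 := hε'2 i
    have h6 : (0 : ℝ) < n i / M := by linarith
    have h7 : (0 : ℝ) < n i := by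
      rcases (div_pos_iff.1 h6) with h8 | h8
      · exact h8.1
      · linarith [h8.2]
    exact_mod_cast h7
  obtain ⟨E, hEdef⟩ : ∃ E : ℝ, E = δ / (M : ℝ) ^ (K + 1) := ⟨_, rfl⟩
  have hE0 : 0 < E := by
    rw [hEdef]
    positivity
  have hEδ : E ≤ δ := by
    rw [hEdef]
    exact div_le_self hδ0.le hMK
  have hME : M * E ≤ δ := by
    rw [hEdef, pow_succ]
    have h1 : (M : ℝ) * (δ / ((M : ℝ) ^ K * M)) = δ / (M : ℝ) ^ K := by
      field_simp
    rw [h1]
    exact div_le_self hδ0.le (one_le_pow₀ hMR)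
  have hsum : ∑ m, |(M : ℝ) * l m - n m| ≤ E := by
    have h1 : ∀ m, |(M : ℝ) * l m - n m| ≤ ε' / (M : ℝ) ^ (K + 1) := by
      intro m
      have h2 : (M : ℝ) * l m - n m = M * (l m - n m / M) := by
        field_simp
      rw [h2, abs_mul, abs_of_pos hM0, le_div_iff₀ (by positivity)]
      have h3 := hM m
      have h4 : (M : ℝ) * |l m - n m / M| * (M : ℝ) ^ (K + 1) =
          (M : ℝ) ^ (K + 2) * |l m - n m / M| := by ring
      rw [h4]
      exact h3.le
    calc ∑ m, |(M : ℝ) * l m - n m| ≤ ∑ _m : Fin d, ε' / (M : ℝ) ^ (K + 1) :=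
          Finset.sum_le_sum fun m _ => h1 m
      _ = d * ε' / (M : ℝ) ^ (K + 1) := by
          rw [Finset.sum_const, Finset.card_univ, Fintype.card_fin, nsmul_eq_mul, mul_div_assoc]
      _ ≤ E := by
          rw [hEdef]
          exact div_le_div_of_nonneg_right hε'1 (by positivity)
  obtain ⟨q, j, a, hq1, hqn, hcell, hstep, hper, hinj⟩ := exists_cycle (by omega) n hn p
  obtain ⟨tp, htp⟩ : ∃ tp : ℕ → ℤ, ∀ i, tp i = ∑ m, if m < a i then n m else 0 :=
    ⟨_, fun _ => rfl⟩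
  obtain ⟨bp, hbp⟩ : ∃ bp : ℕ → ℤ, ∀ i, bp i = ∑ m, if p m < p (a i) then n m else 0 :=
    ⟨_, fun _ => rfl⟩
  obtain ⟨t, ht⟩ : ∃ t : ℕ → ℝ, ∀ i, t i = bot p l (a i) - top l (a i) := ⟨_, fun _ => rfl⟩
  obtain ⟨e, he⟩ : ∃ e : ℕ → ℝ, ∀ i, e i = M * t i - ((bp i - tp i : ℤ) : ℝ) :=
    ⟨_, fun _ => rfl⟩
  have heE : ∀ i, |e i| ≤ E := by
    intro i
    rw [he, ht, hbp, htp]
    exact Cyl_trans p l n M E hsum (a i)
  have hqR : (q : ℝ) ≤ M * L + E := by
    have h1 : (q : ℝ) ≤ ∑ i, (n i : ℝ) := by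
      have h2 : ((q : ℤ) : ℝ) ≤ ((∑ i, n i : ℤ) : ℝ) := by exact_mod_cast hqn
      push_cast at h2
      exact h2
    have h3 : ∑ i, (n i : ℝ) ≤ ∑ i, (M * l i + |(M : ℝ) * l i - n i|) := by
      refine Finset.sum_le_sum fun i _ => ?_
      have h4 := neg_abs_le ((M : ℝ) * l i - n i)
      linarith
    rw [Finset.sum_add_distrib, ← Finset.mul_sum, ← hL] at h3
    linarith
  obtain ⟨S, hS⟩ : ∃ S : ℕ → ℝ, ∀ i, S i = ∑ i' ∈ Finset.range i, e i' := ⟨_, fun _ => rfl⟩
  have hS0 : S 0 = 0 := by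
    rw [hS]
    simp
  have hSs : ∀ i, S (i + 1) = S i + e i := by
    intro i
    rw [hS, hS, Finset.sum_range_succ]
  have hSb : ∀ i, i ≤ q → |S i| ≤ (M * L + E) * E := by
    intro i hi
    have h1 : |S i| ≤ i * E := by
      rw [hS]
      refine (Finset.abs_sum_le_sum_abs _ _).trans ?_
      refine (Finset.sum_le_sum fun i' _ => heE i').trans ?_
      rw [Finset.sum_const, Finset.card_range, nsmul_eq_mul]
    have h2 : (i : ℝ) ≤ q := by exact_mod_cast hi
    calc |S i| ≤ i * E := h1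
      _ ≤ (M * L + E) * E := mul_le_mul_of_nonneg_right (h2.trans hqR) hE0.le
  have hS8 : ∀ i, i ≤ q → |S i| ≤ 1 / 8 := by
    intro i hi
    have h1 := hSb i hi
    have h2 : (M * L + E) * E ≤ (L + 1) * δ := by
      have h3 : (M * L + E) * E = L * (M * E) + E * E := by ring
      have h4 : L * (M * E) ≤ L * δ := mul_le_mul_of_nonneg_left hME hL0
      have h5 : E * E ≤ 1 * δ := mul_le_mul (by linarith) hEδ hE0.le (by norm_num)
      rw [h3]
      linarith
    linarith
  have hE8 : E ≤ 1 / 8 := by linarith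
  obtain ⟨x, hx⟩ : ∃ x : ℕ → ℝ, ∀ i, x i = (j i + 1 / 4 + S i) / M := ⟨_, fun _ => rfl⟩
  have hMx : ∀ i, M * x i = j i + 1 / 4 + S i := by
    intro i
    rw [hx]
    field_simp
  have hMw : (M : ℝ) * (1 / (2 * M)) = 1 / 2 := by
    field_simp
  have hMs : (M : ℝ) * (S q / M) = S q := by
    field_simp
  have hstepR : ∀ i, (j i : ℝ) + ((bp i - tp i : ℤ) : ℝ) = j (i + 1) := by
    intro i
    have h1 := hstep i
    rw [← hbp, ← htp] at h1
    exact_mod_cast h1
  have hSq : S q = M * ∑ i ∈ Finset.range q, (bot p l (a i) - top l (a i)) := by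
    have h1 : ∀ i, S i = M * ∑ i' ∈ Finset.range i, (bot p l (a i') - top l (a i')) -
        ((j i : ℝ) - j 0) := by
      intro i
      induction i with
      | zero => simp [hS0]
      | succ i ih =>
        rw [hSs, ih, he, ht, Finset.sum_range_succ]
        have h2 := hstepR i
        linarith
    rw [h1 q, hper]
    ring
  refine ⟨x, q, 1 / (2 * M), S q / M, ⟨hq1, by positivity, ?_, ?_⟩, ?_, ?_, ?_⟩
  · intro i hi
    refine ⟨a i, ?_, ?_, ?_⟩
    · refine le_of_mul_le_mul_left ?_ hM0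
      rw [hMx]
      have h1 := (abs_le.1 (Cyl_top l n M E hsum (a i))).2
      have h2 : ((∑ m, if m < a i then n m else 0 : ℤ) : ℝ) ≤ j i := by
        exact_mod_cast (hcell i).1
      have h3 := (abs_le.1 (hS8 i hi.le)).1
      linarith
    · refine le_of_mul_le_mul_left ?_ hM0
      rw [mul_add, hMx, hMw]
      have h1 := (abs_le.1 (Cyl_top_add l n M E hsum (a i))).1
      have h2 : (j i : ℝ) + 1 ≤ ((∑ m, if m < a i then n m else 0 : ℤ) : ℝ) + n (a i) := by
        exact_mod_cast (hcell i).2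
      have h3 := (abs_le.1 (hS8 i hi.le)).2
      linarith
    · have h1 : M * (x i + (bot p l (a i) - top l (a i))) = j (i + 1) + 1 / 4 + S (i + 1) := by
        have h2 := hstepR i
        have h3 := he i
        rw [mul_add, hMx, hSs, h3, ht]
        linarith
      split_ifs with hc
      · refine mul_left_cancel₀ hM0.ne' ?_
        rw [h1, hMx]
      · have h4 : i + 1 = q := by omega
        refine mul_left_cancel₀ hM0.ne' ?_
        rw [h1, mul_add, hMx, hMs, h4, hper, hS0]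
        ring
  · intro i k hik hk
    have h1 := hinj i k hik hk
    have h2 := abs_le.1 (hS8 i (hik.le.trans hk.le))
    have h3 := abs_le.1 (hS8 k hk.le)
    rcases lt_or_gt_of_ne h1 with h4 | h4
    · left
      have h5 : (j i : ℝ) + 1 ≤ j k := by exact_mod_cast h4
      refine le_of_mul_le_mul_left ?_ hM0
      rw [mul_add, hMx, hMx, hMw]
      linarith [h2.2, h3.1]
    · right
      have h5 : (j k : ℝ) + 1 ≤ j i := by exact_mod_cast h4
      refine le_of_mul_le_mul_left ?_ hM0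
      rw [mul_add, hMx, hMx, hMw]
      linarith [h2.1, h3.2]
  · rw [div_le_one (by positivity)]
    linarith
  · rw [hSq, mul_div_cancel_left₀ _ hM0.ne']
    exact drift_ne_zero hd p hp l hl1 q hq1 a
  · have h1 : |S q / M| ≤ (L + 1) * δ / (M : ℝ) ^ K := by
      rw [abs_div, abs_of_pos hM0, div_le_div_iff₀ hM0 (by positivity)]
      have h2 := hSb q le_rfl
      have h3 : (M * L + E) * E * (M : ℝ) ^ K ≤ (L + 1) * δ * M := by
        have h4 : E * (M : ℝ) ^ K = δ / M := by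
          rw [hEdef, pow_succ]
          field_simp
        have h5 : (M * L + E) * E * (M : ℝ) ^ K = (M * L + E) * (δ / M) := by
          rw [mul_assoc, h4]
        rw [h5, mul_div_assoc', div_le_iff₀ hM0]
        have h6 : (M * L + E) * δ ≤ (M * L + M) * δ := by
          refine mul_le_mul_of_nonneg_right ?_ hδ0.le
          linarith
        have h7 : (M * L + M) * δ = (L + 1) * δ * M := by ring
        have h8 : (L + 1) * δ * M * 1 ≤ (L + 1) * δ * M * M :=
          mul_le_mul_of_nonneg_left hMR (by positivity)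
        linarith
      exact (mul_le_mul_of_nonneg_right h2 (by positivity)).trans h3
    have h2 : (L + 1) * δ / (M : ℝ) ^ K < ε * (1 / (2 * (M : ℝ))) ^ K := by
      rw [div_pow, one_pow, mul_pow, mul_one_div, div_lt_div_iff₀ (by positivity) (by positivity)]
      have h3 : (L + 1) * δ * (2 ^ K * (M : ℝ) ^ K) = (L + 1) * δ * 2 ^ K * (M : ℝ) ^ K := by ring
      rw [h3]
      exact mul_lt_mul_of_pos_right hδ2 (by positivity)
    exact h1.trans_lt h2

end Pool.Agent.W_ef8234_h97
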