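import Mathlib
import Pool.Agent.W_ef8234_h97.Defs

/-! # Displacements from one rescaled bump -/

namespace Pool.Agent.W_ef8234_h97

open scoped ContDiff

variable {d : ℕ}


private theorem mk_top_nonneg (l : Fin d → ℝ) (hl : ∀ i, 0 < l i) (a : Fin d) : 0 ≤ top l a := by
  unfold top
  apply Finset.sum_nonneg
  intro i _
  split_ifs
  · exact (hl i).le
  · exact le_refl _

private theorem mk_top_add_le_tot (l : Fin d → ℝ) (hl : ∀ i, 0 < l i) (a : Fin d) :
    top l a + l a ≤ tot l := by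
  have h : l a = ∑ i, if i = a then l i else 0 := by
    rw [Finset.sum_ite_eq' Finset.univ a]
    simp
  unfold top tot
  conv_lhs => rw [h]
  rw [← Finset.sum_add_distrib]
  apply Finset.sum_le_sum
  intro i _
  by_cases h1 : i < a
  · have h2 : i ≠ a := h1.ne
    simp [h1, h2]
  · by_cases h2 : i = a
    · simp [h2]
    · simp [h1, h2, (hl i).le]

private theorem mk_top_mono (l : Fin d → ℝ) (hl : ∀ i, 0 < l i) {b a : Fin d} (h : b ≤ a) :
    top l b ≤ top l a := by
  unfold top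
  apply Finset.sum_le_sum
  intro i _
  by_cases h1 : i < b
  · simp [h1, lt_of_lt_of_le h1 h]
  · rw [if_neg h1]
    split_ifs
    · exact (hl i).le
    · exact le_refl _

private theorem mk_top_lt (l : Fin d → ℝ) (hl : ∀ i, 0 < l i) {b a : Fin d} (h : a < b) :
    top l a + l a ≤ top l b := by
  have h0 : l a = ∑ i, if i = a then l i else 0 := by
    rw [Finset.sum_ite_eq' Finset.univ a]
    simp
  unfold top
  conv_lhs => rw [h0]
  rw [← Finset.sum_add_distrib]
  apply Finset.sum_le_sum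
  intro i _
  by_cases h1 : i < a
  · have h2 : i ≠ a := h1.ne
    simp [h1, h2, h1.trans h]
  · by_cases h2 : i = a
    · simp [h2, h]
    · simp only [h1, h2, if_false, add_zero]
      split_ifs
      · exact (hl i).le
      · exact le_refl _

private theorem mk_vanish {f : ℝ → ℝ} (hz : ∀ z, (z ≤ 1 / 8 ∨ 7 / 8 ≤ z) → f z = 0) (i : ℕ)
    (z : ℝ) (h : z < 1 / 8 ∨ 7 / 8 < z) : iteratedDeriv i f z = 0 := by
  have h1 : f =ᶠ[nhds z] (fun _ => (0 : ℝ)) := by
    rcases h with h | h
    · filter_upwards [Iio_mem_nhds h] with y hy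
      exact hz y (Or.inl (le_of_lt hy))
    · filter_upwards [Ioi_mem_nhds h] with y hy
      exact hz y (Or.inr (le_of_lt hy))
  have h2 := Filter.EventuallyEq.iteratedDeriv_eq i h1
  rw [h2]
  simp

private theorem mk_bdd {f : ℝ → ℝ} (hf : ContDiff ℝ ∞ f)
    (hz : ∀ z, (z ≤ 1 / 8 ∨ 7 / 8 ≤ z) → f z = 0) (i : ℕ) :
    ∃ C, ∀ z, |iteratedDeriv i f z| ≤ C := by
  have hc : Continuous (iteratedDeriv i f) := hf.continuous_iteratedDeriv i (by exact_mod_cast le_top)
  obtain ⟨C, hC⟩ := (isCompact_Icc (a := (0 : ℝ)) (b := 1)).exists_bound_of_continuousOn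
    hc.continuousOn
  refine ⟨max C 0, fun z => ?_⟩
  by_cases h : z ∈ Set.Icc (0 : ℝ) 1
  · exact le_trans (by simpa using hC z h) (le_max_left _ _)
  · have h1 : z < 1 / 8 ∨ 7 / 8 < z := by
      rw [Set.mem_Icc, not_and_or, not_le, not_le] at h
      rcases h with h | h
      · left; linarith
      · right; linarith
    rw [mk_vanish hz i z h1]
    simp

/-- PROOF.  For a smooth `f` vanishing outside `(1/8, 7/8)` put `F y = w * f ((y - x) / w)`; then
`iteratedDeriv i F y = w * (w⁻¹) ^ i * iteratedDeriv i f ((y - x) / w)`.  Each of these is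
continuous, bounded (`iteratedDeriv i f` vanishes outside `[1/8, 7/8]`), and the derivative of the
`i`-th one is the `(i+1)`-st one.  They vanish outside `(x, x + w)` (if `z ≤ 0 < 1/8` or
`z ≥ 1 > 7/8` then `f` vanishes near `z`), which is contained in `cell l a`, hence in
`(0, tot l)` and contains no `top l b`: `top l b ≤ top l a` for `b ≤ a`, and
`top l b ≥ top l a + l a` for `b > a`; `0 ≤ top l a`, `top l a + l a ≤ tot l`.
For `f` without these properties put `Φ f = 0`. -/
theorem exists_mk (R : ℕ) (l : Fin d → ℝ) (hl : ∀ i, 0 < l i) (a : Fin d) (x w : ℝ) (hw : 0 < w)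
    (ha : top l a ≤ x) (hb : x + w ≤ top l a + l a) :
    ∃ Φ : (ℝ → ℝ) → Disp R l, ∀ f : ℝ → ℝ, ContDiff ℝ ∞ f →
      (∀ z, (z ≤ 1 / 8 ∨ 7 / 8 ≤ z) → f z = 0) →
      ∀ (i : Fin (R + 1)) (y : ℝ),
        (Φ f).1 i y = w * (w⁻¹) ^ (i : ℕ) * iteratedDeriv i f ((y - x) / w) := by
  classical
  have hbd : ∀ (f : ℝ → ℝ), ContDiff ℝ ∞ f → (∀ z, (z ≤ 1 / 8 ∨ 7 / 8 ≤ z) → f z = 0) →
      ∀ i : Fin (R + 1), ∃ g : BoundedContinuousFunction ℝ ℝ, ∀ y,
        g y = w * (w⁻¹) ^ (i : ℕ) * iteratedDeriv i f ((y - x) / w) := by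
    intro f hf hz i
    obtain ⟨C, hC⟩ := mk_bdd hf hz i
    have hc : Continuous (iteratedDeriv i f) :=
      hf.continuous_iteratedDeriv i (by exact_mod_cast le_top)
    refine ⟨BoundedContinuousFunction.ofNormedAddCommGroup
      (fun y => w * (w⁻¹) ^ (i : ℕ) * iteratedDeriv i f ((y - x) / w))
      (by fun_prop) (w * (w⁻¹) ^ (i : ℕ) * C) ?_, fun y => rfl⟩
    intro y
    have hpos : 0 ≤ w * (w⁻¹) ^ (i : ℕ) := by positivity
    rw [Real.norm_eq_abs, abs_mul, abs_of_nonneg hpos]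
    exact mul_le_mul_of_nonneg_left (hC _) hpos
  choose g hg using hbd
  have hout : ∀ (f : ℝ → ℝ) (hf : ContDiff ℝ ∞ f)
      (hz : ∀ z, (z ≤ 1 / 8 ∨ 7 / 8 ≤ z) → f z = 0) (i : Fin (R + 1)) (y : ℝ),
      (y ≤ x ∨ x + w ≤ y) → g f hf hz i y = 0 := by
    intro f hf hz i y hy
    rw [hg f hf hz i y, mk_vanish hz i, mul_zero]
    rcases hy with hy | hy
    · left
      have : (y - x) / w ≤ 0 := div_nonpos_of_nonpos_of_nonneg (by linarith) hw.le
      linarith
    · right
      have : 1 ≤ (y - x) / w := by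
        rw [le_div_iff₀ hw]
        linarith
      linarith
  have hmem : ∀ (f : ℝ → ℝ) (hf : ContDiff ℝ ∞ f)
      (hz : ∀ z, (z ≤ 1 / 8 ∨ 7 / 8 ≤ z) → f z = 0), g f hf hz ∈ Disp R l := by
    intro f hf hz
    refine ⟨fun i y => ?_, fun i y hy => ?_, fun i b => ?_⟩
    · have h1 : ((g f hf hz i.castSucc : BoundedContinuousFunction ℝ ℝ) : ℝ → ℝ) =
          fun y => w * (w⁻¹) ^ (i : ℕ) * iteratedDeriv i f ((y - x) / w) := by
        funext y
        rw [hg f hf hz i.castSucc y]
        rfl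
      rw [h1, hg f hf hz i.succ y]
      have h2 : HasDerivAt (iteratedDeriv (i : ℕ) f) (iteratedDeriv ((i : ℕ) + 1) f ((y - x) / w))
          ((y - x) / w) := by
        rw [iteratedDeriv_succ]
        apply DifferentiableAt.hasDerivAt
        exact (hf.differentiable_iteratedDeriv i (by exact_mod_cast WithTop.coe_lt_top _)) _
      have h3 : HasDerivAt (fun y : ℝ => (y - x) / w) (w⁻¹) y := by
        have := ((hasDerivAt_id y).sub_const x).div_const w
        simpa using this
      have h4 := (h2.comp y h3).const_mul (w * (w⁻¹) ^ (i : ℕ))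
      have h5 : w * (w⁻¹) ^ ((i.succ : Fin (R + 1)) : ℕ) *
          iteratedDeriv ((i.succ : Fin (R + 1)) : ℕ) f ((y - x) / w) =
          w * (w⁻¹) ^ (i : ℕ) * (iteratedDeriv ((i : ℕ) + 1) f ((y - x) / w) * w⁻¹) := by
        rw [Fin.val_succ, pow_succ]
        ring
      rw [h5]
      exact h4
    · apply hout
      rw [Set.mem_Ioo, not_and_or, not_lt, not_lt] at hy
      rcases hy with hy | hy
      · left
        have := mk_top_nonneg l hl a
        linarith
      · right
        have := mk_top_add_le_tot l hl a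
        linarith
    · apply hout
      rcases le_or_gt b a with hba | hba
      · left
        exact le_trans (mk_top_mono l hl hba) ha
      · right
        exact le_trans hb (mk_top_lt l hl hba)
  refine ⟨fun f => if h : ContDiff ℝ ∞ f ∧ (∀ z, (z ≤ 1 / 8 ∨ 7 / 8 ≤ z) → f z = 0) then
    ⟨g f h.1 h.2, hmem f h.1 h.2⟩ else 0, ?_⟩
  intro f hf hz i y
  beta_reduce
  rw [dif_pos (show ContDiff ℝ ∞ f ∧ (∀ z, (z ≤ 1 / 8 ∨ 7 / 8 ≤ z) → f z = 0) from ⟨hf, hz⟩)]
  exact hg f hf hz i y

end Pool.Agent.W_ef8234_h97
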