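import Mathlib
import Pool.Agent.W_ef8234_h97.Defs

/-! # Elementary properties of the standard map -/

namespace Pool.Agent.W_ef8234_h97

variable {d : ℕ}

private theorem Iem_step (π : Fin d → Fin d) (l : Fin d → ℝ) (hl : ∀ i, 0 < l i) (a b : Fin d)
    (hab : π a < π b) :
    (∑ i, if π i < π a then l i else 0) + l a ≤ ∑ i, if π i < π b then l i else 0 := by
  have h1 : l a = ∑ i, if i = a then l i else 0 := by
    rw [Finset.sum_ite_eq' Finset.univ a l, if_pos (Finset.mem_univ a)]
  rw [h1, ← Finset.sum_add_distrib]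
  apply Finset.sum_le_sum
  intro i _
  by_cases h2 : i = a
  · subst h2
    simp [hab]
  · rw [if_neg h2, add_zero]
    by_cases h3 : π i < π a
    · rw [if_pos h3, if_pos (h3.trans hab)]
    · rw [if_neg h3]
      split_ifs
      · exact (hl i).le
      · exact le_refl _

private theorem Iem_tot (π : Fin d → Fin d) (l : Fin d → ℝ) (hl : ∀ i, 0 < l i) (a : Fin d) :
    (∑ i, if π i < π a then l i else 0) + l a ≤ ∑ i, l i := by
  have h1 : l a = ∑ i, if i = a then l i else 0 := by
    rw [Finset.sum_ite_eq' Finset.univ a l, if_pos (Finset.mem_univ a)]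
  rw [h1, ← Finset.sum_add_distrib]
  apply Finset.sum_le_sum
  intro i _
  by_cases h2 : i = a
  · subst h2
    simp
  · rw [if_neg h2, add_zero]
    split_ifs
    · exact le_refl _
    · exact (hl i).le

private theorem Iem_nonneg (π : Fin d → Fin d) (l : Fin d → ℝ) (hl : ∀ i, 0 < l i) (a : Fin d) :
    0 ≤ ∑ i, if π i < π a then l i else 0 := by
  apply Finset.sum_nonneg
  intro i _
  split_ifs
  · exact (hl i).le
  · exact le_refl _

private theorem Iem_top_step (l : Fin d → ℝ) (hl : ∀ i, 0 < l i) (a b : Fin d)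
    (hab : a < b) : top l a + l a ≤ top l b := Iem_step id l hl a b hab

private theorem Iem_bot_step (p : Equiv.Perm (Fin d)) (l : Fin d → ℝ) (hl : ∀ i, 0 < l i)
    (a b : Fin d) (hab : p a < p b) : bot p l a + l a ≤ bot p l b := Iem_step p l hl a b hab

private theorem Iem_cell_unique (l : Fin d → ℝ) (hl : ∀ i, 0 < l i) (a b : Fin d) (y : ℝ)
    (ha : y ∈ cell l a) (hb : y ∈ cell l b) : a = b := by
  obtain ⟨h1, h2⟩ := ha
  obtain ⟨h3, h4⟩ := hb
  rcases lt_trichotomy a b with h | h | h
  · have := Iem_top_step l hl a b h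
    linarith
  · exact h
  · have := Iem_top_step l hl b a h
    linarith

private theorem Iem_cell (p : Equiv.Perm (Fin d)) (l : Fin d → ℝ) (hl : ∀ i, 0 < l i) (a : Fin d)
    (y : ℝ) (hy : y ∈ cell l a) : iem p l y = y + (bot p l a - top l a) := by
  unfold iem
  rw [Finset.sum_eq_single a]
  · rw [Set.indicator_of_mem hy]
  · intro b _ hb
    apply Set.indicator_of_notMem
    intro hyb
    exact hb (Iem_cell_unique l hl b a y hyb hy)
  · intro h
    exact absurd (Finset.mem_univ a) h

/-- PROOF.  The translated intervals `(bot p l a, bot p l a + l a)` are pairwise disjoint: if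
`p a < p b` then `bot p l a + l a ≤ bot p l b` (lengths positive).  Similarly `cell l a` are
pairwise disjoint, so on `cell l a` the map `iem p l` is `y ↦ y + (bot p l a - top l a)`. -/
theorem iem_injOn (p : Equiv.Perm (Fin d)) (l : Fin d → ℝ) (hl : ∀ i, 0 < l i) :
    Set.InjOn (iem p l) (dom l) := by
  intro y hy y' hy' h
  obtain ⟨a, ha⟩ := Set.mem_iUnion.1 hy
  obtain ⟨b, hb⟩ := Set.mem_iUnion.1 hy'
  rw [Iem_cell p l hl a y ha, Iem_cell p l hl b y' hb] at h
  have hab : a = b := by
    obtain ⟨h1, h2⟩ := ha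
    obtain ⟨h3, h4⟩ := hb
    rcases lt_trichotomy (p a) (p b) with h5 | h5 | h5
    · have := Iem_bot_step p l hl a b h5
      linarith
    · exact p.injective h5
    · have := Iem_bot_step p l hl b a h5
      linarith
  subst hab
  linarith

/-- PROOF.  As above: the cells are pairwise disjoint, so exactly one indicator is nonzero. -/
theorem iem_cell (p : Equiv.Perm (Fin d)) (l : Fin d → ℝ) (hl : ∀ i, 0 < l i) (a : Fin d)
    (y : ℝ) (hy : y ∈ cell l a) : iem p l y = y + (bot p l a - top l a) :=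
  Iem_cell p l hl a y hy

/-- PROOF.  `0 ≤ bot p l a`, `bot p l a + l a ≤ tot l`. -/
theorem iem_mem (p : Equiv.Perm (Fin d)) (l : Fin d → ℝ) (hl : ∀ i, 0 < l i)
    (y : ℝ) (hy : y ∈ dom l) : iem p l y ∈ Set.Ioo 0 (tot l) := by
  obtain ⟨a, ha⟩ := Set.mem_iUnion.1 hy
  rw [Iem_cell p l hl a y ha]
  obtain ⟨h1, h2⟩ := ha
  have h3 : 0 ≤ bot p l a := Iem_nonneg p l hl a
  have h4 : bot p l a + l a ≤ tot l := Iem_tot p l hl a
  exact ⟨by linarith, by linarith⟩

/-- PROOF.  `0 ≤ top l a`, `top l a + l a ≤ tot l`. -/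
theorem dom_subset (l : Fin d → ℝ) (hl : ∀ i, 0 < l i) : dom l ⊆ Set.Ioo 0 (tot l) := by
  intro y hy
  obtain ⟨a, ha⟩ := Set.mem_iUnion.1 hy
  obtain ⟨h1, h2⟩ := ha
  have h3 : 0 ≤ top l a := Iem_nonneg id l hl a
  have h4 : top l a + l a ≤ tot l := Iem_tot id l hl a
  exact ⟨by linarith, by linarith⟩

/-- A point of the open cells: the map `iem p l` has derivative `1` there, since it coincides
with a translation near the point. -/
theorem iem_hasDerivAt (p : Equiv.Perm (Fin d)) (l : Fin d → ℝ) (hl : ∀ i, 0 < l i)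
    (y : ℝ) (hy : y ∈ dom l) : HasDerivAt (iem p l) 1 y := by
  obtain ⟨a, ha⟩ := Set.mem_iUnion.1 hy
  have h1 : HasDerivAt (fun z : ℝ => z + (bot p l a - top l a)) 1 y :=
    (hasDerivAt_id y).add_const _
  apply h1.congr_of_eventuallyEq
  have h2 : cell l a ∈ nhds y := isOpen_Ioo.mem_nhds ha
  filter_upwards [h2] with z hz
  exact Iem_cell p l hl a z hz

end Pool.Agent.W_ef8234_h97
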