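import Mathlib
import Pool.Agent.W_ef8234_h97.Iem

/-! # Two conjugacies of the same deformation -/

namespace Pool.Agent.W_ef8234_h97

variable {d : ℕ} {p : Equiv.Perm (Fin d)} {l : Fin d → ℝ} {η : ℝ}

theorem dist_isOpen_dom (l : Fin d → ℝ) : IsOpen (dom l) :=
  isOpen_iUnion fun _ => isOpen_Ioo

/-- Differentiating the conjugacy relation at a point of the domain. -/
theorem dist_chain (hl : ∀ i, 0 < l i) (k F : ℝ → ℝ) (hF : Differentiable ℝ F) (t : ℝ)
    (ht : t ∈ dom l) (hkt : k t ∈ dom l) (hk : DifferentiableAt ℝ k t)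
    (hk2 : DifferentiableAt ℝ k (iem p l t))
    (hkrel : ∀ y ∈ dom l, k (iem p l y) = iem p l (k y) + F (k y)) :
    deriv k (iem p l t) = (1 + deriv F (k t)) * deriv k t := by
  have h1 : HasDerivAt (fun y => k (iem p l y)) (deriv k (iem p l t) * 1) t :=
    hk2.hasDerivAt.comp t (iem_hasDerivAt p l hl t ht)
  have h2 : HasDerivAt (fun y => iem p l (k y)) (1 * deriv k t) t :=
    (iem_hasDerivAt p l hl (k t) hkt).comp t hk.hasDerivAt
  have h3 : HasDerivAt (fun y => F (k y)) (deriv F (k t) * deriv k t) t :=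
    (hF (k t)).hasDerivAt.comp t hk.hasDerivAt
  have h4 := h2.add h3
  have h5 : (fun y => k (iem p l y)) =ᶠ[nhds t] fun y => iem p l (k y) + F (k y) := by
    filter_upwards [(dist_isOpen_dom l).mem_nhds ht] with y hy
    exact hkrel y hy
  have h6 := (h4.congr_of_eventuallyEq h5).unique h1
  linarith

/-- Two conjugacies with the same deformation have the same distortion along corresponding
orbits.  PROOF.  Let `y' ∈ (0, L)` with `h y' = k y` (see below).  By induction on `i ≤ n`: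
`T₀^i y' ∈ (0, L)`, `h (T₀^i y') = k (T₀^i y)` and
`h'(T₀^i y') / h'(y') = k'(T₀^i y) / k'(y)`.
Step: `T₀^i y ∈ dom l` so `k (T₀^i y) ∈ dom l` (`hkdom`), so `T₀^i y' ∈ dom l` (`hhdom`),
so `h (T₀^(i+1) y') = T (h (T₀^i y')) = T (k (T₀^i y)) = k (T₀^(i+1) y)` where
`T z = iem z + F z`.  Differentiating `k (T₀ t) = T₀ (k t) + F (k t)` at `t = T₀^i y`
(`iem_hasDerivAt` at `t` and at `k t`): `k'(T₀ t) = (1 + F'(k t)) k'(t)`; the same for `h`
(`h` is differentiable at interior points of `[0, L]`, where `deriv h = derivWithin h`).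
`T₀ (dom l) ⊆ (0, L)` is `iem_mem`.
Existence of `y'`: `h` is continuous on `[0, L]`, `h 0 = 0`, `h L = L`, and `k y ∈ (0, L)`
(`hkdom`, `dom_subset`): intermediate value theorem. -/
theorem same_distortion (hl : ∀ i, 0 < l i) (hη1 : η < 1) (k h F : ℝ → ℝ)
    (hF : Differentiable ℝ F) (hk : ContDiff ℝ 1 k) (hkpos : ∀ y, 0 < deriv k y)
    (hkdom : ∀ y, y ∈ dom l ↔ k y ∈ dom l)
    (hkrel : ∀ y ∈ dom l, k (iem p l y) = iem p l (k y) + F (k y))
    (hh : ContDiffOn ℝ 1 h (Set.Icc 0 (tot l))) (hh0 : h 0 = 0) (hhL : h (tot l) = tot l)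
    (hhη : ∀ x ∈ Set.Icc 0 (tot l), |derivWithin h (Set.Icc 0 (tot l)) x - 1| < η)
    (hhdom : ∀ x ∈ Set.Ioo 0 (tot l), x ∈ dom l ↔ h x ∈ dom l)
    (hhrel : ∀ x ∈ dom l, h (iem p l x) = iem p l (h x) + F (h x))
    (y : ℝ) (n : ℕ) (hn : ∀ i < n, (iem p l)^[i] y ∈ dom l) (hy : y ∈ dom l) :
    ∃ a b : ℝ, |a - 1| < η ∧ |b - 1| < η ∧
      b * deriv k y = a * deriv k ((iem p l)^[n] y) := by
  have hkd : Differentiable ℝ k := hk.differentiable (by simp)
  have hL : 0 < tot l := by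
    have := dom_subset l hl hy
    exact this.1.trans this.2
  have hhd : ∀ t ∈ Set.Ioo 0 (tot l), DifferentiableAt ℝ h t := fun t ht =>
    ((hh.differentiableOn (by simp)) t ⟨ht.1.le, ht.2.le⟩).differentiableAt
      (Icc_mem_nhds ht.1 ht.2)
  have hhder : ∀ t ∈ Set.Ioo 0 (tot l), |deriv h t - 1| < η := fun t ht => by
    have := hhη t ⟨ht.1.le, ht.2.le⟩
    rwa [derivWithin_of_mem_nhds (Icc_mem_nhds ht.1 ht.2)] at this
  -- existence of y'
  obtain ⟨y', hy'1, hy'2⟩ : ∃ y' ∈ Set.Ioo 0 (tot l), h y' = k y := by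
    have hky := dom_subset l hl ((hkdom y).1 hy)
    have := intermediate_value_Ioo hL.le hh.continuousOn
    rw [hh0, hhL] at this
    exact this hky
  have key : ∀ i ≤ n, (iem p l)^[i] y' ∈ Set.Ioo 0 (tot l) ∧
      h ((iem p l)^[i] y') = k ((iem p l)^[i] y) ∧
      deriv h ((iem p l)^[i] y') * deriv k y = deriv h y' * deriv k ((iem p l)^[i] y) := by
    intro i
    induction i with
    | zero => intro _; exact ⟨hy'1, hy'2, rfl⟩
    | succ i ih =>
      intro hi
      obtain ⟨h1, h2, h3⟩ := ih (by omega)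
      have ht : (iem p l)^[i] y ∈ dom l := hn i (by omega)
      have hkt : k ((iem p l)^[i] y) ∈ dom l := (hkdom _).1 ht
      have hht : h ((iem p l)^[i] y') ∈ dom l := by rw [h2]; exact hkt
      have ht' : (iem p l)^[i] y' ∈ dom l := (hhdom _ h1).2 hht
      rw [Function.iterate_succ_apply', Function.iterate_succ_apply']
      have hmem := iem_mem p l hl _ ht'
      refine ⟨hmem, ?_, ?_⟩
      · rw [hhrel _ ht', hkrel _ ht, h2]
      · rw [dist_chain hl k F hF _ ht hkt (hkd _) (hkd _) hkrel,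
          dist_chain hl h F hF _ ht' hht (hhd _ h1) (hhd _ hmem) hhrel, h2]
        calc (1 + deriv F (k ((iem p l)^[i] y))) * deriv h ((iem p l)^[i] y') * deriv k y
            = (1 + deriv F (k ((iem p l)^[i] y))) *
              (deriv h ((iem p l)^[i] y') * deriv k y) := by ring
          _ = (1 + deriv F (k ((iem p l)^[i] y))) *
              (deriv h y' * deriv k ((iem p l)^[i] y)) := by rw [h3]
          _ = _ := by ring
  obtain ⟨h1, -, h3⟩ := key n le_rfl
  exact ⟨deriv h y', deriv h ((iem p l)^[n] y'), hhder _ hy'1, hhder _ h1, h3⟩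

end Pool.Agent.W_ef8234_h97
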