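import Mathlib

/-! # The profile -/

namespace Pool.Agent.W_ef8234_h97

open scoped ContDiff

/-- A smooth function supported in `[1/4, 3/4]` with slope in `[-1, 1]`, slope `1` near `3/8`
and slope `-1` near `5/8`. -/
structure IsProfile (θ : ℝ → ℝ) : Prop where
  smooth : ContDiff ℝ ∞ θ
  left : ∀ x, x ≤ 1 / 4 → θ x = 0
  right : ∀ x, 3 / 4 ≤ x → θ x = 0
  bound : ∀ x, |deriv θ x| ≤ 1
  up : ∀ x, |x - 3 / 8| ≤ 1 / 32 → deriv θ x = 1
  down : ∀ x, |x - 5 / 8| ≤ 1 / 32 → deriv θ x = -1

/-- PROOF.  Let `b₁`, `b₂` be the smooth bump functions (`ContDiffBump`, rIn = 1/32,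
rOut = 1/16) centred at `3/8` and `5/8`; their supports `(5/16, 7/16)`, `(9/16, 11/16)` are
disjoint.  Put `θ x = ∫ t in (0)..x, (b₁ t - b₂ t)`; so `deriv θ = b₁ - b₂` (continuous
integrand), values in `[-1, 1]`.  `θ` is smooth because its derivative is.  For `x ≤ 1/4` the
integrand vanishes on the interval; for `x ≥ 3/4` the two full integrals cancel: `b₂` is the
translate of `b₁` by `1/4` (or avoid `ContDiffBump` translates: take `b : ContDiffBump (0:ℝ)` and
`b₁ t = b (t - 3/8)`, `b₂ t = b (t - 5/8)`, then `θ x = Φ (x - 3/8) - Φ (x - 5/8)` with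
`Φ x = ∫ t in (-1)..x, b t`, which is constant for `x ≥ 1/16` and zero for `x ≤ -1/16`). -/
theorem exists_profile : ∃ θ : ℝ → ℝ, IsProfile θ := by
  let b : ContDiffBump (0 : ℝ) := ⟨1 / 32, 1 / 16, by norm_num, by norm_num⟩
  have hbs : ContDiff ℝ ∞ (fun t : ℝ => b t) := b.contDiff
  have hb0 : ∀ t : ℝ, 1 / 16 ≤ |t| → b t = 0 := by
    intro t ht
    apply b.zero_of_le_dist
    simpa [Real.dist_eq, b] using ht
  have hb1 : ∀ t : ℝ, |t| ≤ 1 / 32 → b t = 1 := by
    intro t ht
    apply b.one_of_mem_closedBall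
    simpa [Metric.mem_closedBall, Real.dist_eq, b] using ht
  have hbn : ∀ t : ℝ, 0 ≤ b t := fun t => b.nonneg
  have hbl : ∀ t : ℝ, b t ≤ 1 := fun t => b.le_one
  have hbc : Continuous (fun t : ℝ => b t) := hbs.continuous
  let g : ℝ → ℝ := fun t => b (t - 3 / 8) - b (t - 5 / 8)
  have hgs : ContDiff ℝ ∞ g := by
    apply ContDiff.sub
    · exact hbs.comp (contDiff_id.sub contDiff_const)
    · exact hbs.comp (contDiff_id.sub contDiff_const)
  have hgc : Continuous g := hgs.continuous
  let θ : ℝ → ℝ := fun x => ∫ t in (0 : ℝ)..x, g t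
  have hder : ∀ x, HasDerivAt θ (g x) x := fun x =>
    (hgc.integral_hasStrictDerivAt 0 x).hasDerivAt
  have hderiv : deriv θ = g := funext fun x => (hder x).deriv
  have hz : ∀ a c : ℝ, (∀ t ∈ Set.uIcc a c, (1 : ℝ) / 16 ≤ |t|) →
      ∫ t in a..c, b t = 0 := by
    intro a c h
    rw [intervalIntegral.integral_congr (g := fun _ => (0 : ℝ)) (fun t ht => hb0 t (h t ht))]
    simp
  refine ⟨θ, ?_, ?_, ?_, ?_, ?_, ?_⟩
  · rw [contDiff_infty_iff_deriv]
    exact ⟨fun x => (hder x).differentiableAt, by rw [hderiv]; exact hgs⟩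
  · intro x hx
    show ∫ t in (0 : ℝ)..x, g t = 0
    rw [intervalIntegral.integral_congr (g := fun _ => (0 : ℝ))]
    · simp
    · intro t ht
      have h14 : t ≤ 1 / 4 := by
        rcases Set.mem_uIcc.1 ht with h | h
        · linarith [h.2]
        · linarith [h.2]
      show b (t - 3 / 8) - b (t - 5 / 8) = 0
      rw [hb0 _ (by rw [abs_of_nonpos (by linarith)]; linarith),
        hb0 _ (by rw [abs_of_nonpos (by linarith)]; linarith), sub_zero]
  · intro x hx
    show ∫ t in (0 : ℝ)..x, (b (t - 3 / 8) - b (t - 5 / 8)) = 0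
    rw [intervalIntegral.integral_sub]
    · rw [intervalIntegral.integral_comp_sub_right (fun t => b t),
        intervalIntegral.integral_comp_sub_right (fun t => b t)]
      have hi : ∀ a c : ℝ, IntervalIntegrable (fun t : ℝ => b t) MeasureTheory.volume a c :=
        fun a c => hbc.intervalIntegrable a c
      have e1 : ∫ t in (0 - 5 / 8 : ℝ)..(x - 3 / 8), b t
          = (∫ t in (0 - 5 / 8 : ℝ)..(0 - 3 / 8), b t)
            + ∫ t in (0 - 3 / 8 : ℝ)..(x - 3 / 8), b t :=
        (intervalIntegral.integral_add_adjacent_intervals (hi _ _) (hi _ _)).symm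
      have e2 : ∫ t in (0 - 5 / 8 : ℝ)..(x - 3 / 8), b t
          = (∫ t in (0 - 5 / 8 : ℝ)..(x - 5 / 8), b t)
            + ∫ t in (x - 5 / 8 : ℝ)..(x - 3 / 8), b t :=
        (intervalIntegral.integral_add_adjacent_intervals (hi _ _) (hi _ _)).symm
      have z1 : ∫ t in (0 - 5 / 8 : ℝ)..(0 - 3 / 8), b t = 0 := by
        apply hz
        intro t ht
        have h3 : t ≤ -(3 / 8) := by
          rcases Set.mem_uIcc.1 ht with h | h
          · linarith [h.2]
          · linarith [h.1, h.2]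
        rw [abs_of_nonpos (by linarith)]
        linarith
      have z2 : ∫ t in (x - 5 / 8 : ℝ)..(x - 3 / 8), b t = 0 := by
        apply hz
        intro t ht
        have h3 : 1 / 8 ≤ t := by
          rcases Set.mem_uIcc.1 ht with h | h
          · linarith [h.1]
          · linarith [h.1, h.2]
        rw [abs_of_nonneg (by linarith)]
        linarith
      rw [z1, zero_add] at e1
      rw [z2, add_zero] at e2
      rw [← e1, e2, sub_self]
    · exact (hbc.comp (continuous_id.sub continuous_const)).intervalIntegrable _ _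
    · exact (hbc.comp (continuous_id.sub continuous_const)).intervalIntegrable _ _
  · intro x
    rw [hderiv]
    show |b (x - 3 / 8) - b (x - 5 / 8)| ≤ 1
    rw [abs_le]
    constructor <;> linarith [hbn (x - 3 / 8), hbn (x - 5 / 8), hbl (x - 3 / 8), hbl (x - 5 / 8)]
  · intro x hx
    rw [hderiv]
    show b (x - 3 / 8) - b (x - 5 / 8) = 1
    have h1 := abs_le.1 hx
    rw [hb1 _ hx, hb0 _ (by rw [abs_of_nonpos (by linarith)]; linarith), sub_zero]
  · intro x hx
    rw [hderiv]
    show b (x - 3 / 8) - b (x - 5 / 8) = -1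
    have h1 := abs_le.1 hx
    rw [hb1 _ hx, hb0 _ (by rw [abs_of_nonneg (by linarith)]; linarith), zero_sub]

end Pool.Agent.W_ef8234_h97
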