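import Mathlib
import Pool.Agent.W_ef8234_h97.Theta

/-! # The family of diffeomorphisms `κ_r = id + η cos r θ` and its inverse -/

namespace Pool.Agent.W_ef8234_h97

open scoped ContDiff

/-- `κ_r z = z + η cos r θ z`. -/
noncomputable def kap (η : ℝ) (θ : ℝ → ℝ) (r z : ℝ) : ℝ := z + η * Real.cos r * θ z

/-- The linear shear `(a, b) ↦ (a, A a + B b)`, `B ≠ 0`. -/
noncomputable def kapShear (A B : ℝ) (hB : B ≠ 0) : (ℝ × ℝ) ≃L[ℝ] (ℝ × ℝ) :=
  ContinuousLinearEquiv.equivOfInverse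
    ((ContinuousLinearMap.fst ℝ ℝ ℝ).prod
      (A • ContinuousLinearMap.fst ℝ ℝ ℝ + B • ContinuousLinearMap.snd ℝ ℝ ℝ))
    ((ContinuousLinearMap.fst ℝ ℝ ℝ).prod
      ((-(A / B)) • ContinuousLinearMap.fst ℝ ℝ ℝ + (1 / B) • ContinuousLinearMap.snd ℝ ℝ ℝ))
    (by
      intro x
      refine Prod.ext rfl ?_
      show -(A / B) * x.1 + 1 / B * (A * x.1 + B * x.2) = x.2
      field_simp
      ring)
    (by
      intro x
      refine Prod.ext rfl ?_
      show A * x.1 + B * (-(A / B) * x.1 + 1 / B * x.2) = x.2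
      field_simp
      ring)

private lemma kap_hasDerivAt {η : ℝ} {θ : ℝ → ℝ} (hθ : IsProfile θ) (r z : ℝ) :
    HasDerivAt (kap η θ r) (1 + η * Real.cos r * deriv θ z) z := by
  have h : HasDerivAt θ (deriv θ z) z :=
    (hθ.smooth.differentiable (by simp) z).hasDerivAt
  exact (hasDerivAt_id z).add (h.const_mul (η * Real.cos r))

private lemma kap_pos {η : ℝ} {θ : ℝ → ℝ} (hη : 0 < η) (hη1 : η < 1) (hθ : IsProfile θ)
    (r z : ℝ) : 0 < 1 + η * Real.cos r * deriv θ z := by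
  have h1 : |η * Real.cos r * deriv θ z| ≤ η := by
    rw [abs_mul, abs_mul, abs_of_pos hη]
    calc η * |Real.cos r| * |deriv θ z| ≤ η * 1 * 1 := by
          apply mul_le_mul _ (hθ.bound z) (abs_nonneg _) (by linarith)
          exact mul_le_mul_of_nonneg_left (Real.abs_cos_le_one r) hη.le
      _ = η := by ring
  linarith [(abs_le.1 h1).1]

private lemma kap_strictMono {η : ℝ} {θ : ℝ → ℝ} (hη : 0 < η) (hη1 : η < 1) (hθ : IsProfile θ)
    (r : ℝ) : StrictMono (kap η θ r) := by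
  apply strictMono_of_deriv_pos
  intro z
  rw [(kap_hasDerivAt hθ r z).deriv]
  exact kap_pos hη hη1 hθ r z

private lemma kap_surj {η : ℝ} {θ : ℝ → ℝ} (hθ : IsProfile θ)
    (r : ℝ) : Function.Surjective (kap η θ r) := by
  have hc : Continuous (kap η θ r) :=
    continuous_iff_continuousAt.2 fun z => (kap_hasDerivAt hθ r z).continuousAt
  intro y
  by_cases h1 : y ≤ 1 / 4
  · exact ⟨y, by simp [kap, hθ.left y h1]⟩
  by_cases h2 : 3 / 4 ≤ y
  · exact ⟨y, by simp [kap, hθ.right y h2]⟩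
  have h := intermediate_value_Icc (a := (1 : ℝ) / 4) (b := 3 / 4) (by norm_num)
    (hc.continuousOn (s := Set.Icc (1 / 4) (3 / 4)))
  have e1 : kap η θ r (1 / 4) = 1 / 4 := by
    simp only [kap]
    rw [hθ.left _ le_rfl]
    ring
  have e2 : kap η θ r (3 / 4) = 3 / 4 := by
    simp only [kap]
    rw [hθ.right _ le_rfl]
    ring
  rw [e1, e2] at h
  obtain ⟨x, -, hx⟩ := h ⟨(not_le.1 h1).le, (not_le.1 h2).le⟩
  exact ⟨x, hx⟩

private lemma kap_hasFDerivAt {η : ℝ} {θ : ℝ → ℝ} (hη : 0 < η) (hη1 : η < 1) (hθ : IsProfile θ)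
    (q : ℝ × ℝ) :
    HasFDerivAt (fun q : ℝ × ℝ => (q.1, kap η θ q.1 q.2))
      (kapShear (θ q.2 * (η * -Real.sin q.1)) (1 + η * Real.cos q.1 * deriv θ q.2)
        (kap_pos hη hη1 hθ q.1 q.2).ne' : ℝ × ℝ →L[ℝ] ℝ × ℝ) q := by
  have h1 : HasFDerivAt (fun q : ℝ × ℝ => η * Real.cos q.1)
      ((η * -Real.sin q.1) • ContinuousLinearMap.fst ℝ ℝ ℝ) q :=
    HasDerivAt.comp_hasFDerivAt (h₂ := fun t : ℝ => η * Real.cos t) q
      ((Real.hasDerivAt_cos q.1).const_mul η) hasFDerivAt_fst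
  have h : HasDerivAt θ (deriv θ q.2) q.2 :=
    (hθ.smooth.differentiable (by simp) q.2).hasDerivAt
  have h2 : HasFDerivAt (fun q : ℝ × ℝ => θ q.2)
      (deriv θ q.2 • ContinuousLinearMap.snd ℝ ℝ ℝ) q :=
    HasDerivAt.comp_hasFDerivAt q h hasFDerivAt_snd
  have h3 : HasFDerivAt (fun q : ℝ × ℝ => kap η θ q.1 q.2) _ q :=
    (hasFDerivAt_snd (𝕜 := ℝ) (p := q)).add (h1.mul h2)
  refine (((hasFDerivAt_fst (𝕜 := ℝ) (p := q)).prodMk h3)).congr_fderiv ?_
  apply ContinuousLinearMap.ext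
  intro x
  refine Prod.ext rfl ?_
  show x.2 + (η * Real.cos q.1 * (deriv θ q.2 * x.2) + θ q.2 * (η * -Real.sin q.1 * x.1)) =
    θ q.2 * (η * -Real.sin q.1) * x.1 + (1 + η * Real.cos q.1 * deriv θ q.2) * x.2
  ring

private lemma kap_contDiff {η : ℝ} {θ : ℝ → ℝ} (hθ : IsProfile θ) :
    ContDiff ℝ ∞ (fun q : ℝ × ℝ => (q.1, kap η θ q.1 q.2)) := by
  apply ContDiff.prodMk contDiff_fst
  show ContDiff ℝ ∞ (fun q : ℝ × ℝ => q.2 + η * Real.cos q.1 * θ q.2)
  exact contDiff_snd.add ((contDiff_const.mul (Real.contDiff_cos.comp contDiff_fst)).mul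
    (hθ.smooth.comp contDiff_snd))

private lemma kap_equiv_symm (E : ℝ × ℝ ≃ ℝ × ℝ) (f' : ℝ × ℝ → (ℝ × ℝ) ≃L[ℝ] (ℝ × ℝ))
    (hf : ∀ q, HasFDerivAt E (f' q : ℝ × ℝ →L[ℝ] ℝ × ℝ) q) (hcd : ContDiff ℝ ∞ E) :
    ContDiff ℝ ∞ E.symm := by
  have hopen : IsOpenMap E :=
    isOpenMap_of_hasStrictFDerivAt_equiv fun q =>
      hcd.contDiffAt.hasStrictFDerivAt' (hf q) (by simp)
  exact (E.toHomeomorphOfContinuousOpen hcd.continuous hopen).contDiff_symm (𝕜 := ℝ) (n := ∞)
    hf hcd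

/-- PROOF.  `G (r, z) = (r, κ_r z)` is a smooth map of the plane; `∂κ/∂z = 1 + η cos r θ' ≥ 1 - η
> 0`, so for fixed `r` the map `κ_r` is strictly increasing; it is the identity outside
`[1/4, 3/4]`, continuous, hence a bijection of `ℝ`: let `K r` be its inverse.  So `G` is a
bijection of the plane with inverse `(r, y) ↦ (r, K r y)`.  Its differential
`(a, b) ↦ (a, ∂_r κ a + ∂_z κ b)` is invertible everywhere; by the inverse function theorem
(`ContDiffAt.to_localInverse` or `OpenPartialHomeomorph.contDiffAt_symm` for the homeomorphism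
`G`) the inverse is smooth.  (Alternative: `ContDiffAt` of implicit functions.)  To see that `G` is
a homeomorphism: it is a continuous bijection and open by the inverse function theorem, or use
that the local inverse at a point coincides with the global inverse near the image point, since
`G` is injective.) -/
theorem exists_kap_inv {η : ℝ} {θ : ℝ → ℝ} (hη : 0 < η) (hη1 : η < 1) (hθ : IsProfile θ) :
    ∃ K : ℝ → ℝ → ℝ, (∀ r z, kap η θ r (K r z) = z) ∧ (∀ r z, K r (kap η θ r z) = z) ∧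
      ContDiff ℝ ∞ (fun q : ℝ × ℝ => K q.1 q.2) := by
  have hbij : ∀ r, Function.Bijective (kap η θ r) := fun r =>
    ⟨(kap_strictMono hη hη1 hθ r).injective, kap_surj hθ r⟩
  let e : ∀ r, ℝ ≃ ℝ := fun r => Equiv.ofBijective (kap η θ r) (hbij r)
  have hK1 : ∀ r z, kap η θ r ((e r).symm z) = z := fun r z => (e r).apply_symm_apply z
  have hK2 : ∀ r z, (e r).symm (kap η θ r z) = z := fun r z => (e r).symm_apply_apply z
  refine ⟨fun r z => (e r).symm z, hK1, hK2, ?_⟩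
  exact contDiff_snd.comp (kap_equiv_symm
    { toFun := fun q => (q.1, kap η θ q.1 q.2)
      invFun := fun q => (q.1, (e q.1).symm q.2)
      left_inv := fun q => Prod.ext rfl (hK2 q.1 q.2)
      right_inv := fun q => Prod.ext rfl (hK1 q.1 q.2) } _
    (fun q => kap_hasFDerivAt hη hη1 hθ q) (kap_contDiff hθ))

end Pool.Agent.W_ef8234_h97
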