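import Mathlib

/-! # Derivatives depend on the parameter in a Lipschitz way -/

namespace Pool.Agent.W_ef8234_h97

open scoped ContDiff

/-- PROOF.  Induction on `i`: `(s, z) ↦ iteratedDeriv i (G s) z` is smooth
(`iteratedDeriv_succ`; for a smooth `D : ℝ × ℝ → ℝ` the function
`(s, z) ↦ deriv (fun z => D (s, z)) z = fderiv ℝ D (s, z) (0, 1)` is smooth). -/
theorem contDiff_iteratedDeriv_param (G : ℝ → ℝ → ℝ)
    (hG : ContDiff ℝ ∞ (fun q : ℝ × ℝ => G q.1 q.2)) (i : ℕ) :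
    ContDiff ℝ ∞ (fun q : ℝ × ℝ => iteratedDeriv i (G q.1) q.2) := by
  induction i with
  | zero => simpa using hG
  | succ i ih =>
    have h1 : ContDiff ℝ ∞ (fun q : ℝ × ℝ =>
        fderiv ℝ (fun q : ℝ × ℝ => iteratedDeriv i (G q.1) q.2) q ((0, 1) : ℝ × ℝ)) :=
      (ih.fderiv_right (m := ∞) (by simp)).clm_apply contDiff_const
    have h2 : (fun q : ℝ × ℝ => iteratedDeriv (i + 1) (G q.1) q.2) = fun q : ℝ × ℝ =>
        fderiv ℝ (fun q : ℝ × ℝ => iteratedDeriv i (G q.1) q.2) q ((0, 1) : ℝ × ℝ) := by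
      funext q
      rw [iteratedDeriv_succ]
      have h3 : HasFDerivAt (fun q : ℝ × ℝ => iteratedDeriv i (G q.1) q.2)
          (fderiv ℝ (fun q : ℝ × ℝ => iteratedDeriv i (G q.1) q.2) q) (q.1, q.2) :=
        ((ih.differentiable (by simp)) q).hasFDerivAt
      have h4 : HasDerivAt (fun z : ℝ => ((q.1, z) : ℝ × ℝ)) ((0, 1) : ℝ × ℝ) q.2 :=
        (hasDerivAt_const q.2 q.1).prodMk (hasDerivAt_id q.2)
      exact (h3.comp_hasDerivAt q.2 h4).deriv
    rw [h2]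
    exact h1

/-- PROOF.  By `contDiff_iteratedDeriv_param` the `s`-derivative of
`D_i (s, z) = iteratedDeriv i (G s) z` is continuous, so bounded by some `C_i` on the compact set
`[-1/16, 1/16] × [0, 1]`; by the mean value inequality in `s` (convex set),
`|D_i (s, z) - D_i (0, z)| ≤ C_i |s|` for `z ∈ [0, 1]`.  For `z < 1/8` or `z > 7/8` the functions
`G s` and `G 0` coincide in a neighbourhood of `z`, so all derivatives are equal.  Take `C` the
maximum (or the sum) of the `C_i`, `i ≤ R`. -/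
theorem param_bound (G : ℝ → ℝ → ℝ) (hG : ContDiff ℝ ∞ (fun q : ℝ × ℝ => G q.1 q.2))
    (hsupp : ∀ s z, |s| ≤ 1 / 16 → (z ≤ 1 / 8 ∨ 7 / 8 ≤ z) → G s z = G 0 z) (R : ℕ) :
    ∃ C : ℝ, 0 ≤ C ∧ ∀ s, |s| ≤ 1 / 16 → ∀ i ≤ R, ∀ z,
      |iteratedDeriv i (G s) z - iteratedDeriv i (G 0) z| ≤ C * |s| := by
  have hK : IsCompact (Set.Icc (-(1 / 16) : ℝ) (1 / 16) ×ˢ Set.Icc (0 : ℝ) 1) :=
    isCompact_Icc.prod isCompact_Icc
  have hconv : Convex ℝ (Set.Icc (-(1 / 16) : ℝ) (1 / 16) ×ˢ Set.Icc (0 : ℝ) 1) :=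
    (convex_Icc _ _).prod (convex_Icc _ _)
  have hb : ∀ i : ℕ, ∃ C : ℝ, ∀ q ∈ Set.Icc (-(1 / 16) : ℝ) (1 / 16) ×ˢ Set.Icc (0 : ℝ) 1,
      ‖fderiv ℝ (fun q : ℝ × ℝ => iteratedDeriv i (G q.1) q.2) q‖ ≤ C := fun i =>
    hK.exists_bound_of_continuousOn
      (((contDiff_iteratedDeriv_param G hG i).continuous_fderiv (by simp)).continuousOn)
  choose C hC using hb
  have hC0 : ∀ i, 0 ≤ C i := fun i =>
    (norm_nonneg _).trans (hC i (0, 0) ⟨⟨by norm_num, by norm_num⟩, ⟨by norm_num, by norm_num⟩⟩)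
  refine ⟨∑ i ∈ Finset.range (R + 1), C i, Finset.sum_nonneg fun i _ => hC0 i, ?_⟩
  intro s hs i hi z
  have hle : C i ≤ ∑ i ∈ Finset.range (R + 1), C i :=
    Finset.single_le_sum (fun i _ => hC0 i) (Finset.mem_range.2 (by omega))
  by_cases hz : z < 1 / 8 ∨ 7 / 8 < z
  · have heq : G s =ᶠ[nhds z] G 0 := by
      rcases hz with hz | hz
      · filter_upwards [Iio_mem_nhds hz] with w hw
        exact hsupp s w hs (Or.inl (le_of_lt hw))
      · filter_upwards [Ioi_mem_nhds hz] with w hw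
        exact hsupp s w hs (Or.inr (le_of_lt hw))
    rw [heq.iteratedDeriv_eq i, sub_self, abs_zero]
    exact mul_nonneg ((hC0 i).trans hle) (abs_nonneg s)
  · rw [not_or, not_lt, not_lt] at hz
    have hs' := abs_le.1 hs
    have h1 : ((s, z) : ℝ × ℝ) ∈ Set.Icc (-(1 / 16) : ℝ) (1 / 16) ×ˢ Set.Icc (0 : ℝ) 1 :=
      ⟨⟨hs'.1, hs'.2⟩, ⟨by linarith [hz.1], by linarith [hz.2]⟩⟩
    have h0 : ((0, z) : ℝ × ℝ) ∈ Set.Icc (-(1 / 16) : ℝ) (1 / 16) ×ˢ Set.Icc (0 : ℝ) 1 :=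
      ⟨⟨by norm_num, by norm_num⟩, ⟨by linarith [hz.1], by linarith [hz.2]⟩⟩
    have h2 := hconv.norm_image_sub_le_of_norm_fderiv_le
      (f := fun q : ℝ × ℝ => iteratedDeriv i (G q.1) q.2) (𝕜 := ℝ) (C := C i)
      (fun q _ => (contDiff_iteratedDeriv_param G hG i).differentiable (by simp) q)
      (fun q hq => hC i q hq) h0 h1
    have h3 : ‖((s, z) : ℝ × ℝ) - (0, z)‖ = |s| := by
      rw [Prod.mk_sub_mk, sub_zero, sub_self, Prod.norm_mk, norm_zero, Real.norm_eq_abs]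
      exact max_eq_left (abs_nonneg s)
    rw [h3] at h2
    exact h2.trans (mul_le_mul_of_nonneg_right hle (abs_nonneg s))

end Pool.Agent.W_ef8234_h97
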