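import Mathlib
import Pool.Agent.W_ef8234_h97.Kap
import Pool.Agent.W_ef8234_h97.Param

/-! # The defect of commutation `H r s = κ_r ∘ (· + s) ∘ κ_r⁻¹ - id - s` -/

namespace Pool.Agent.W_ef8234_h97

open scoped ContDiff

/-- The properties of `H r s z = κ_r (κ_r⁻¹ z + s) - z - s` that are used. -/
structure IsBump (η : ℝ) (θ : ℝ → ℝ) (H : ℝ → ℝ → ℝ → ℝ) : Prop where
  smooth : ∀ r s, ContDiff ℝ ∞ (H r s)
  eq : ∀ r s z, H r s (kap η θ r z) = kap η θ r (z + s) - kap η θ r z - s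
  supp : ∀ r s z, |s| ≤ 1 / 16 → (z ≤ 1 / 8 ∨ 7 / 8 ≤ z) → H r s z = 0
  deriv_gt : ∀ r s z, -1 < deriv (H r s) z
  small : ∀ R : ℕ, ∃ C : ℝ, 0 ≤ C ∧ ∀ s, |s| ≤ 1 / 16 → ∀ i ≤ R, ∀ z,
    |iteratedDeriv i (H 0 s) z| ≤ C * |s|
  approx : ∀ (R : ℕ) (s : ℝ), |s| ≤ 1 / 16 → ∀ ε : ℝ, 0 < ε → ∃ r : ℝ, 0 ≤ Real.cos r ∧
    Real.cos r < 1 ∧ ∀ i ≤ R, ∀ z, |iteratedDeriv i (H r s) z - iteratedDeriv i (H 0 s) z| ≤ ε

private theorem HBump_kap_id {η : ℝ} {θ : ℝ → ℝ} (hθ : IsProfile θ) (r : ℝ) {z : ℝ}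
    (hz : z ≤ 1 / 4 ∨ 3 / 4 ≤ z) : kap η θ r z = z := by
  unfold kap
  rcases hz with hz | hz
  · rw [hθ.left z hz, mul_zero, add_zero]
  · rw [hθ.right z hz, mul_zero, add_zero]

private theorem HBump_kap_smooth {η : ℝ} {θ : ℝ → ℝ} (hθ : IsProfile θ) :
    ContDiff ℝ ∞ (fun q : ℝ × ℝ => kap η θ q.1 q.2) := by
  unfold kap
  exact contDiff_snd.add ((contDiff_const.mul (Real.contDiff_cos.comp contDiff_fst)).mul
    (hθ.smooth.comp contDiff_snd))

private theorem HBump_kap_deriv {η : ℝ} {θ : ℝ → ℝ} (hη : 0 < η) (hη1 : η < 1)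
    (hθ : IsProfile θ) (r x : ℝ) : ∃ d : ℝ, 0 < d ∧ HasDerivAt (kap η θ r) d x := by
  have h1 : HasDerivAt θ (deriv θ x) x :=
    ((hθ.smooth.differentiable (by simp)) x).hasDerivAt
  refine ⟨1 + η * Real.cos r * deriv θ x, ?_, ?_⟩
  · have h2 : |η * Real.cos r * deriv θ x| ≤ η := by
      rw [abs_mul, abs_mul, abs_of_pos hη]
      calc η * |Real.cos r| * |deriv θ x| ≤ η * 1 * 1 := by
            refine mul_le_mul (mul_le_mul_of_nonneg_left (Real.abs_cos_le_one r) hη.le)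
              (hθ.bound x) (abs_nonneg _) (by positivity)
        _ = η := by ring
    have h3 := (abs_le.1 h2).1
    linarith
  · exact (hasDerivAt_id x).add (h1.const_mul (η * Real.cos r))

/-- PROOF.  With `K` of `exists_kap_inv` put `H r s z = kap η θ r (K r z + s) - z - s`; jointly
smooth in `(r, s, z)`.  `supp`: `K r` fixes every `z ≤ 1/4` and every `z ≥ 3/4` (because `κ_r`
does), and `z + s` is still `≤ 1/4` or `≥ 3/4`.  `deriv_gt`:
`deriv (H r s) z = κ_r'(K r z + s) * K_r'(z) - 1` with both factors positive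
(`κ_r' ≥ 1 - η`, `κ_r'(K z) K'(z) = 1`).  `small`: `param_bound` for `G s z = H 0 s z`, where
`G 0 z = 0`.  `approx`: `param_bound` for `G r z = H r s z` (`s` fixed; outside `(1/8, 7/8)`
both sides are `0`), and `r > 0` small: `cos r < 1` for `0 < r < 1/16`, `cos r ≥ 0`. -/
theorem exists_bump {η : ℝ} {θ : ℝ → ℝ} (hη : 0 < η) (hη1 : η < 1) (hθ : IsProfile θ) :
    ∃ H : ℝ → ℝ → ℝ → ℝ, IsBump η θ H := by
  obtain ⟨K, hK1, hK2, hK3⟩ := exists_kap_inv hη hη1 hθ
  have hKid : ∀ r z, (z ≤ 1 / 4 ∨ 3 / 4 ≤ z) → K r z = z := by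
    intro r z hz
    have h1 := hK2 r z
    rwa [HBump_kap_id hθ r hz] at h1
  let H : ℝ → ℝ → ℝ → ℝ := fun r s z => kap η θ r (K r z + s) - z - s
  have hH0 : ∀ r s z, |s| ≤ 1 / 16 → (z ≤ 1 / 8 ∨ 7 / 8 ≤ z) → H r s z = 0 := by
    intro r s z hs hz
    have hs' := abs_le.1 hs
    have h1 : z ≤ 1 / 4 ∨ 3 / 4 ≤ z := by
      rcases hz with h | h
      · left; linarith
      · right; linarith
    have h2 : z + s ≤ 1 / 4 ∨ 3 / 4 ≤ z + s := by
      rcases hz with h | h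
      · left; linarith [hs'.2]
      · right; linarith [hs'.1]
    show kap η θ r (K r z + s) - z - s = 0
    rw [hKid r z h1, HBump_kap_id hθ r h2]
    ring
  have hHs : ∀ (f g : ℝ × ℝ → ℝ), ContDiff ℝ ∞ f → ContDiff ℝ ∞ g →
      ContDiff ℝ ∞ (fun q : ℝ × ℝ => H (f q) (g q) q.2) := by
    intro f g hf hg
    have h1 : ContDiff ℝ ∞ (fun q : ℝ × ℝ => K (f q) q.2) :=
      hK3.comp (hf.prodMk contDiff_snd)
    have h2 : ContDiff ℝ ∞ (fun q : ℝ × ℝ => kap η θ (f q) (K (f q) q.2 + g q)) :=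
      (HBump_kap_smooth hθ).comp (hf.prodMk (h1.add hg))
    exact (h2.sub contDiff_snd).sub hg
  have hKr : ∀ r, ContDiff ℝ ∞ (K r) := fun r =>
    hK3.comp ((contDiff_const : ContDiff ℝ ∞ fun _ : ℝ => r).prodMk contDiff_id)
  have hkr : ∀ r, ContDiff ℝ ∞ (kap η θ r) := fun r =>
    (HBump_kap_smooth hθ).comp ((contDiff_const : ContDiff ℝ ∞ fun _ : ℝ => r).prodMk contDiff_id)
  have hz0 : H 0 0 = fun _ => (0 : ℝ) := by
    funext z
    show kap η θ 0 (K 0 z + 0) - z - 0 = 0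
    rw [add_zero, hK1]
    ring
  refine ⟨H, ?_, ?_, hH0, ?_, ?_, ?_⟩
  · intro r s
    exact (((hkr r).comp ((hKr r).add contDiff_const)).sub contDiff_id).sub contDiff_const
  · intro r s z
    show kap η θ r (K r (kap η θ r z) + s) - kap η θ r z - s = _
    rw [hK2]
  · intro r s z
    obtain ⟨d1, hd1, h1⟩ := HBump_kap_deriv hη hη1 hθ r (K r z + s)
    obtain ⟨d2, hd2, h2⟩ := HBump_kap_deriv hη hη1 hθ r (K r z)
    have h3 : HasDerivAt (K r) (deriv (K r) z) z :=
      (((hKr r).differentiable (by simp)) z).hasDerivAt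
    have h4 : d2 * deriv (K r) z = 1 := by
      have h5 : HasDerivAt (fun y => kap η θ r (K r y)) (d2 * deriv (K r) z) z :=
        HasDerivAt.comp z h2 h3
      have h6 : (fun y => kap η θ r (K r y)) = fun y => y := by
        funext y
        exact hK1 r y
      rw [h6] at h5
      exact h5.unique (hasDerivAt_id z)
    have h7 : 0 < deriv (K r) z := by
      by_contra hcon
      push Not at hcon
      nlinarith
    have h8 : HasDerivAt (H r s) (d1 * deriv (K r) z - 1) z := by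
      have h9 : HasDerivAt (fun y => K r y + s) (deriv (K r) z) z := h3.add_const s
      have h10 : HasDerivAt (fun y => kap η θ r (K r y + s)) (d1 * deriv (K r) z) z :=
        HasDerivAt.comp (h₂ := kap η θ r) (h := fun y => K r y + s) z h1 h9
      exact (h10.sub (hasDerivAt_id z)).sub_const s
    rw [h8.deriv]
    have := mul_pos hd1 h7
    linarith
  · intro R
    obtain ⟨C, hC, h⟩ := param_bound (fun s z => H 0 s z) (hHs (fun _ => 0) (fun q => q.1)
      contDiff_const contDiff_fst) (fun s z hs hz => by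
        rw [hH0 0 s z hs hz, hH0 0 0 z (by norm_num) hz]) R
    refine ⟨C, hC, fun s hs i hi z => ?_⟩
    have h1 := h s hs i hi z
    have h2 : iteratedDeriv i (fun z => H 0 0 z) z = 0 := by
      have h3 : (fun z => H 0 0 z) = fun _ => (0 : ℝ) := hz0
      rw [h3, iteratedDeriv_const]
      split_ifs <;> rfl
    rw [h2, sub_zero] at h1
    exact h1
  · intro R s hs ε hε
    obtain ⟨C, hC, h⟩ := param_bound (fun r z => H r s z) (hHs (fun q => q.1) (fun _ => s)
      contDiff_fst contDiff_const) (fun r z _ hz => by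
        rw [hH0 r s z hs hz, hH0 0 s z hs hz]) R
    set r : ℝ := min (1 / 16) (ε / (C + 1)) with hr
    have hr0 : 0 < r := lt_min (by norm_num) (by positivity)
    have hr1 : r ≤ 1 / 16 := min_le_left _ _
    have hr2 : r ≤ ε / (C + 1) := min_le_right _ _
    have hpi := Real.pi_gt_three
    refine ⟨r, ?_, ?_, fun i hi z => ?_⟩
    · exact Real.cos_nonneg_of_mem_Icc ⟨by linarith, by linarith⟩
    · refine lt_of_le_of_ne (Real.cos_le_one r) fun hc => ?_
      rw [Real.cos_eq_one_iff_of_lt_of_lt (by linarith) (by linarith)] at hc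
      exact hr0.ne' hc
    · refine (h r (by rw [abs_of_pos hr0]; exact hr1) i hi z).trans ?_
      rw [abs_of_pos hr0]
      calc C * r ≤ C * (ε / (C + 1)) := mul_le_mul_of_nonneg_left hr2 hC
        _ ≤ ε := by
          rw [mul_div_assoc', div_le_iff₀ (by linarith)]
          nlinarith

end Pool.Agent.W_ef8234_h97
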