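import Mathlib
import Pool.Agent.W_ef8234_h97.Iem
import Pool.Agent.W_ef8234_h97.HBump

/-! # The conjugacies `k = id + Σ bumps on the levels of a cylinder` -/

namespace Pool.Agent.W_ef8234_h97

open scoped ContDiff

variable {d : ℕ}

/-- The conjugacy: a bump `w * (η cos r) * θ` on each of the `q` levels `(x i, x i + w)`. -/
noncomputable def kk (η : ℝ) (θ : ℝ → ℝ) (x : ℕ → ℝ) (q : ℕ) (w r : ℝ) (y : ℝ) : ℝ :=
  y + ∑ i ∈ Finset.range q, w * (η * Real.cos r) * θ ((y - x i) / w)

variable {p : Equiv.Perm (Fin d)} {l : Fin d → ℝ} {x : ℕ → ℝ} {q : ℕ} {w s η r : ℝ}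
  {θ : ℝ → ℝ} {H : ℝ → ℝ → ℝ → ℝ}

private theorem Kk_theta_off (hθ : IsProfile θ) (z : ℝ) (hz : z ≤ 0 ∨ 1 ≤ z) :
    θ z = 0 ∧ deriv θ z = 0 := by
  constructor
  · rcases hz with h | h
    · exact hθ.left z (by linarith)
    · exact hθ.right z (by linarith)
  · have h1 : θ =ᶠ[nhds z] fun _ => (0 : ℝ) := by
      rcases hz with h | h
      · filter_upwards [Iio_mem_nhds (show z < 1 / 4 by linarith)] with t ht
        exact hθ.left t (le_of_lt ht)
      · filter_upwards [Ioi_mem_nhds (show 3 / 4 < z by linarith)] with t ht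
        exact hθ.right t (le_of_lt ht)
    rw [h1.deriv_eq]
    simp

private theorem Kk_outside (hc : IsCylinder p l x q w s) (i j : ℕ) (hi : i < q) (hj : j < q)
    (hij : j ≠ i) (y : ℝ) (h0 : x i < y) (h1 : y < x i + w) :
    (y - x j) / w ≤ 0 ∨ 1 ≤ (y - x j) / w := by
  have hw := hc.w_pos
  have h2 : y ≤ x j ∨ x j + w ≤ y := by
    rcases lt_or_gt_of_ne hij with h | h
    · rcases hc.disjoint j i h hi with h3 | h3
      · right; linarith
      · left; linarith
    · rcases hc.disjoint i j h hj with h3 | h3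
      · left; linarith
      · right; linarith
  rcases h2 with h2 | h2
  · left
    exact div_nonpos_of_nonpos_of_nonneg (by linarith) hw.le
  · right
    rw [le_div_iff₀ hw]
    linarith

private theorem Kk_hasDeriv (hθ : IsProfile θ) (hw : 0 < w) (y : ℝ) :
    HasDerivAt (kk η θ x q w r)
      (1 + ∑ i ∈ Finset.range q, η * Real.cos r * deriv θ ((y - x i) / w)) y := by
  have h1 : ∀ i ∈ Finset.range q, HasDerivAt (fun y => w * (η * Real.cos r) * θ ((y - x i) / w))
      (η * Real.cos r * deriv θ ((y - x i) / w)) y := by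
    intro i _
    have h2 : HasDerivAt θ (deriv θ ((y - x i) / w)) ((y - x i) / w) :=
      ((hθ.smooth.differentiable (by simp)) _).hasDerivAt
    have h3 : HasDerivAt (fun y => (y - x i) / w) (1 / w) y :=
      ((hasDerivAt_id y).sub_const (x i)).div_const w
    have h4 : HasDerivAt (fun y => θ ((y - x i) / w)) (deriv θ ((y - x i) / w) * (1 / w)) y :=
      HasDerivAt.comp (h₂ := θ) (h := fun y => (y - x i) / w) y h2 h3
    have h5 := h4.const_mul (w * (η * Real.cos r))
    have h6 : w * (η * Real.cos r) * (deriv θ ((y - x i) / w) * (1 / w)) =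
        η * Real.cos r * deriv θ ((y - x i) / w) := by
      field_simp
    rw [h6] at h5
    exact h5
  have h2 := HasDerivAt.fun_sum h1
  exact (hasDerivAt_id y).add h2

/-- PROOF.  Finite sum of smooth functions; the derivative at `y` is
`1 + ∑ i < q, η cos r * deriv θ ((y - x i) / w)`, at most one term is nonzero (the intervals
`(x i, x i + w)` are disjoint and `deriv θ` vanishes outside `[1/4, 3/4]`). -/
theorem kk_deriv (hη : 0 < η) (hθ : IsProfile θ) (hc : IsCylinder p l x q w s) :
    ContDiff ℝ ∞ (kk η θ x q w r) ∧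
      ∀ y, |deriv (kk η θ x q w r) y - 1| ≤ η * |Real.cos r| := by
  refine ⟨?_, fun y => ?_⟩
  · unfold kk
    apply contDiff_id.add
    apply ContDiff.sum
    intro i _
    exact contDiff_const.mul (hθ.smooth.comp ((contDiff_id.sub contDiff_const).div_const w))
  · rw [(Kk_hasDeriv hθ hc.w_pos y).deriv, add_sub_cancel_left]
    by_cases hex : ∃ i, i < q ∧ x i < y ∧ y < x i + w
    · obtain ⟨i, hi, h0, h1⟩ := hex
      rw [Finset.sum_eq_single i]
      · rw [abs_mul, abs_mul, abs_of_pos hη]
        calc η * |Real.cos r| * |deriv θ ((y - x i) / w)| ≤ η * |Real.cos r| * 1 :=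
              mul_le_mul_of_nonneg_left (hθ.bound _) (by positivity)
          _ = η * |Real.cos r| := by ring
      · intro j hj hji
        rw [(Kk_theta_off hθ _ (Kk_outside hc i j hi (Finset.mem_range.1 hj) hji y h0 h1)).2,
          mul_zero]
      · intro h
        exact absurd (Finset.mem_range.2 hi) h
    · rw [Finset.sum_eq_zero]
      · rw [abs_zero]
        positivity
      · intro i hi
        have hw := hc.w_pos
        have h2 : (y - x i) / w ≤ 0 ∨ 1 ≤ (y - x i) / w := by
          by_cases h3 : x i < y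
          · right
            rw [le_div_iff₀ hw]
            by_contra h4
            exact hex ⟨i, Finset.mem_range.1 hi, h3, by linarith⟩
          · left
            exact div_nonpos_of_nonpos_of_nonneg (by linarith) hw.le
        rw [(Kk_theta_off hθ _ h2).2, mul_zero]

/-- PROOF.  Only the term `i` of the sum is nonzero near such a point. -/
theorem kk_level (hθ : IsProfile θ) (hc : IsCylinder p l x q w s) (i : ℕ) (hi : i < q) (z : ℝ)
    (hz0 : 0 < z) (hz1 : z < 1) :
    kk η θ x q w r (x i + w * z) = x i + w * kap η θ r z ∧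
      deriv (kk η θ x q w r) (x i + w * z) = 1 + η * Real.cos r * deriv θ z := by
  have hw := hc.w_pos
  have h0 : x i < x i + w * z := by
    have := mul_pos hw hz0
    linarith
  have h1 : x i + w * z < x i + w := by
    have := mul_lt_mul_of_pos_left hz1 hw
    linarith
  have hzz : (x i + w * z - x i) / w = z := by
    field_simp
    ring
  have hoff : ∀ j ∈ Finset.range q, j ≠ i →
      θ ((x i + w * z - x j) / w) = 0 ∧ deriv θ ((x i + w * z - x j) / w) = 0 := by
    intro j hj hji
    exact Kk_theta_off hθ _ (Kk_outside hc i j hi (Finset.mem_range.1 hj) hji _ h0 h1)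
  constructor
  · unfold kk kap
    rw [Finset.sum_eq_single i]
    · rw [hzz]
      ring
    · intro j hj hji
      rw [(hoff j hj hji).1, mul_zero]
    · intro h
      exact absurd (Finset.mem_range.2 hi) h
  · rw [(Kk_hasDeriv hθ hw _).deriv, Finset.sum_eq_single i]
    · rw [hzz]
    · intro j hj hji
      rw [(hoff j hj hji).2, mul_zero]
    · intro h
      exact absurd (Finset.mem_range.2 hi) h

/-- PROOF.  All `θ ((y - x i) / w)` vanish. -/
theorem kk_off (hθ : IsProfile θ) (hc : IsCylinder p l x q w s) (y : ℝ)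
    (hy : ∀ i < q, y ≤ x i ∨ x i + w ≤ y) : kk η θ x q w r y = y := by
  have hw := hc.w_pos
  unfold kk
  rw [Finset.sum_eq_zero, add_zero]
  intro i hi
  have h2 : (y - x i) / w ≤ 0 ∨ 1 ≤ (y - x i) / w := by
    rcases hy i (Finset.mem_range.1 hi) with h | h
    · left
      exact div_nonpos_of_nonpos_of_nonneg (by linarith) hw.le
    · right
      rw [le_div_iff₀ hw]
      linarith
  rw [(Kk_theta_off hθ _ h2).1, mul_zero]

/-- PROOF.  `κ_r` is strictly increasing and fixes `0` and `1`. -/
theorem kap_mem (hη : 0 < η) (hη1 : η < 1) (hθ : IsProfile θ) (z : ℝ) (hz0 : 0 < z)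
    (hz1 : z < 1) : 0 < kap η θ r z ∧ kap η θ r z < 1 := by
  have hmono : StrictMono (kap η θ r) := by
    apply strictMono_of_deriv_pos
    intro t
    have h1 : HasDerivAt θ (deriv θ t) t :=
      ((hθ.smooth.differentiable (by simp)) t).hasDerivAt
    have h2 : HasDerivAt (kap η θ r) (1 + η * Real.cos r * deriv θ t) t :=
      (hasDerivAt_id t).add (h1.const_mul (η * Real.cos r))
    rw [h2.deriv]
    have h3 : |η * Real.cos r * deriv θ t| ≤ η := by
      rw [abs_mul, abs_mul, abs_of_pos hη]
      calc η * |Real.cos r| * |deriv θ t| ≤ η * 1 * 1 := by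
            refine mul_le_mul (mul_le_mul_of_nonneg_left (Real.abs_cos_le_one r) hη.le)
              (hθ.bound t) (abs_nonneg _) (by positivity)
        _ = η := by ring
    have h4 := (abs_le.1 h3).1
    linarith
  have h0 : kap η θ r 0 = 0 := by
    unfold kap
    rw [hθ.left 0 (by norm_num)]
    ring
  have h1 : kap η θ r 1 = 1 := by
    unfold kap
    rw [hθ.right 1 (by norm_num)]
    ring
  constructor
  · have := hmono hz0
    rwa [h0] at this
  · have := hmono hz1
    rwa [h1] at this

/-- PROOF.  If `y = x i + w z` with `0 < z < 1` and `i < q` then `y` and `kk y` both lie in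
`(x i, x i + w)`, contained in a cell (`kk_level`, `kap_mem`).  Otherwise `kk y = y`
(`kk_off`). -/
theorem kk_dom (hη : 0 < η) (hη1 : η < 1) (hθ : IsProfile θ) (hc : IsCylinder p l x q w s)
    (y : ℝ) : y ∈ dom l ↔ kk η θ x q w r y ∈ dom l := by
  have hw := hc.w_pos
  by_cases hex : ∃ i, i < q ∧ x i < y ∧ y < x i + w
  · obtain ⟨i, hi, h0, h1⟩ := hex
    obtain ⟨a, ha1, ha2, _⟩ := hc.inside i hi
    obtain ⟨z, hz⟩ : ∃ z, z = (y - x i) / w := ⟨_, rfl⟩
    have hyz : y = x i + w * z := by
      rw [hz]
      field_simp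
      ring
    have hz0 : 0 < z := by
      rw [hz]
      exact div_pos (by linarith) hw
    have hz1 : z < 1 := by
      rw [hz, div_lt_one hw]
      linarith
    have hk := (kk_level (η := η) (r := r) hθ hc i hi z hz0 hz1).1
    obtain ⟨hm0, hm1⟩ := kap_mem (r := r) hη hη1 hθ z hz0 hz1
    have hin : ∀ t : ℝ, 0 < t → t < 1 → x i + w * t ∈ dom l := by
      intro t ht0 ht1
      apply Set.mem_iUnion.2
      refine ⟨a, ?_, ?_⟩
      · have := mul_pos hw ht0
        linarith
      · have := mul_lt_mul_of_pos_left ht1 hw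
        linarith
    rw [hyz, hk]
    exact ⟨fun _ => hin _ hm0 hm1, fun _ => hin _ hz0 hz1⟩
  · have : kk η θ x q w r y = y := by
      apply kk_off hθ hc
      intro i hi
      by_contra h
      push Not at h
      exact hex ⟨i, hi, h.1, h.2⟩
    rw [this]

end Pool.Agent.W_ef8234_h97
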