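import Mathlib
import Pool.Agent.W_ef8234_h97.Kk

/-! # The conjugacy relation and membership -/

namespace Pool.Agent.W_ef8234_h97

open scoped ContDiff

variable {d : ℕ}

variable {p : Equiv.Perm (Fin d)} {l : Fin d → ℝ} {x : ℕ → ℝ} {q : ℕ} {w s η r : ℝ}
  {θ : ℝ → ℝ} {H : ℝ → ℝ → ℝ → ℝ}

private theorem Mem_theta (hθ : IsProfile θ) (z : ℝ) (hz : z ≤ 1 / 4 ∨ 3 / 4 ≤ z) : θ z = 0 := by
  rcases hz with h | h
  · exact hθ.left z h
  · exact hθ.right z h

private theorem Mem_iem_level (hl : ∀ i, 0 < l i) (hc : IsCylinder p l x q w s) (i : ℕ)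
    (hi : i < q) (y : ℝ) (h0 : x i < y) (h1 : y < x i + w) :
    y ∈ dom l ∧
      iem p l y = y + ((if i + 1 < q then x (i + 1) else x 0 + s) - x i) := by
  obtain ⟨a, ha1, ha2, ha3⟩ := hc.inside i hi
  have hy : y ∈ cell l a := ⟨by linarith, by linarith⟩
  refine ⟨Set.mem_iUnion.2 ⟨a, hy⟩, ?_⟩
  rw [iem_cell p l hl a y hy, ← ha3]
  ring

private theorem Mem_back (hl : ∀ i, 0 < l i) (hc : IsCylinder p l x q w s)
    (hs : |s / w| ≤ 1 / 16) (y : ℝ) (hy : y ∈ dom l) (j : ℕ) (hj : j < q)
    (h0 : 1 / 4 < (iem p l y - x j) / w) (h1 : (iem p l y - x j) / w < 3 / 4) :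
    ∃ i < q, x i < y ∧ y < x i + w ∧ (j ≠ 0 → i + 1 < q) := by
  have hw := hc.w_pos
  rw [lt_div_iff₀ hw] at h0
  rw [div_lt_iff₀ hw] at h1
  have hq := hc.q_pos
  have hs' : -(1 / 16 * w) ≤ s ∧ s ≤ 1 / 16 * w := by
    rw [abs_le] at hs
    constructor
    · have := hs.1
      rw [le_div_iff₀ hw] at this
      linarith
    · have := hs.2
      rw [div_le_iff₀ hw] at this
      linarith
  rcases Nat.eq_zero_or_pos j with hj0 | hj0
  · subst hj0
    have hlt : q - 1 < q := by omega
    obtain ⟨y', hy'⟩ : ∃ y', y' = iem p l y - (x 0 + s) + x (q - 1) := ⟨_, rfl⟩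
    have e0 : x (q - 1) < y' := by
      rw [hy']
      nlinarith [hs'.1, hs'.2]
    have e1 : y' < x (q - 1) + w := by
      rw [hy']
      nlinarith [hs'.1, hs'.2]
    obtain ⟨m1, m2⟩ := Mem_iem_level hl hc (q - 1) hlt y' e0 e1
    rw [if_neg (show ¬ (q - 1 + 1 < q) by omega)] at m2
    have heq : y' = y := by
      apply iem_injOn p l hl m1 hy
      rw [m2, hy']
      ring
    rw [heq] at e0 e1
    exact ⟨q - 1, hlt, e0, e1, fun h => absurd rfl h⟩
  · obtain ⟨i, rfl⟩ : ∃ i, j = i + 1 := ⟨j - 1, by omega⟩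
    obtain ⟨y', hy'⟩ : ∃ y', y' = iem p l y - x (i + 1) + x i := ⟨_, rfl⟩
    have e0 : x i < y' := by
      rw [hy']
      nlinarith
    have e1 : y' < x i + w := by
      rw [hy']
      nlinarith
    obtain ⟨m1, m2⟩ := Mem_iem_level hl hc i (by omega) y' e0 e1
    rw [if_pos hj] at m2
    have heq : y' = y := by
      apply iem_injOn p l hl m1 hy
      rw [m2, hy']
      ring
    rw [heq] at e0 e1
    exact ⟨i, by omega, e0, e1, fun _ => hj⟩

private theorem Mem_level_unique (hc : IsCylinder p l x q w s) (i j : ℕ) (hi : i < q)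
    (hj : j < q) (y : ℝ) (h0 : x i < y) (h1 : y < x i + w) (h2 : x j < y) (h3 : y < x j + w) :
    i = j := by
  rcases lt_trichotomy i j with h | h | h
  · rcases hc.disjoint i j h hj with h4 | h4
    · linarith
    · linarith
  · exact h
  · rcases hc.disjoint j i h hi with h4 | h4
    · linarith
    · linarith

private theorem Mem_supp (hH : IsBump η θ H) (hw : 0 < w) (hs : |s / w| ≤ 1 / 16) (c y : ℝ)
    (h : y ≤ c ∨ c + w ≤ y) : H r (s / w) ((y - c) / w) = 0 := by
  apply hH.supp _ _ _ hs
  rcases h with h | h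
  · left
    have : (y - c) / w ≤ 0 := div_nonpos_of_nonpos_of_nonneg (by linarith) hw.le
    linarith
  · right
    have : 1 ≤ (y - c) / w := by
      rw [le_div_iff₀ hw]
      linarith
    linarith

private theorem Mem_top_nonneg (l : Fin d → ℝ) (hl : ∀ i, 0 < l i) (a : Fin d) :
    0 ≤ top l a := by
  unfold top
  apply Finset.sum_nonneg
  intro i _
  split_ifs
  · exact (hl i).le
  · exact le_refl _

private theorem Mem_top_tot (l : Fin d → ℝ) (hl : ∀ i, 0 < l i) (a : Fin d) :
    top l a + l a ≤ tot l := by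
  unfold top tot
  have h1 : l a = ∑ i, if i = a then l i else 0 := by
    rw [Finset.sum_ite_eq' Finset.univ a l, if_pos (Finset.mem_univ a)]
  rw [h1, ← Finset.sum_add_distrib]
  apply Finset.sum_le_sum
  intro i _
  by_cases h2 : i = a
  · subst h2
    simp
  · rw [if_neg h2, add_zero]
    split_ifs
    · exact le_refl _
    · exact (hl i).le

/-- PROOF.  Case 1: `y ∉ (x i, x i + w)` for all `i < q`.  Then `kk y = y` (`kk_off`) and
`F y = 0` (`hF`, `IsBump.supp`, since `(y - x (q-1)) / w ≤ 0` or `≥ 1`), and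
`kk (iem y) = iem y`: otherwise `θ ((iem y - x j) / w) ≠ 0` for some `j < q`, so
`iem y ∈ (x j + w/4, x j + 3w/4)`; if `j ≥ 1` then `iem y = iem y'` with
`y' = y - shift ∈ (x (j-1), x (j-1) + w)`, and if `j = 0` then, as `|s| ≤ w/16`,
`iem y = iem y'` with `y' ∈ (x (q-1), x (q-1) + w)`; by injectivity `y = y'`: contradiction.
Case 2: `y = x i + w z`, `0 < z < 1`, `i + 1 < q`: `iem y = x (i+1) + w z`, so
`kk (iem y) = x (i+1) + w κ z`; `kk y = x i + w κ z` (in the same cell), `iem (kk y) =
x (i+1) + w κ z`, and `F (kk y) = 0` because `kk y ∉ (x (q-1), x (q-1) + w)`.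
Case 3: `i = q - 1`: `iem y = x 0 + s + w z = x 0 + w (z + s/w)`; all terms `j ≥ 1` of the sum
in `kk (iem y)` vanish (as in case 1: otherwise `y ∈ (x (j-1), x (j-1) + w)` which is disjoint
from level `q - 1`), so `kk (iem y) = x 0 + w κ (z + s/w)`; and
`iem (kk y) + F (kk y) = x 0 + s + w κ z + w (κ (z + s/w) - κ z - s/w)`. -/
theorem kk_rel (hl : ∀ i, 0 < l i) (hη : 0 < η) (hη1 : η < 1) (hθ : IsProfile θ)
    (hH : IsBump η θ H) (hc : IsCylinder p l x q w s) (hs : |s / w| ≤ 1 / 16) (F : ℝ → ℝ)
    (hF : ∀ y, F y = w * H r (s / w) ((y - x (q - 1)) / w)) (y : ℝ) (hy : y ∈ dom l) :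
    kk η θ x q w r (iem p l y) = iem p l (kk η θ x q w r y) + F (kk η θ x q w r y) := by
  have hw := hc.w_pos
  have hq := hc.q_pos
  by_cases hex : ∃ i, i < q ∧ x i < y ∧ y < x i + w
  · obtain ⟨i, hi, h0, h1⟩ := hex
    obtain ⟨z, hz⟩ : ∃ z, z = (y - x i) / w := ⟨_, rfl⟩
    have hyz : y = x i + w * z := by
      rw [hz]
      field_simp
      ring
    have hz0 : 0 < z := by
      rw [hz]
      exact div_pos (by linarith) hw
    have hz1 : z < 1 := by
      rw [hz, div_lt_one hw]
      linarith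
    have hk := (kk_level (η := η) (r := r) hθ hc i hi z hz0 hz1).1
    obtain ⟨hm0, hm1⟩ := kap_mem (r := r) hη hη1 hθ z hz0 hz1
    obtain ⟨_, hiem⟩ := Mem_iem_level hl hc i hi y h0 h1
    have hk0 : x i < x i + w * kap η θ r z := by
      have := mul_pos hw hm0
      linarith
    have hk1 : x i + w * kap η θ r z < x i + w := by
      have := mul_lt_mul_of_pos_left hm1 hw
      linarith
    obtain ⟨_, hiemk⟩ := Mem_iem_level hl hc i hi _ hk0 hk1
    by_cases hlast : i + 1 < q
    · rw [if_pos hlast] at hiem hiemk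
      have hky : kk η θ x q w r y = x i + w * kap η θ r z := by
        rw [hyz]
        exact hk
      have hiy : iem p l y = x (i + 1) + w * z := by
        rw [hiem]
        linarith
      have hk2 := (kk_level (η := η) (r := r) hθ hc (i + 1) hlast z hz0 hz1).1
      rw [hiy, hk2, hky, hiemk, hF]
      have hne : i ≠ q - 1 := by omega
      have hout : x i + w * kap η θ r z ≤ x (q - 1) ∨
          x (q - 1) + w ≤ x i + w * kap η θ r z := by
        by_contra hcon
        push Not at hcon
        exact hne (Mem_level_unique hc i (q - 1) hi (by omega) _ hk0 hk1 hcon.1 hcon.2)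
      rw [Mem_supp hH hw hs _ _ hout]
      ring
    · have hiq : i = q - 1 := by omega
      rw [if_neg hlast] at hiem hiemk
      have hky : kk η θ x q w r y = x i + w * kap η θ r z := by
        rw [hyz]
        exact hk
      have hiy : iem p l y = x 0 + s + w * z := by
        rw [hiem]
        linarith
      have hkk : kk η θ x q w r (iem p l y) =
          iem p l y + w * (η * Real.cos r) * θ ((iem p l y - x 0) / w) := by
        unfold kk
        rw [Finset.sum_eq_single 0]
        · intro j hj hj0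
          rw [Mem_theta hθ, mul_zero]
          by_contra hcon
          push Not at hcon
          obtain ⟨i', hi', e0, e1, e2⟩ :=
            Mem_back hl hc hs y hy j (Finset.mem_range.1 hj) hcon.1 hcon.2
          have := Mem_level_unique hc i i' hi hi' y h0 h1 e0 e1
          have := e2 hj0
          omega
        · intro h
          exact absurd (Finset.mem_range.2 (by omega)) h
      rw [hkk, hky, hiemk, hF, ← hiq]
      have hq1 : (x i + w * kap η θ r z - x i) / w = kap η θ r z := by
        field_simp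
        ring
      have hq2 : (iem p l y - x 0) / w = z + s / w := by
        rw [hiy]
        field_simp
        ring
      rw [hq1, hq2, hH.eq, hiy]
      unfold kap
      field_simp
      ring
  · have hk : kk η θ x q w r y = y := by
      apply kk_off hθ hc
      intro i hi
      by_contra h
      push Not at h
      exact hex ⟨i, hi, h.1, h.2⟩
    have hk2 : kk η θ x q w r (iem p l y) = iem p l y := by
      unfold kk
      rw [Finset.sum_eq_zero, add_zero]
      intro j hj
      rw [Mem_theta hθ, mul_zero]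
      by_contra hcon
      push Not at hcon
      obtain ⟨i', hi', e0, e1, _⟩ :=
        Mem_back hl hc hs y hy j (Finset.mem_range.1 hj) hcon.1 hcon.2
      exact hex ⟨i', hi', e0, e1⟩
    rw [hk, hk2, hF]
    have hout : y ≤ x (q - 1) ∨ x (q - 1) + w ≤ y := by
      by_contra hcon
      push Not at hcon
      exact hex ⟨q - 1, by omega, hcon.1, hcon.2⟩
    rw [Mem_supp hH hw hs _ _ hout]
    ring

/-- PROOF.  `h = kk η θ x q w r`: `kk_deriv` (with `cos r < 1`, `η |cos r| < η`), `kk_off` at
the two endpoints (`0 ≤ x i`, `x i + w ≤ tot l`), `kk_dom`, `kk_rel`.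
`-1 < deriv (disp g) x`: `deriv (disp g) y = deriv (H r (s/w)) ((y - x (q-1)) / w)`. -/
theorem mem_conjClass (R : ℕ) (hl : ∀ i, 0 < l i) (hη : 0 < η) (hη1 : η < 1)
    (hθ : IsProfile θ) (hH : IsBump η θ H) (hc : IsCylinder p l x q w s)
    (hs : |s / w| ≤ 1 / 16) (hr0 : 0 ≤ Real.cos r) (hr1 : Real.cos r < 1) (g : Disp R l)
    (hg : ∀ y, disp g y = w * H r (s / w) ((y - x (q - 1)) / w)) :
    g ∈ ConjClass R p l η := by
  have hw := hc.w_pos
  have hq := hc.q_pos
  have hlev : ∀ i < q, 0 ≤ x i ∧ x i + w ≤ tot l := by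
    intro i hi
    obtain ⟨a, ha1, ha2, _⟩ := hc.inside i hi
    have h1 := Mem_top_nonneg l hl a
    have h2 := Mem_top_tot l hl a
    exact ⟨by linarith, by linarith⟩
  have htot : 0 < tot l := by
    have := hlev 0 (by omega)
    linarith [this.1, this.2]
  refine ⟨fun y => ?_, kk η θ x q w r, ?_, ?_, ?_, ?_, ?_, ?_⟩
  · have h1 : disp g = fun y => w * H r (s / w) ((y - x (q - 1)) / w) := funext hg
    have h2 : HasDerivAt (H r (s / w)) (deriv (H r (s / w)) ((y - x (q - 1)) / w))
        ((y - x (q - 1)) / w) :=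
      (((hH.smooth r (s / w)).differentiable (by simp)) _).hasDerivAt
    have h3 : HasDerivAt (fun y => (y - x (q - 1)) / w) (1 / w) y :=
      ((hasDerivAt_id y).sub_const (x (q - 1))).div_const w
    have h4 : HasDerivAt (fun y => H r (s / w) ((y - x (q - 1)) / w))
        (deriv (H r (s / w)) ((y - x (q - 1)) / w) * (1 / w)) y :=
      HasDerivAt.comp (h₂ := H r (s / w)) (h := fun y => (y - x (q - 1)) / w) y h2 h3
    have h5 := h4.const_mul w
    rw [h1, h5.deriv]
    have h6 : w * (deriv (H r (s / w)) ((y - x (q - 1)) / w) * (1 / w)) =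
        deriv (H r (s / w)) ((y - x (q - 1)) / w) := by
      field_simp
    rw [h6]
    exact hH.deriv_gt _ _ _
  · exact ((kk_deriv (r := r) hη hθ hc).1.of_le (by simp)).contDiffOn
  · apply kk_off hθ hc
    intro i hi
    left
    exact (hlev i hi).1
  · apply kk_off hθ hc
    intro i hi
    right
    exact (hlev i hi).2
  · intro y hy
    have h1 : derivWithin (kk η θ x q w r) (Set.Icc 0 (tot l)) y =
        deriv (kk η θ x q w r) y := by
      apply DifferentiableAt.derivWithin
      · exact ((kk_deriv (r := r) hη hθ hc).1.differentiable (by simp)) y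
      · exact uniqueDiffOn_Icc htot y hy
    rw [h1]
    have h2 := (kk_deriv (r := r) hη hθ hc).2 y
    rw [abs_of_nonneg hr0] at h2
    have h3 : η * Real.cos r < η * 1 := mul_lt_mul_of_pos_left hr1 hη
    linarith
  · intro y _
    exact kk_dom hη hη1 hθ hc y
  · intro y hy
    exact kk_rel hl hη hη1 hθ hH hc hs (disp g) hg y hy

end Pool.Agent.W_ef8234_h97
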