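import Mathlib
import Pool.Agent.W_ef8234_h97.Iem

/-! # Orbits around a cylinder -/

namespace Pool.Agent.W_ef8234_h97

variable {d : ℕ}

variable {p : Equiv.Perm (Fin d)} {l : Fin d → ℝ} {x : ℕ → ℝ} {q : ℕ} {w s : ℝ}

theorem turn_level (hl : ∀ i, 0 < l i) (hc : IsCylinder p l x q w s) (z : ℝ) (hz0 : 0 < z)
    (hz1 : z < 1) (i : ℕ) (hi : i < q) :
    x i + w * z ∈ dom l ∧
      iem p l (x i + w * z) = (if i + 1 < q then x (i + 1) else x 0 + s) + w * z := by
  obtain ⟨a, h1, h2, h3⟩ := hc.inside i hi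
  have hw := hc.w_pos
  have hwz : 0 < w * z := mul_pos hw hz0
  have hwz1 : w * z < w := by
    have := mul_lt_mul_of_pos_left hz1 hw
    rwa [mul_one] at this
  have hcell : x i + w * z ∈ cell l a := ⟨by linarith, by linarith⟩
  refine ⟨Set.mem_iUnion.2 ⟨a, hcell⟩, ?_⟩
  rw [iem_cell p l hl a _ hcell, ← h3]
  ring

theorem turn_iter (hl : ∀ i, 0 < l i) (hc : IsCylinder p l x q w s) (z : ℝ) (hz0 : 0 < z)
    (hz1 : z < 1) (i : ℕ) (hi : i < q) :
    (iem p l)^[i] (x 0 + w * z) = x i + w * z := by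
  induction i with
  | zero => rfl
  | succ i ih =>
    rw [Function.iterate_succ_apply', ih (by omega),
      (turn_level hl hc z hz0 hz1 i (by omega)).2, if_pos hi]

/-- One turn around the cylinder.  PROOF.  By induction on `i < q`: `iem^[i] (x 0 + w z) =
x i + w z`, which is in the cell of level `i`; the last step gives `x 0 + s + w z`. -/
theorem turn (hl : ∀ i, 0 < l i) (hc : IsCylinder p l x q w s) (z : ℝ) (hz0 : 0 < z)
    (hz1 : z < 1) :
    (∀ i < q, (iem p l)^[i] (x 0 + w * z) ∈ dom l) ∧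
      (iem p l)^[q] (x 0 + w * z) = x 0 + w * (z + s / w) := by
  refine ⟨fun i hi => ?_, ?_⟩
  · rw [turn_iter hl hc z hz0 hz1 i hi]
    exact (turn_level hl hc z hz0 hz1 i hi).1
  · have hq := hc.q_pos
    obtain ⟨m, rfl⟩ : ∃ m, q = m + 1 := ⟨q - 1, by omega⟩
    rw [Function.iterate_succ_apply', turn_iter hl hc z hz0 hz1 m (by omega),
      (turn_level hl hc z hz0 hz1 m (by omega)).2, if_neg (by omega)]
    have hw := hc.w_pos.ne'
    field_simp
    ring

/-- `m` turns around the cylinder.  PROOF.  Induction on `m` with `turn`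
(`Function.iterate_add_apply`; for `i < (m+1) q` write `i = j + m q`, `j < q`, or
`i < m q`). -/
theorem turns (hl : ∀ i, 0 < l i) (hc : IsCylinder p l x q w s) (z : ℝ) (m : ℕ)
    (hz : ∀ j < m, 0 < z + j * (s / w) ∧ z + j * (s / w) < 1) :
    (∀ i < m * q, (iem p l)^[i] (x 0 + w * z) ∈ dom l) ∧
      (iem p l)^[m * q] (x 0 + w * z) = x 0 + w * (z + m * (s / w)) := by
  induction m with
  | zero =>
    refine ⟨fun i hi => ?_, ?_⟩
    · simp at hi
    · simp
  | succ m ih =>
    obtain ⟨h1, h2⟩ := ih (fun j hj => hz j (by omega))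
    obtain ⟨h3, h4⟩ := turn hl hc (z + m * (s / w)) (hz m (by omega)).1 (hz m (by omega)).2
    refine ⟨fun i hi => ?_, ?_⟩
    · by_cases him : i < m * q
      · exact h1 i him
      · have hmq : (m + 1) * q = m * q + q := by ring
        have hi' : i = (i - m * q) + m * q := by omega
        rw [hi', Function.iterate_add_apply, h2]
        exact h3 _ (by omega)
    · have hmq : (m + 1) * q = q + m * q := by ring
      rw [hmq, Function.iterate_add_apply, h2, h4]
      push_cast
      ring

end Pool.Agent.W_ef8234_h97
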