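import Mathlib
import Pool.Agent.W_ef8234_h97.Mem
import Pool.Agent.W_ef8234_h97.Turn
import Pool.Agent.W_ef8234_h97.Dist

/-! # At `r = 0` the deformation has no conjugacy with `|h' - 1| < η` -/

namespace Pool.Agent.W_ef8234_h97

open scoped ContDiff

variable {d : ℕ}

variable {p : Equiv.Perm (Fin d)} {l : Fin d → ℝ} {x : ℕ → ℝ} {q : ℕ} {w s η r : ℝ}
  {θ : ℝ → ℝ} {H : ℝ → ℝ → ℝ → ℝ}

/-- The number of turns. -/
theorem notMem_steps (σ : ℝ) (hσ0 : σ ≠ 0) (hσ : |σ| ≤ 1 / 32) (z : ℝ) (hz0 : 3 / 8 ≤ z)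
    (hz1 : z ≤ 5 / 8) (e : ℝ) (he : e = z + 1 / 4 ∧ 0 < σ ∨ e = z - 1 / 4 ∧ σ < 0)
    (he0 : 3 / 8 ≤ e) (he1 : e ≤ 5 / 8) :
    ∃ m : ℕ, (∀ j < m, 0 < z + j * σ ∧ z + j * σ < 1) ∧ |z + m * σ - e| ≤ 1 / 32 := by
  have hpos : 0 < |σ| := abs_pos.2 hσ0
  set m : ℕ := ⌈(1 / 4) / |σ|⌉₊ with hm
  have hm1 : (1 / 4) / |σ| ≤ m := Nat.le_ceil _
  have hm2 : (m : ℝ) < (1 / 4) / |σ| + 1 := Nat.ceil_lt_add_one (by positivity)
  have hm3 : 1 / 4 ≤ m * |σ| := by
    rwa [div_le_iff₀ hpos] at hm1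
  have hm4 : m * |σ| < 1 / 4 + |σ| := by
    have := mul_lt_mul_of_pos_right hm2 hpos
    have h5 : ((1 / 4) / |σ| + 1) * |σ| = 1 / 4 + |σ| := by
      field_simp
    linarith
  have hj : ∀ j : ℕ, j < m → (j : ℝ) * |σ| < 1 / 4 + |σ| := fun j hjm => by
    have : (j : ℝ) * |σ| ≤ m * |σ| :=
      mul_le_mul_of_nonneg_right (by exact_mod_cast hjm.le) hpos.le
    linarith
  have hj0 : ∀ j : ℕ, 0 ≤ (j : ℝ) * |σ| := fun j => by positivity
  refine ⟨m, fun j hjm => ?_, ?_⟩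
  · have h1 := hj j hjm
    have h2 := hj0 j
    rcases he with ⟨he, hs⟩ | ⟨he, hs⟩
    · rw [abs_of_pos hs] at h1 h2 hσ
      constructor <;> linarith
    · rw [abs_of_neg hs] at h1 h2 hσ
      constructor <;> linarith
  · rw [abs_le]
    rcases he with ⟨he, hs⟩ | ⟨he, hs⟩
    · rw [abs_of_pos hs] at hm3 hm4 hσ
      constructor <;> linarith
    · rw [abs_of_neg hs] at hm3 hm4 hσ
      constructor <;> linarith

/-- PROOF.  Suppose `g ∈ ConjClass` with conjugacy `h`; let `k = kk η θ x q w 0`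
(`kk_deriv`, `kk_dom`, `kk_rel` with `cos 0 = 1`; `deriv k > 0` as `η < 1`).  Put
`σ = s / w`, `0 < |σ| ≤ 1/32`.  If `σ > 0` start at `z = 3/8`: there is `m` with
`|3/8 + m σ - 5/8| ≤ 1/32` and `3/8 + j σ ∈ (0, 1)` for `j ≤ m` (`m = ⌈(1/4) / σ⌉₊`, then
`1/4 ≤ m σ < 1/4 + σ`).  By `turns` and `kk_level` (level 0), `deriv k` is `1 + η` at the
starting point and `1 - η` at the end.  `same_distortion` (with `n = m * q`) gives
`a, b ∈ (1 - η, 1 + η)` with `b (1 + η) = a (1 - η)`: impossible, as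
`b (1 + η) > (1 - η)(1 + η) > a (1 - η)`.  If `σ < 0` start at `5/8` and go down to `3/8`:
`b (1 - η) = a (1 + η)`: impossible as well. -/
theorem not_mem_conjClass (R : ℕ) (hR : 1 ≤ R) (hl : ∀ i, 0 < l i) (hη : 0 < η) (hη1 : η < 1)
    (hθ : IsProfile θ) (hH : IsBump η θ H) (hc : IsCylinder p l x q w s)
    (hs0 : s ≠ 0) (hs : |s / w| ≤ 1 / 32) (g : Disp R l)
    (hg : ∀ y, disp g y = w * H 0 (s / w) ((y - x (q - 1)) / w)) :
    g ∉ ConjClass R p l η := by
  rintro ⟨-, h, hh, hh0, hhL, hhη, hhdom, hhrel⟩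
  have hw := hc.w_pos
  have hq := hc.q_pos
  have hσ0 : s / w ≠ 0 := div_ne_zero hs0 hw.ne'
  obtain ⟨hksm, hkder⟩ := kk_deriv (r := 0) hη hθ hc
  have hk1 : ContDiff ℝ 1 (kk η θ x q w 0) := hksm.of_le (by exact_mod_cast le_top)
  have hkpos : ∀ y, 0 < deriv (kk η θ x q w 0) y := fun y => by
    have := hkder y
    rw [Real.cos_zero, abs_one, mul_one] at this
    have := (abs_le.1 this).1
    linarith
  have hF : Differentiable ℝ (disp g) := fun y => by
    have := g.2.1 ⟨0, hR⟩ y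
    exact this.differentiableAt
  have hkrel := fun y hy => kk_rel (r := 0) hl hη hη1 hθ hH hc (by linarith) (disp g) hg y hy
  have main : ∀ z, 3 / 8 ≤ z → z ≤ 5 / 8 → ∀ m : ℕ,
      (∀ j < m, 0 < z + j * (s / w) ∧ z + j * (s / w) < 1) →
      0 < z + m * (s / w) → z + m * (s / w) < 1 →
      ∃ a b : ℝ, |a - 1| < η ∧ |b - 1| < η ∧
        b * (1 + η * deriv θ z) = a * (1 + η * deriv θ (z + m * (s / w))) := by
    intro z hz0 hz1 m hj hm0 hm1
    obtain ⟨h1, h2⟩ := turns hl hc z m hj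
    have hy : x 0 + w * z ∈ dom l :=
      (turn_level hl hc z (by linarith) (by linarith) 0 (by omega)).1
    obtain ⟨a, b, ha, hb, hab⟩ := same_distortion hl hη1 (kk η θ x q w 0) h (disp g) hF hk1 hkpos
      (kk_dom hη hη1 hθ hc) hkrel hh hh0 hhL hhη hhdom hhrel (x 0 + w * z) (m * q) h1 hy
    refine ⟨a, b, ha, hb, ?_⟩
    rw [h2, (kk_level (r := 0) hθ hc 0 (by omega) z (by linarith) (by linarith)).2,
      (kk_level (r := 0) hθ hc 0 (by omega) _ hm0 hm1).2, Real.cos_zero, mul_one] at hab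
    exact hab
  rcases lt_or_gt_of_ne hσ0 with hneg | hpos
  · obtain ⟨m, hm1, hm2⟩ := notMem_steps (s / w) hσ0 hs (5 / 8) (by norm_num) (by norm_num)
      (3 / 8) (Or.inr ⟨by norm_num, hneg⟩) (by norm_num) (by norm_num)
    have hm3 := abs_le.1 hm2
    obtain ⟨a, b, ha, hb, hab⟩ := main (5 / 8) (by norm_num) (by norm_num) m hm1
      (by linarith [hm3.1]) (by linarith [hm3.2])
    rw [hθ.down (5 / 8) (by norm_num), hθ.up _ hm2] at hab
    have ha' := abs_lt.1 ha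
    have hb' := abs_lt.1 hb
    have e1 : b * (1 + η * -1) < (1 + η) * (1 - η) := by
      have : b * (1 - η) < (1 + η) * (1 - η) :=
        mul_lt_mul_of_pos_right (by linarith) (by linarith)
      calc b * (1 + η * -1) = b * (1 - η) := by ring
        _ < _ := this
    have e2 : (1 - η) * (1 + η) < a * (1 + η * 1) := by
      have : (1 - η) * (1 + η) < a * (1 + η) :=
        mul_lt_mul_of_pos_right (by linarith) (by linarith)
      calc (1 - η) * (1 + η) < a * (1 + η) := this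
        _ = _ := by ring
    have e3 : (1 + η) * (1 - η) = (1 - η) * (1 + η) := by ring
    linarith
  · obtain ⟨m, hm1, hm2⟩ := notMem_steps (s / w) hσ0 hs (3 / 8) (by norm_num) (by norm_num)
      (5 / 8) (Or.inl ⟨by norm_num, hpos⟩) (by norm_num) (by norm_num)
    have hm3 := abs_le.1 hm2
    obtain ⟨a, b, ha, hb, hab⟩ := main (3 / 8) (by norm_num) (by norm_num) m hm1
      (by linarith [hm3.1]) (by linarith [hm3.2])
    rw [hθ.up (3 / 8) (by norm_num), hθ.down _ hm2] at hab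
    have ha' := abs_lt.1 ha
    have hb' := abs_lt.1 hb
    have e1 : a * (1 + η * -1) < (1 + η) * (1 - η) := by
      have : a * (1 - η) < (1 + η) * (1 - η) :=
        mul_lt_mul_of_pos_right (by linarith) (by linarith)
      calc a * (1 + η * -1) = a * (1 - η) := by ring
        _ < _ := this
    have e2 : (1 - η) * (1 + η) < b * (1 + η * 1) := by
      have : (1 - η) * (1 + η) < b * (1 + η) :=
        mul_lt_mul_of_pos_right (by linarith) (by linarith)
      calc (1 - η) * (1 + η) < b * (1 + η) := this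
        _ = _ := by ring
    have e3 : (1 + η) * (1 - η) = (1 - η) * (1 + η) := by ring
    linarith

end Pool.Agent.W_ef8234_h97
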