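import Mathlib
import Pool.Agent.W_ef8234_h97.NotMem
import Pool.Agent.W_ef8234_h97.Mk
import Pool.Agent.W_ef8234_h97.Cyl

/-! # Assembly -/

namespace Pool.Agent.W_ef8234_h97

open scoped ContDiff Topology

variable {d : ℕ}

private theorem key_coef (w : ℝ) (hw : 0 < w) (hw1 : w ≤ 1) (R i : ℕ) (hi : i ≤ R) :
    w * (w⁻¹) ^ i * w ^ R ≤ 1 := by
  obtain ⟨m, rfl⟩ := Nat.exists_eq_add_of_le hi
  have h1 : w * (w⁻¹) ^ i * w ^ (i + m) = w * w ^ m := by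
    rw [pow_add]
    have h2 : (w⁻¹) ^ i * w ^ i = 1 := by
      rw [← mul_pow, inv_mul_cancel₀ hw.ne', one_pow]
    calc w * (w⁻¹) ^ i * (w ^ i * w ^ m) = w * ((w⁻¹) ^ i * w ^ i) * w ^ m := by ring
      _ = w * w ^ m := by rw [h2]; ring
  rw [h1, ← pow_succ']
  exact pow_le_one₀ hw.le hw1

/-- PROOF.  Take `θ`, `H` (`exists_profile`, `exists_bump`), `C` of `IsBump.small R`, and a
cylinder (`exists_cylinder`) with `|s| < ε' w^(R+1)`, `ε'` small.  `σ = s/w`,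
`|σ| < ε' w^R ≤ ε'`.  `Φ` of `exists_mk` for the level `q - 1`.  `gstar = Φ (H 0 σ)`,
`‖gstar‖ ≤ w^(-R) C |σ| ≤ C ε' ≤ δ`, since `w * w^(-i) ≤ w^(-R)` for `i ≤ R`, `w ≤ 1`.
`gstar ∉ ConjClass` is `not_mem_conjClass`.  Approximation: `r` of `IsBump.approx` with
`ε'' = w^R ε`; `Φ (H r σ) ∈ ConjClass` by `mem_conjClass` and
`‖Φ (H r σ) - gstar‖ ≤ w^(-R) ε''`. -/
theorem key (hd : 2 ≤ d) (p : Equiv.Perm (Fin d)) (hp : Irreducible p)
    (l : Fin d → ℝ) (hl : ∀ i, 0 < l i) (hl1 : RatIndep l) (hl2 : Liouvillian l)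
    (R : ℕ) (hR : 1 ≤ R) (η : ℝ) (hη : 0 < η) (hη1 : η < 1) (δ : ℝ) (hδ : 0 < δ) :
    ∃ gstar : Disp R l, ‖gstar‖ < δ ∧ gstar ∉ ConjClass R p l η ∧
      ∀ ε > 0, ∃ g ∈ ConjClass R p l η, ‖g - gstar‖ < ε := by
  obtain ⟨θ, hθ⟩ := exists_profile
  obtain ⟨H, hH⟩ := exists_bump hη hη1 hθ
  obtain ⟨C, hC0, hC⟩ := hH.small R
  obtain ⟨ε', hε'0, hε'1, hε'2⟩ : ∃ ε' : ℝ, 0 < ε' ∧ ε' ≤ 1 / 32 ∧ C * ε' ≤ δ / 2 := by
    refine ⟨min (1 / 32) (δ / 2 / (C + 1)), by positivity, min_le_left _ _, ?_⟩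
    calc C * min (1 / 32) (δ / 2 / (C + 1)) ≤ C * (δ / 2 / (C + 1)) :=
          mul_le_mul_of_nonneg_left (min_le_right _ _) hC0
      _ ≤ (C + 1) * (δ / 2 / (C + 1)) :=
          mul_le_mul_of_nonneg_right (by linarith) (by positivity)
      _ = δ / 2 := by field_simp
  obtain ⟨x, q, w, s, hc, hw1, hs0, hs⟩ := exists_cylinder hd p hp l hl hl1 hl2 (R + 1) ε' hε'0
  have hw := hc.w_pos
  have hq := hc.q_pos
  have hwR : 0 < w ^ R := by positivity
  have hwR1 : w ^ R ≤ 1 := pow_le_one₀ hw.le hw1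
  have hσR : |s / w| < ε' * w ^ R := by
    rw [abs_div, abs_of_pos hw, div_lt_iff₀ hw]
    calc |s| < ε' * w ^ (R + 1) := hs
      _ = ε' * w ^ R * w := by ring
  have hσ1 : |s / w| ≤ 1 / 32 := by
    have : ε' * w ^ R ≤ ε' * 1 := mul_le_mul_of_nonneg_left hwR1 hε'0.le
    linarith
  have hσ : |s / w| ≤ 1 / 16 := by linarith
  obtain ⟨a, ha1, ha2, -⟩ := hc.inside (q - 1) (by omega)
  obtain ⟨Φ, hΦ⟩ := exists_mk R l hl a (x (q - 1)) w hw ha1 ha2
  -- the jets of the elements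
  have hΦr : ∀ r : ℝ, ∀ (i : Fin (R + 1)) (y : ℝ), (Φ (H r (s / w))).1 i y =
      w * (w⁻¹) ^ (i : ℕ) * iteratedDeriv i (H r (s / w)) ((y - x (q - 1)) / w) := fun r =>
    hΦ (H r (s / w)) (hH.smooth r (s / w)) (fun z hz => hH.supp r (s / w) z hσ hz)
  have hdisp : ∀ r y, disp (Φ (H r (s / w))) y =
      w * H r (s / w) ((y - x (q - 1)) / w) := by
    intro r y
    have h1 := hΦr r 0 y
    unfold disp
    rw [h1]
    simp
  have hcoef : ∀ i : Fin (R + 1), w * (w⁻¹) ^ (i : ℕ) * w ^ R ≤ 1 := fun i =>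
    key_coef w hw hw1 R i (by omega)
  refine ⟨Φ (H 0 (s / w)), ?_, ?_, ?_⟩
  · refine lt_of_le_of_lt (b := δ / 2) ?_ (by linarith)
    rw [← Submodule.norm_coe, pi_norm_le_iff_of_nonneg (by positivity)]
    intro i
    rw [BoundedContinuousFunction.norm_le (by positivity)]
    intro y
    rw [hΦr 0 i y, Real.norm_eq_abs, abs_mul, abs_of_nonneg (by positivity :
      0 ≤ w * (w⁻¹) ^ (i : ℕ))]
    calc w * (w⁻¹) ^ (i : ℕ) * |iteratedDeriv i (H 0 (s / w)) ((y - x (q - 1)) / w)| ≤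
          w * (w⁻¹) ^ (i : ℕ) * (C * (ε' * w ^ R)) := by
          refine mul_le_mul_of_nonneg_left ?_ (by positivity)
          exact (hC (s / w) hσ i (by omega) _).trans
            (mul_le_mul_of_nonneg_left hσR.le hC0)
      _ = (w * (w⁻¹) ^ (i : ℕ) * w ^ R) * (C * ε') := by ring
      _ ≤ 1 * (C * ε') := mul_le_mul_of_nonneg_right (hcoef i) (by positivity)
      _ ≤ δ / 2 := by linarith
  · exact not_mem_conjClass R hR hl hη hη1 hθ hH hc hs0 hσ1 _ (hdisp 0)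
  · intro ε hε
    obtain ⟨r, hr0, hr1, hr⟩ := hH.approx R (s / w) hσ (w ^ R * (ε / 2)) (by positivity)
    refine ⟨Φ (H r (s / w)), mem_conjClass R hl hη hη1 hθ hH hc hσ hr0 hr1 _ (hdisp r), ?_⟩
    refine lt_of_le_of_lt (b := ε / 2) ?_ (by linarith)
    rw [← Submodule.norm_coe, pi_norm_le_iff_of_nonneg (by positivity)]
    intro i
    rw [BoundedContinuousFunction.norm_le (by positivity)]
    intro y
    have h1 : ((Φ (H r (s / w)) - Φ (H 0 (s / w)) : Disp R l) : Fin (R + 1) →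
        BoundedContinuousFunction ℝ ℝ) i y =
        w * (w⁻¹) ^ (i : ℕ) * (iteratedDeriv i (H r (s / w)) ((y - x (q - 1)) / w) -
          iteratedDeriv i (H 0 (s / w)) ((y - x (q - 1)) / w)) := by
      have h2 : ((Φ (H r (s / w)) - Φ (H 0 (s / w)) : Disp R l) : Fin (R + 1) →
        BoundedContinuousFunction ℝ ℝ) i y = (Φ (H r (s / w))).1 i y -
          (Φ (H 0 (s / w))).1 i y := rfl
      rw [h2, hΦr r i y, hΦr 0 i y]
      ring
    rw [h1, Real.norm_eq_abs, abs_mul, abs_of_nonneg (by positivity :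
      0 ≤ w * (w⁻¹) ^ (i : ℕ))]
    calc w * (w⁻¹) ^ (i : ℕ) * |iteratedDeriv i (H r (s / w)) ((y - x (q - 1)) / w) -
          iteratedDeriv i (H 0 (s / w)) ((y - x (q - 1)) / w)| ≤
          w * (w⁻¹) ^ (i : ℕ) * (w ^ R * (ε / 2)) :=
          mul_le_mul_of_nonneg_left (hr i (by omega) _) (by positivity)
      _ = (w * (w⁻¹) ^ (i : ℕ) * w ^ R) * (ε / 2) := by ring
      _ ≤ 1 * (ε / 2) := mul_le_mul_of_nonneg_right (hcoef i) (by positivity)
      _ = ε / 2 := one_mul _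

/-- The zero displacement (`T = T₀`) is in the class (`h = id`). -/
theorem zero_mem (hd : 0 < d) (p : Equiv.Perm (Fin d)) (l : Fin d → ℝ) (hl : ∀ i, 0 < l i)
    (R : ℕ) (η : ℝ) (hη : 0 < η) : (0 : Disp R l) ∈ ConjClass R p l η := by
  have hd0 : disp (0 : Disp R l) = fun _ => 0 := rfl
  have hL : 0 < tot l := by
    unfold tot
    exact Finset.sum_pos (fun i _ => hl i) ⟨⟨0, hd⟩, Finset.mem_univ _⟩
  refine ⟨fun x => ?_, id, contDiffOn_id, rfl, rfl, fun x hx => ?_, fun x _ => Iff.rfl,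
    fun x _ => ?_⟩
  · rw [hd0]
    simp
  · rw [derivWithin_id _ _ (uniqueDiffOn_Icc hL x hx), sub_self, abs_zero]
    exact hη
  · rw [hd0]
    simp

/-- PROOF.  A `C^1` submanifold `S` of finite codimension is locally closed: near `x ∈ S` it is
the zero set of a continuous map. -/
theorem IsC1Submanifold.isLocallyClosed {E : Type*} [NormedAddCommGroup E] [NormedSpace ℝ E]
    {c : ℕ} {S : Set E} (hS : IsC1Submanifold c S) : IsLocallyClosed S := by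
  refine ((isLocallyClosed_tfae S).out 0 3).2 fun x hx => ?_
  obtain ⟨U, f, hU, hxU, hf, -, hiff⟩ := hS x hx
  refine ⟨U, hxU, hU, ?_⟩
  rintro y ⟨hyU, hyS⟩
  rw [hiff y hyU]
  have hfc : ContinuousAt f y := (hf.continuousOn).continuousAt (hU.mem_nhds hyU)
  have h1 : y ∈ closure (U ∩ S) := hU.inter_closure ⟨hyU, hyS⟩
  have h2 : f y ∈ closure (f '' (U ∩ S)) := mem_closure_image hfc h1
  have h3 : f '' (U ∩ S) ⊆ {0} := by
    rintro _ ⟨z, ⟨hzU, hzS⟩, rfl⟩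
    exact (hiff z hzU).1 hzS
  have h4 := closure_mono h3 h2
  rwa [closure_singleton] at h4

/-- PROOF.  If `S` is locally closed and coincides with the class near `0`, then `0 ∈ S`
(`zero_mem`), there is an open `U ∋ 0` with `S ∩ U` closed in `U`; `gstar ∈ U` of `key` (with the
ball of radius `δ` inside `U` and inside the set where both coincide) is in the closure of
`S ∩ ball`, so in `S`, so in the class: contradiction. -/
theorem not_locallyClosed (hd : 2 ≤ d) (p : Equiv.Perm (Fin d)) (hp : Irreducible p)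
    (l : Fin d → ℝ) (hl : ∀ i, 0 < l i) (hl1 : RatIndep l) (hl2 : Liouvillian l)
    (R : ℕ) (hR : 1 ≤ R) (η : ℝ) (hη : 0 < η) (hη1 : η < 1) :
    ¬ ∃ S : Set (Disp R l), IsLocallyClosed S ∧
      ∀ᶠ g in 𝓝 (0 : Disp R l), (g ∈ S ↔ g ∈ ConjClass R p l η) := by
  rintro ⟨S, hS, hev⟩
  have h0 : (0 : Disp R l) ∈ S :=
    hev.self_of_nhds.2 (zero_mem (by omega) p l hl R η hη)
  have hS' : ∀ x ∈ S, ∃ U, x ∈ U ∧ IsOpen U ∧ U ∩ closure S ⊆ S :=
    ((isLocallyClosed_tfae S).out 0 3).1 hS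
  obtain ⟨U, h0U, hU, hUS⟩ := hS' 0 h0
  obtain ⟨δ, hδ, hball⟩ := Metric.eventually_nhds_iff.1 (hev.and (hU.mem_nhds h0U))
  obtain ⟨gstar, hg1, hg2, hg3⟩ := key hd p hp l hl hl1 hl2 R hR η hη hη1 δ hδ
  have hdist : ∀ g : Disp R l, ‖g‖ < δ → dist g 0 < δ := fun g hg =>
    lt_of_eq_of_lt (dist_zero_right g) hg
  have hgs := hball (hdist gstar hg1)
  refine hg2 (hgs.1.1 (hUS ⟨hgs.2, ?_⟩))
  rw [Metric.mem_closure_iff]
  intro ε hε
  obtain ⟨g, hg, hgn⟩ := hg3 (min ε (δ - ‖gstar‖)) (lt_min hε (by linarith))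
  have h1 := lt_of_lt_of_le hgn (min_le_left _ _)
  have h2 := lt_of_lt_of_le hgn (min_le_right _ _)
  have h3 : ‖g‖ < δ := by
    have h4 : ‖g‖ ≤ ‖gstar‖ + ‖g - gstar‖ := by
      have h5 : ‖g.1‖ ≤ ‖gstar.1‖ + ‖g.1 - gstar.1‖ := by
        have h6 := norm_add_le gstar.1 (g.1 - gstar.1)
        rwa [add_sub_cancel] at h6
      exact h5
    linarith
  refine ⟨g, (hball (hdist g h3)).1.2 hg, ?_⟩
  rw [dist_comm]
  exact lt_of_eq_of_lt (dist_eq_norm g gstar) h1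

end Pool.Agent.W_ef8234_h97
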