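import Mathlib
import Pool.Agent.W_ef8234_h97.Key

/-! # The space of displacements as a normed space, for the statements -/

namespace Pool.Agent.W_ef8234_h97

open scoped BoundedContinuousFunction Topology

variable {d : ℕ}

/-- Families of `R + 1` bounded continuous functions on `ℝ`. -/
def Jet (R : ℕ) : Type := Fin (R + 1) → (ℝ →ᵇ ℝ)

/-- The norm of the product: `max_{i ≤ R} sup_x |g i x|`. -/
noncomputable instance instNormedJet (R : ℕ) : NormedAddCommGroup (Jet R) :=
  (Pi.normedAddCommGroup : NormedAddCommGroup (Fin (R + 1) → (ℝ →ᵇ ℝ)))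

noncomputable instance instSpaceJet (R : ℕ) : NormedSpace ℝ (Jet R) :=
  (Pi.normedSpace : NormedSpace ℝ (Fin (R + 1) → (ℝ →ᵇ ℝ)))

/-- The space of the displacements of class `C^R` of the standard map with lengths `l`: a function
`F = g 0 : ℝ → ℝ` of class `C^R` together with its derivatives `g i = F^(i)`, `i ≤ R`, all
vanishing outside `I = (0, tot l)` and at the singularities. -/
noncomputable def DispJ (R : ℕ) (l : Fin d → ℝ) : Submodule ℝ (Jet R) where
  carrier := {g | IsDisp R l g}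
  zero_mem' := isDisp_zero R l
  add_mem' := fun hf hg => isDisp_add R l hf hg
  smul_mem' := fun c _ hf => isDisp_smul R l c hf

/-- The same space as a type. -/
def DSpace (R : ℕ) (l : Fin d → ℝ) : Type := DispJ R l

/-- The norm of `g` is the `C^R` norm `max_{i ≤ R} sup_x |F^(i) x|`. -/
noncomputable instance instNormedDSpace (R : ℕ) (l : Fin d → ℝ) :
    NormedAddCommGroup (DSpace R l) := Submodule.normedAddCommGroup (DispJ R l)

noncomputable instance instSpaceDSpace (R : ℕ) (l : Fin d → ℝ) :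
    NormedSpace ℝ (DSpace R l) := Submodule.normedSpace (DispJ R l)

/-- The functions `g i` of a jet `g`. -/
def Jet.fn {R : ℕ} (g : Jet R) : Fin (R + 1) → (ℝ →ᵇ ℝ) := g

/-- The displacement `F` of an element of `DSpace R l`. -/
def fld {R : ℕ} {l : Fin d → ℝ} (g : DSpace R l) : ℝ → ℝ := Jet.fn g.1 0

/-- The displacements `F` of the `C^R` simple deformations `T = T₀ + F` of the standard map
`T₀ = iem p l` for which some `C^1` diffeomorphism `h` of `[0, tot l]` with `|h' - 1| < η`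
everywhere maps the domain of `T₀` to itself and satisfies `h ∘ T₀ = T ∘ h` there.  (The condition
`-1 < F'` says that `T` is an increasing diffeomorphism on each interval.) -/
def ConjSet (R : ℕ) (p : Equiv.Perm (Fin d)) (l : Fin d → ℝ) (η : ℝ) : Set (DSpace R l) :=
  {g | (∀ x, -1 < deriv (fld g) x) ∧
    ∃ h : ℝ → ℝ, ContDiffOn ℝ 1 h (Set.Icc 0 (tot l)) ∧ h 0 = 0 ∧ h (tot l) = tot l ∧
      (∀ x ∈ Set.Icc 0 (tot l), |derivWithin h (Set.Icc 0 (tot l)) x - 1| < η) ∧
      (∀ x ∈ Set.Ioo 0 (tot l), x ∈ dom l ↔ h x ∈ dom l) ∧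
      ∀ x ∈ dom l, h (iem p l x) = iem p l (h x) + fld g (h x)}

/-- Transfer from `Disp` to `DSpace` (the same space). -/
theorem not_locallyClosed_transfer (R : ℕ) (p : Equiv.Perm (Fin d)) (l : Fin d → ℝ) (η : ℝ)
    (h : ¬ ∃ S : Set (Disp R l), IsLocallyClosed S ∧
      ∀ᶠ g in 𝓝 (0 : Disp R l), (g ∈ S ↔ g ∈ ConjClass R p l η)) :
    ¬ ∃ S : Set (DSpace R l), IsLocallyClosed S ∧
      ∀ᶠ g in 𝓝 (0 : DSpace R l), (g ∈ S ↔ g ∈ ConjSet R p l η) := h

/-- Transfer in the other direction. -/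
theorem locallyClosed_transfer (R : ℕ) (p : Equiv.Perm (Fin d)) (l : Fin d → ℝ) (η : ℝ)
    (h : ∃ S : Set (DSpace R l), IsLocallyClosed S ∧
      ∀ᶠ g in 𝓝 (0 : DSpace R l), (g ∈ S ↔ g ∈ ConjSet R p l η)) :
    ∃ S : Set (Disp R l), IsLocallyClosed S ∧
      ∀ᶠ g in 𝓝 (0 : Disp R l), (g ∈ S ↔ g ∈ ConjClass R p l η) := h

end Pool.Agent.W_ef8234_h97
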