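import Mathlib
import Pool.Agent.W_ef8234_h97.Mk

/-! # Displacements from one rescaled bump on each level of a cylinder -/

namespace Pool.Agent.W_ef8234_h97

open scoped ContDiff

variable {d : ℕ} {p : Equiv.Perm (Fin d)} {l : Fin d → ℝ} {x : ℕ → ℝ} {q : ℕ} {w s : ℝ}

/-- The families of smooth bumps that are allowed. -/
def BumpFam (f : ℕ → ℝ → ℝ) : Prop :=
  (∀ i, ContDiff ℝ ∞ (f i)) ∧ ∀ i z, (z ≤ 1 / 16 ∨ 15 / 16 ≤ z) → f i z = 0

private theorem mkS_top_nonneg (l : Fin d → ℝ) (hl : ∀ i, 0 < l i) (a : Fin d) :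
    0 ≤ top l a := by
  unfold top
  apply Finset.sum_nonneg
  intro i _
  split_ifs
  · exact (hl i).le
  · exact le_refl _

private theorem mkS_top_add_le_tot (l : Fin d → ℝ) (hl : ∀ i, 0 < l i) (a : Fin d) :
    top l a + l a ≤ tot l := by
  have h : l a = ∑ i, if i = a then l i else 0 := by
    rw [Finset.sum_ite_eq' Finset.univ a]
    simp
  unfold top tot
  conv_lhs => rw [h]
  rw [← Finset.sum_add_distrib]
  apply Finset.sum_le_sum
  intro i _
  by_cases h1 : i < a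
  · have h2 : i ≠ a := h1.ne
    simp [h1, h2]
  · by_cases h2 : i = a
    · simp [h2]
    · simp [h1, h2, (hl i).le]

private theorem mkS_top_mono (l : Fin d → ℝ) (hl : ∀ i, 0 < l i) {b a : Fin d} (h : b ≤ a) :
    top l b ≤ top l a := by
  unfold top
  apply Finset.sum_le_sum
  intro i _
  by_cases h1 : i < b
  · simp [h1, lt_of_lt_of_le h1 h]
  · rw [if_neg h1]
    split_ifs
    · exact (hl i).le
    · exact le_refl _

private theorem mkS_top_lt (l : Fin d → ℝ) (hl : ∀ i, 0 < l i) {b a : Fin d} (h : a < b) :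
    top l a + l a ≤ top l b := by
  have h0 : l a = ∑ i, if i = a then l i else 0 := by
    rw [Finset.sum_ite_eq' Finset.univ a]
    simp
  unfold top
  conv_lhs => rw [h0]
  rw [← Finset.sum_add_distrib]
  apply Finset.sum_le_sum
  intro i _
  by_cases h1 : i < a
  · have h2 : i ≠ a := h1.ne
    simp [h1, h2, h1.trans h]
  · by_cases h2 : i = a
    · simp [h2, h]
    · simp only [h1, h2, if_false, add_zero]
      split_ifs
      · exact (hl i).le
      · exact le_refl _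

private theorem mkS_vanish {f : ℝ → ℝ} (hz : ∀ z, (z ≤ 1 / 16 ∨ 15 / 16 ≤ z) → f z = 0) (i : ℕ)
    (z : ℝ) (h : z < 1 / 16 ∨ 15 / 16 < z) : iteratedDeriv i f z = 0 := by
  have h1 : f =ᶠ[nhds z] (fun _ => (0 : ℝ)) := by
    rcases h with h | h
    · filter_upwards [Iio_mem_nhds h] with y hy
      exact hz y (Or.inl (le_of_lt hy))
    · filter_upwards [Ioi_mem_nhds h] with y hy
      exact hz y (Or.inr (le_of_lt hy))
  have h2 := Filter.EventuallyEq.iteratedDeriv_eq i h1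
  rw [h2]
  simp

private theorem mkS_bdd {f : ℝ → ℝ} (hf : ContDiff ℝ ∞ f)
    (hz : ∀ z, (z ≤ 1 / 16 ∨ 15 / 16 ≤ z) → f z = 0) (i : ℕ) :
    ∃ C, ∀ z, |iteratedDeriv i f z| ≤ C := by
  have hc : Continuous (iteratedDeriv i f) := hf.continuous_iteratedDeriv i (by exact_mod_cast le_top)
  obtain ⟨C, hC⟩ := (isCompact_Icc (a := (0 : ℝ)) (b := 1)).exists_bound_of_continuousOn
    hc.continuousOn
  refine ⟨max C 0, fun z => ?_⟩
  by_cases h : z ∈ Set.Icc (0 : ℝ) 1
  · exact le_trans (by simpa using hC z h) (le_max_left _ _)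
  · have h1 : z < 1 / 16 ∨ 15 / 16 < z := by
      rw [Set.mem_Icc, not_and_or, not_le, not_le] at h
      rcases h with h | h
      · left; linarith
      · right; linarith
    rw [mkS_vanish hz i z h1]
    simp

private theorem mkS_one (R : ℕ) (l : Fin d → ℝ) (hl : ∀ i, 0 < l i) (a : Fin d) (x w : ℝ)
    (hw : 0 < w) (ha : top l a ≤ x) (hb : x + w ≤ top l a + l a) :
    ∃ Φ : (ℝ → ℝ) → Disp R l, ∀ f : ℝ → ℝ, ContDiff ℝ ∞ f →
      (∀ z, (z ≤ 1 / 16 ∨ 15 / 16 ≤ z) → f z = 0) →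
      ∀ (i : Fin (R + 1)) (y : ℝ),
        (Φ f).1 i y = w * (w⁻¹) ^ (i : ℕ) * iteratedDeriv i f ((y - x) / w) := by
  classical
  have hbd : ∀ (f : ℝ → ℝ), ContDiff ℝ ∞ f → (∀ z, (z ≤ 1 / 16 ∨ 15 / 16 ≤ z) → f z = 0) →
      ∀ i : Fin (R + 1), ∃ g : BoundedContinuousFunction ℝ ℝ, ∀ y,
        g y = w * (w⁻¹) ^ (i : ℕ) * iteratedDeriv i f ((y - x) / w) := by
    intro f hf hz i
    obtain ⟨C, hC⟩ := mkS_bdd hf hz i
    have hc : Continuous (iteratedDeriv i f) :=
      hf.continuous_iteratedDeriv i (by exact_mod_cast le_top)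
    refine ⟨BoundedContinuousFunction.ofNormedAddCommGroup
      (fun y => w * (w⁻¹) ^ (i : ℕ) * iteratedDeriv i f ((y - x) / w))
      (by fun_prop) (w * (w⁻¹) ^ (i : ℕ) * C) ?_, fun y => rfl⟩
    intro y
    have hpos : 0 ≤ w * (w⁻¹) ^ (i : ℕ) := by positivity
    rw [Real.norm_eq_abs, abs_mul, abs_of_nonneg hpos]
    exact mul_le_mul_of_nonneg_left (hC _) hpos
  choose g hg using hbd
  have hout : ∀ (f : ℝ → ℝ) (hf : ContDiff ℝ ∞ f)
      (hz : ∀ z, (z ≤ 1 / 16 ∨ 15 / 16 ≤ z) → f z = 0) (i : Fin (R + 1)) (y : ℝ),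
      (y ≤ x ∨ x + w ≤ y) → g f hf hz i y = 0 := by
    intro f hf hz i y hy
    rw [hg f hf hz i y, mkS_vanish hz i, mul_zero]
    rcases hy with hy | hy
    · left
      have : (y - x) / w ≤ 0 := div_nonpos_of_nonpos_of_nonneg (by linarith) hw.le
      linarith
    · right
      have : 1 ≤ (y - x) / w := by
        rw [le_div_iff₀ hw]
        linarith
      linarith
  have hmem : ∀ (f : ℝ → ℝ) (hf : ContDiff ℝ ∞ f)
      (hz : ∀ z, (z ≤ 1 / 16 ∨ 15 / 16 ≤ z) → f z = 0), g f hf hz ∈ Disp R l := by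
    intro f hf hz
    refine ⟨fun i y => ?_, fun i y hy => ?_, fun i b => ?_⟩
    · have h1 : ((g f hf hz i.castSucc : BoundedContinuousFunction ℝ ℝ) : ℝ → ℝ) =
          fun y => w * (w⁻¹) ^ (i : ℕ) * iteratedDeriv i f ((y - x) / w) := by
        funext y
        rw [hg f hf hz i.castSucc y]
        rfl
      rw [h1, hg f hf hz i.succ y]
      have h2 : HasDerivAt (iteratedDeriv (i : ℕ) f) (iteratedDeriv ((i : ℕ) + 1) f ((y - x) / w))
          ((y - x) / w) := by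
        rw [iteratedDeriv_succ]
        apply DifferentiableAt.hasDerivAt
        exact (hf.differentiable_iteratedDeriv i (by exact_mod_cast WithTop.coe_lt_top _)) _
      have h3 : HasDerivAt (fun y : ℝ => (y - x) / w) (w⁻¹) y := by
        have := ((hasDerivAt_id y).sub_const x).div_const w
        simpa using this
      have h4 := (h2.comp y h3).const_mul (w * (w⁻¹) ^ (i : ℕ))
      have h5 : w * (w⁻¹) ^ ((i.succ : Fin (R + 1)) : ℕ) *
          iteratedDeriv ((i.succ : Fin (R + 1)) : ℕ) f ((y - x) / w) =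
          w * (w⁻¹) ^ (i : ℕ) * (iteratedDeriv ((i : ℕ) + 1) f ((y - x) / w) * w⁻¹) := by
        rw [Fin.val_succ, pow_succ]
        ring
      rw [h5]
      exact h4
    · apply hout
      rw [Set.mem_Ioo, not_and_or, not_lt, not_lt] at hy
      rcases hy with hy | hy
      · left
        have := mkS_top_nonneg l hl a
        linarith
      · right
        have := mkS_top_add_le_tot l hl a
        linarith
    · apply hout
      rcases le_or_gt b a with hba | hba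
      · left
        exact le_trans (mkS_top_mono l hl hba) ha
      · right
        exact le_trans hb (mkS_top_lt l hl hba)
  refine ⟨fun f => if h : ContDiff ℝ ∞ f ∧ (∀ z, (z ≤ 1 / 16 ∨ 15 / 16 ≤ z) → f z = 0) then
    ⟨g f h.1 h.2, hmem f h.1 h.2⟩ else 0, ?_⟩
  intro f hf hz i y
  beta_reduce
  rw [dif_pos (show ContDiff ℝ ∞ f ∧ (∀ z, (z ≤ 1 / 16 ∨ 15 / 16 ≤ z) → f z = 0) from ⟨hf, hz⟩)]
  exact hg f hf hz i y

/-- PROOF.  As `exists_mk` in Mk.lean for each level (apply it or copy it; the support condition is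
`(1/16, 15/16)` here), and sum over `i < q`: `Disp R l` is a subspace.  Each level lies in one
cell (`IsCylinder.inside`). -/
theorem exists_mkS (R : ℕ) (hl : ∀ i, 0 < l i) (hc : IsCylinder p l x q w s) :
    ∃ Φ : (ℕ → ℝ → ℝ) → Disp R l, ∀ f : ℕ → ℝ → ℝ, BumpFam f →
      ∀ (j : Fin (R + 1)) (y : ℝ),
        (Φ f).1 j y = ∑ i ∈ Finset.range q,
          w * (w⁻¹) ^ (j : ℕ) * iteratedDeriv j (f i) ((y - x i) / w) := by
  classical
  have h1 : ∀ i : ℕ, ∃ Φ : (ℝ → ℝ) → Disp R l, i < q → ∀ f : ℝ → ℝ, ContDiff ℝ ∞ f →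
      (∀ z, (z ≤ 1 / 16 ∨ 15 / 16 ≤ z) → f z = 0) →
      ∀ (j : Fin (R + 1)) (y : ℝ),
        (Φ f).1 j y = w * (w⁻¹) ^ (j : ℕ) * iteratedDeriv j f ((y - x i) / w) := by
    intro i
    by_cases hi : i < q
    · obtain ⟨a, ha, hb, _⟩ := hc.inside i hi
      obtain ⟨Φ, hΦ⟩ := mkS_one R l hl a (x i) w hc.w_pos ha hb
      exact ⟨Φ, fun _ => hΦ⟩
    · exact ⟨fun _ => 0, fun h => absurd h hi⟩
  choose Φ hΦ using h1
  refine ⟨fun f => ∑ i ∈ Finset.range q, Φ i (f i), ?_⟩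
  intro f hf j y
  have h2 : ((∑ i ∈ Finset.range q, Φ i (f i) : Disp R l).1 j) y =
      ∑ i ∈ Finset.range q, (Φ i (f i)).1 j y := by
    have h3 : (∑ i ∈ Finset.range q, Φ i (f i) : Disp R l).1 =
        ∑ i ∈ Finset.range q, (Φ i (f i)).1 :=
      Submodule.coe_sum _ _ _
    rw [h3, Finset.sum_apply, BoundedContinuousFunction.coe_sum, Finset.sum_apply]
  rw [h2]
  apply Finset.sum_congr rfl
  intro i hi
  exact hΦ i (Finset.mem_range.1 hi) (f i) (hf.1 i) (hf.2 i) j y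

private theorem mkS_sum_le (R : ℕ) (hc : IsCylinder p l x q w s) (hw1 : w ≤ 1) (j : ℕ)
    (hj : j ≤ R) (h : ℕ → ℝ → ℝ) (ε : ℝ) (hε : 0 ≤ ε)
    (h0 : ∀ i z, (z ≤ 0 ∨ 1 ≤ z) → h i z = 0) (hb : ∀ i < q, ∀ z, |h i z| ≤ ε) (y : ℝ) :
    |∑ i ∈ Finset.range q, w * (w⁻¹) ^ j * h i ((y - x i) / w)| ≤ w * (w⁻¹) ^ R * ε := by
  have hw := hc.w_pos
  have hwi : 1 ≤ w⁻¹ := (one_le_inv₀ hw).2 hw1
  have hpow : (w⁻¹) ^ j ≤ (w⁻¹) ^ R := pow_le_pow_right₀ hwi hj
  have hout : ∀ i : ℕ, (y ≤ x i ∨ x i + w ≤ y) → h i ((y - x i) / w) = 0 := by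
    intro i hi
    apply h0
    rcases hi with hi | hi
    · left
      exact div_nonpos_of_nonpos_of_nonneg (by linarith) hw.le
    · right
      rw [le_div_iff₀ hw]
      linarith
  by_cases hex : ∃ i, i < q ∧ x i < y ∧ y < x i + w
  · obtain ⟨i, hi, h1, h2⟩ := hex
    rw [Finset.sum_eq_single i]
    · rw [abs_mul, abs_of_nonneg (by positivity : 0 ≤ w * (w⁻¹) ^ j)]
      calc w * (w⁻¹) ^ j * |h i ((y - x i) / w)| ≤ w * (w⁻¹) ^ j * ε :=
            mul_le_mul_of_nonneg_left (hb i hi _) (by positivity)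
        _ ≤ w * (w⁻¹) ^ R * ε :=
            mul_le_mul_of_nonneg_right (mul_le_mul_of_nonneg_left hpow hw.le) hε
    · intro k hk hki
      have hkq := Finset.mem_range.1 hk
      rw [hout k, mul_zero]
      rcases lt_or_gt_of_ne hki with h3 | h3
      · rcases hc.disjoint k i h3 hi with h4 | h4
        · right; linarith
        · left; linarith
      · rcases hc.disjoint i k h3 hkq with h4 | h4
        · left; linarith
        · right; linarith
    · intro h3
      exact absurd (Finset.mem_range.2 hi) h3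
  · rw [Finset.sum_eq_zero]
    · rw [abs_zero]
      positivity
    · intro i hi
      rw [hout i, mul_zero]
      by_contra hcon
      push Not at hcon
      exact hex ⟨i, Finset.mem_range.1 hi, hcon.1, hcon.2⟩

/-- PROOF.  `‖g‖ ≤ B` iff `|g.1 j y| ≤ B` for all `j, y` (`pi_norm_le_iff_of_nonneg`,
`BoundedContinuousFunction.norm_le`).  For given `y` at most one `i < q` has
`(y - x i) / w ∈ (0, 1)` (disjoint levels); for the others both `iteratedDeriv`s vanish.  And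
`(w⁻¹) ^ j ≤ (w⁻¹) ^ R` since `w ≤ 1`. -/
theorem mkS_norm_le (R : ℕ) (hc : IsCylinder p l x q w s) (hw1 : w ≤ 1)
    (Φ : (ℕ → ℝ → ℝ) → Disp R l)
    (hΦ : ∀ f : ℕ → ℝ → ℝ, BumpFam f → ∀ (j : Fin (R + 1)) (y : ℝ),
        (Φ f).1 j y = ∑ i ∈ Finset.range q,
          w * (w⁻¹) ^ (j : ℕ) * iteratedDeriv j (f i) ((y - x i) / w))
    (f g : ℕ → ℝ → ℝ) (hf : BumpFam f) (hg : BumpFam g) (ε : ℝ) (hε : 0 ≤ ε)
    (h : ∀ i < q, ∀ j ≤ R, ∀ z, |iteratedDeriv j (f i) z - iteratedDeriv j (g i) z| ≤ ε) :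
    ‖Φ f - Φ g‖ ≤ w * (w⁻¹) ^ R * ε ∧
    ((∀ i < q, ∀ j ≤ R, ∀ z, |iteratedDeriv j (f i) z| ≤ ε) → ‖Φ f‖ ≤ w * (w⁻¹) ^ R * ε) := by
  have hw := hc.w_pos
  have hB : 0 ≤ w * (w⁻¹) ^ R * ε := by positivity
  have hv : ∀ f : ℕ → ℝ → ℝ, BumpFam f → ∀ (i j : ℕ) (z : ℝ), (z ≤ 0 ∨ 1 ≤ z) →
      iteratedDeriv j (f i) z = 0 := by
    intro f hf i j z hz
    apply mkS_vanish (hf.2 i) j z
    rcases hz with hz | hz
    · left; linarith
    · right; linarith
  constructor
  · rw [Submodule.coe_norm, pi_norm_le_iff_of_nonneg hB]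
    intro j
    rw [BoundedContinuousFunction.norm_le hB]
    intro y
    have h1 : ((Φ f - Φ g : Disp R l) : Fin (R + 1) → BoundedContinuousFunction ℝ ℝ) j y =
        ∑ i ∈ Finset.range q, w * (w⁻¹) ^ (j : ℕ) *
          (iteratedDeriv j (f i) ((y - x i) / w) - iteratedDeriv j (g i) ((y - x i) / w)) := by
      have h2 : ((Φ f - Φ g : Disp R l) : Fin (R + 1) → BoundedContinuousFunction ℝ ℝ) j y =
          (Φ f).1 j y - (Φ g).1 j y := rfl
      rw [h2, hΦ f hf, hΦ g hg, ← Finset.sum_sub_distrib]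
      exact Finset.sum_congr rfl fun i _ => (mul_sub _ _ _).symm
    rw [Real.norm_eq_abs, h1]
    have hjR : (j : ℕ) ≤ R := Nat.lt_succ_iff.1 j.2
    exact mkS_sum_le R hc hw1 j hjR
      (fun i z => iteratedDeriv j (f i) z - iteratedDeriv j (g i) z) ε hε
      (fun i z hz => by
        show iteratedDeriv j (f i) z - iteratedDeriv j (g i) z = 0
        rw [hv f hf i j z hz, hv g hg i j z hz, sub_zero])
      (fun i hi z => h i hi j hjR z) y
  · intro h'
    rw [Submodule.coe_norm, pi_norm_le_iff_of_nonneg hB]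
    intro j
    rw [BoundedContinuousFunction.norm_le hB]
    intro y
    have h1 : ((Φ f : Disp R l) : Fin (R + 1) → BoundedContinuousFunction ℝ ℝ) j y =
        ∑ i ∈ Finset.range q, w * (w⁻¹) ^ (j : ℕ) * iteratedDeriv j (f i) ((y - x i) / w) :=
      hΦ f hf j y
    rw [Real.norm_eq_abs, h1]
    have hjR : (j : ℕ) ≤ R := Nat.lt_succ_iff.1 j.2
    exact mkS_sum_le R hc hw1 j hjR (fun i z => iteratedDeriv j (f i) z) ε hε
      (fun i z hz => hv f hf i j z hz) (fun i hi z => h' i hi j hjR z) y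

end Pool.Agent.W_ef8234_h97
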