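import Mathlib
import Pool.Agent.W_ef8234_h97.Kk

/-! # Conjugacies whose bumps are shifted by `i σ / q` on the level `i`

Same as `Kk.lean`, with a phase: on the level `i` of the cylinder the conjugacy is
`z ↦ κ (z + i σ / q) - i σ / q`.  Then the defect is spread evenly over the `q` levels. -/

namespace Pool.Agent.W_ef8234_h97

open scoped ContDiff

variable {d : ℕ}

/-- The conjugacy with phases `i * (σ / q)`. -/
noncomputable def kks (η : ℝ) (θ : ℝ → ℝ) (x : ℕ → ℝ) (q : ℕ) (w σ r : ℝ) (y : ℝ) : ℝ :=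
  y + ∑ i ∈ Finset.range q, w * (η * Real.cos r) * θ ((y - x i) / w + i * (σ / q))

variable {p : Equiv.Perm (Fin d)} {l : Fin d → ℝ} {x : ℕ → ℝ} {q : ℕ} {w s η r σ : ℝ}
  {θ : ℝ → ℝ} {H : ℝ → ℝ → ℝ → ℝ}

/-- PROOF.  `0 ≤ i / q ≤ 1`. -/
theorem phase_le (hσ : |σ| ≤ 1 / 32) (i : ℕ) (hi : i ≤ q) : |(i : ℝ) * (σ / q)| ≤ 1 / 32 := by
  rcases Nat.eq_zero_or_pos q with hq | hq
  · have h0 : i = 0 := by omega
    rw [h0]
    norm_num
  · have hq' : (0 : ℝ) < q := by exact_mod_cast hq
    have hi' : (i : ℝ) ≤ q := by exact_mod_cast hi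
    have h1 : (i : ℝ) * (σ / q) = (i / q) * σ := by ring
    have h2 : (0 : ℝ) ≤ i / q := by positivity
    have h3 : (i : ℝ) / q ≤ 1 := by
      rw [div_le_one hq']
      exact hi'
    rw [h1, abs_mul, abs_of_nonneg h2]
    calc (i : ℝ) / q * |σ| ≤ 1 * (1 / 32) := mul_le_mul h3 hσ (abs_nonneg _) (by norm_num)
      _ = 1 / 32 := by norm_num

private theorem KkS_theta_off (hθ : IsProfile θ) {τ : ℝ} (hτ : |τ| ≤ 1 / 32) (z : ℝ)
    (hz : z ≤ 0 ∨ 1 ≤ z) : θ (z + τ) = 0 ∧ deriv θ (z + τ) = 0 := by
  have hτ' := abs_le.1 hτ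
  constructor
  · rcases hz with h | h
    · exact hθ.left _ (by linarith [hτ'.2])
    · exact hθ.right _ (by linarith [hτ'.1])
  · have h1 : θ =ᶠ[nhds (z + τ)] fun _ => (0 : ℝ) := by
      rcases hz with h | h
      · filter_upwards [Iio_mem_nhds (show z + τ < 1 / 4 by linarith [hτ'.2])] with t ht
        exact hθ.left t (le_of_lt ht)
      · filter_upwards [Ioi_mem_nhds (show 3 / 4 < z + τ by linarith [hτ'.1])] with t ht
        exact hθ.right t (le_of_lt ht)
    rw [h1.deriv_eq]
    simp

private theorem KkS_outside (hc : IsCylinder p l x q w s) (i j : ℕ) (hi : i < q) (hj : j < q)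
    (hij : j ≠ i) (y : ℝ) (h0 : x i < y) (h1 : y < x i + w) :
    (y - x j) / w ≤ 0 ∨ 1 ≤ (y - x j) / w := by
  have hw := hc.w_pos
  have h2 : y ≤ x j ∨ x j + w ≤ y := by
    rcases lt_or_gt_of_ne hij with h | h
    · rcases hc.disjoint j i h hi with h3 | h3
      · right; linarith
      · left; linarith
    · rcases hc.disjoint i j h hj with h3 | h3
      · left; linarith
      · right; linarith
  rcases h2 with h2 | h2
  · left
    exact div_nonpos_of_nonpos_of_nonneg (by linarith) hw.le
  · right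
    rw [le_div_iff₀ hw]
    linarith

private theorem KkS_hasDeriv (hθ : IsProfile θ) (hw : 0 < w) (y : ℝ) :
    HasDerivAt (kks η θ x q w σ r)
      (1 + ∑ i ∈ Finset.range q,
        η * Real.cos r * deriv θ ((y - x i) / w + i * (σ / q))) y := by
  have h1 : ∀ i ∈ Finset.range q,
      HasDerivAt (fun y => w * (η * Real.cos r) * θ ((y - x i) / w + i * (σ / q)))
      (η * Real.cos r * deriv θ ((y - x i) / w + i * (σ / q))) y := by
    intro i _
    have h2 : HasDerivAt θ (deriv θ ((y - x i) / w + i * (σ / q))) ((y - x i) / w + i * (σ / q)) :=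
      ((hθ.smooth.differentiable (by simp)) _).hasDerivAt
    have h3 : HasDerivAt (fun y => (y - x i) / w + i * (σ / q)) (1 / w) y :=
      (((hasDerivAt_id y).sub_const (x i)).div_const w).add_const _
    have h4 : HasDerivAt (fun y => θ ((y - x i) / w + i * (σ / q)))
        (deriv θ ((y - x i) / w + i * (σ / q)) * (1 / w)) y :=
      HasDerivAt.comp (h₂ := θ) (h := fun y => (y - x i) / w + i * (σ / q)) y h2 h3
    have h5 := h4.const_mul (w * (η * Real.cos r))
    have h6 : w * (η * Real.cos r) * (deriv θ ((y - x i) / w + i * (σ / q)) * (1 / w)) =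
        η * Real.cos r * deriv θ ((y - x i) / w + i * (σ / q)) := by
      field_simp
    rw [h6] at h5
    exact h5
  have h2 := HasDerivAt.fun_sum h1
  exact (hasDerivAt_id y).add h2

/-- PROOF.  As `kk_deriv` in Kk.lean: the supports `(x i, x i + w)` are disjoint and
`θ (z + τ)`, `θ' (z + τ)` vanish for `z ≤ 0` and `z ≥ 1` if `|τ| ≤ 1/32` (`phase_le`). -/
theorem kks_deriv (hη : 0 < η) (hθ : IsProfile θ) (hc : IsCylinder p l x q w s)
    (hσ : |σ| ≤ 1 / 32) :
    ContDiff ℝ ∞ (kks η θ x q w σ r) ∧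
      ∀ y, |deriv (kks η θ x q w σ r) y - 1| ≤ η * |Real.cos r| := by
  refine ⟨?_, fun y => ?_⟩
  · unfold kks
    apply contDiff_id.add
    apply ContDiff.sum
    intro i _
    exact contDiff_const.mul (hθ.smooth.comp
      (((contDiff_id.sub contDiff_const).div_const w).add contDiff_const))
  · rw [(KkS_hasDeriv hθ hc.w_pos y).deriv, add_sub_cancel_left]
    by_cases hex : ∃ i, i < q ∧ x i < y ∧ y < x i + w
    · obtain ⟨i, hi, h0, h1⟩ := hex
      rw [Finset.sum_eq_single i]
      · rw [abs_mul, abs_mul, abs_of_pos hη]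
        calc η * |Real.cos r| * |deriv θ ((y - x i) / w + i * (σ / q))| ≤ η * |Real.cos r| * 1 :=
              mul_le_mul_of_nonneg_left (hθ.bound _) (by positivity)
          _ = η * |Real.cos r| := by ring
      · intro j hj hji
        rw [(KkS_theta_off hθ (phase_le hσ j (Finset.mem_range.1 hj).le) _
          (KkS_outside hc i j hi (Finset.mem_range.1 hj) hji y h0 h1)).2, mul_zero]
      · intro h
        exact absurd (Finset.mem_range.2 hi) h
    · rw [Finset.sum_eq_zero]
      · rw [abs_zero]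
        positivity
      · intro i hi
        have hw := hc.w_pos
        have h2 : (y - x i) / w ≤ 0 ∨ 1 ≤ (y - x i) / w := by
          by_cases h3 : x i < y
          · right
            rw [le_div_iff₀ hw]
            by_contra h4
            exact hex ⟨i, Finset.mem_range.1 hi, h3, by linarith⟩
          · left
            exact div_nonpos_of_nonpos_of_nonneg (by linarith) hw.le
        rw [(KkS_theta_off hθ (phase_le hσ i (Finset.mem_range.1 hi).le) _ h2).2, mul_zero]

/-- PROOF.  As `kk_level`. -/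
theorem kks_level (hθ : IsProfile θ) (hc : IsCylinder p l x q w s) (hσ : |σ| ≤ 1 / 32) (i : ℕ)
    (hi : i < q) (z : ℝ) (hz0 : 0 < z) (hz1 : z < 1) :
    kks η θ x q w σ r (x i + w * z) =
        x i + w * (kap η θ r (z + i * (σ / q)) - i * (σ / q)) ∧
      deriv (kks η θ x q w σ r) (x i + w * z) =
        1 + η * Real.cos r * deriv θ (z + i * (σ / q)) := by
  have hw := hc.w_pos
  have h0 : x i < x i + w * z := by
    have := mul_pos hw hz0
    linarith
  have h1 : x i + w * z < x i + w := by
    have := mul_lt_mul_of_pos_left hz1 hw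
    linarith
  have hzz : (x i + w * z - x i) / w = z := by
    field_simp
    ring
  have hoff : ∀ j ∈ Finset.range q, j ≠ i →
      θ ((x i + w * z - x j) / w + j * (σ / q)) = 0 ∧
        deriv θ ((x i + w * z - x j) / w + j * (σ / q)) = 0 := by
    intro j hj hji
    exact KkS_theta_off hθ (phase_le hσ j (Finset.mem_range.1 hj).le) _
      (KkS_outside hc i j hi (Finset.mem_range.1 hj) hji _ h0 h1)
  constructor
  · unfold kks kap
    rw [Finset.sum_eq_single i]
    · rw [hzz]
      ring
    · intro j hj hji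
      rw [(hoff j hj hji).1, mul_zero]
    · intro h
      exact absurd (Finset.mem_range.2 hi) h
  · rw [(KkS_hasDeriv hθ hw _).deriv, Finset.sum_eq_single i]
    · rw [hzz]
    · intro j hj hji
      rw [(hoff j hj hji).2, mul_zero]
    · intro h
      exact absurd (Finset.mem_range.2 hi) h

/-- PROOF.  As `kk_off`. -/
theorem kks_off (hθ : IsProfile θ) (hc : IsCylinder p l x q w s) (hσ : |σ| ≤ 1 / 32) (y : ℝ)
    (hy : ∀ i < q, y ≤ x i ∨ x i + w ≤ y) : kks η θ x q w σ r y = y := by
  have hw := hc.w_pos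
  unfold kks
  rw [Finset.sum_eq_zero, add_zero]
  intro i hi
  have h2 : (y - x i) / w ≤ 0 ∨ 1 ≤ (y - x i) / w := by
    rcases hy i (Finset.mem_range.1 hi) with h | h
    · left
      exact div_nonpos_of_nonpos_of_nonneg (by linarith) hw.le
    · right
      rw [le_div_iff₀ hw]
      linarith
  rw [(KkS_theta_off hθ (phase_le hσ i (Finset.mem_range.1 hi).le) _ h2).1, mul_zero]

/-- PROOF.  `z ↦ κ (z + τ) - τ` is strictly increasing and fixes `0` and `1`, because
`θ τ = 0 = θ (1 + τ)`. -/
theorem kapS_mem (hη : 0 < η) (hη1 : η < 1) (hθ : IsProfile θ) (τ : ℝ) (hτ : |τ| ≤ 1 / 32)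
    (z : ℝ) (hz0 : 0 < z) (hz1 : z < 1) :
    0 < kap η θ r (z + τ) - τ ∧ kap η θ r (z + τ) - τ < 1 := by
  have hmono : StrictMono (kap η θ r) := by
    apply strictMono_of_deriv_pos
    intro t
    have h1 : HasDerivAt θ (deriv θ t) t :=
      ((hθ.smooth.differentiable (by simp)) t).hasDerivAt
    have h2 : HasDerivAt (kap η θ r) (1 + η * Real.cos r * deriv θ t) t :=
      (hasDerivAt_id t).add (h1.const_mul (η * Real.cos r))
    rw [h2.deriv]
    have h3 : |η * Real.cos r * deriv θ t| ≤ η := by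
      rw [abs_mul, abs_mul, abs_of_pos hη]
      calc η * |Real.cos r| * |deriv θ t| ≤ η * 1 * 1 := by
            refine mul_le_mul (mul_le_mul_of_nonneg_left (Real.abs_cos_le_one r) hη.le)
              (hθ.bound t) (abs_nonneg _) (by positivity)
        _ = η := by ring
    have h4 := (abs_le.1 h3).1
    linarith
  have h0 : kap η θ r (0 + τ) = τ := by
    unfold kap
    rw [(KkS_theta_off hθ hτ 0 (Or.inl le_rfl)).1]
    ring
  have h1 : kap η θ r (1 + τ) = 1 + τ := by
    unfold kap
    rw [(KkS_theta_off hθ hτ 1 (Or.inr le_rfl)).1]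
    ring
  constructor
  · have := hmono (show 0 + τ < z + τ by linarith)
    rw [h0] at this
    linarith
  · have := hmono (show z + τ < 1 + τ by linarith)
    rw [h1] at this
    linarith

/-- PROOF.  As `kk_dom`. -/
theorem kks_dom (hη : 0 < η) (hη1 : η < 1) (hθ : IsProfile θ) (hc : IsCylinder p l x q w s)
    (hσ : |σ| ≤ 1 / 32) (y : ℝ) : y ∈ dom l ↔ kks η θ x q w σ r y ∈ dom l := by
  have hw := hc.w_pos
  by_cases hex : ∃ i, i < q ∧ x i < y ∧ y < x i + w
  · obtain ⟨i, hi, h0, h1⟩ := hex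
    obtain ⟨a, ha1, ha2, _⟩ := hc.inside i hi
    obtain ⟨z, hz⟩ : ∃ z, z = (y - x i) / w := ⟨_, rfl⟩
    have hyz : y = x i + w * z := by
      rw [hz]
      field_simp
      ring
    have hz0 : 0 < z := by
      rw [hz]
      exact div_pos (by linarith) hw
    have hz1 : z < 1 := by
      rw [hz, div_lt_one hw]
      linarith
    have hk := (kks_level (η := η) (r := r) hθ hc hσ i hi z hz0 hz1).1
    obtain ⟨hm0, hm1⟩ := kapS_mem (r := r) hη hη1 hθ ((i : ℝ) * (σ / q))
      (phase_le hσ i hi.le) z hz0 hz1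
    have hin : ∀ t : ℝ, 0 < t → t < 1 → x i + w * t ∈ dom l := by
      intro t ht0 ht1
      apply Set.mem_iUnion.2
      refine ⟨a, ?_, ?_⟩
      · have := mul_pos hw ht0
        linarith
      · have := mul_lt_mul_of_pos_left ht1 hw
        linarith
    rw [hyz, hk]
    exact ⟨fun _ => hin _ hm0 hm1, fun _ => hin _ hz0 hz1⟩
  · have : kks η θ x q w σ r y = y := by
      apply kks_off hθ hc hσ
      intro i hi
      by_contra h
      push Not at h
      exact hex ⟨i, hi, h.1, h.2⟩
    rw [this]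

end Pool.Agent.W_ef8234_h97
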