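import Mathlib
import Pool.Agent.W_ef8234_h97.KkS

/-! # The conjugacy relation and membership, version with phases -/

namespace Pool.Agent.W_ef8234_h97

open scoped ContDiff

variable {d : ℕ}

variable {p : Equiv.Perm (Fin d)} {l : Fin d → ℝ} {x : ℕ → ℝ} {q : ℕ} {w s η r : ℝ}
  {θ : ℝ → ℝ} {H : ℝ → ℝ → ℝ → ℝ}

private theorem MemS_lev_dom (hc : IsCylinder p l x q w s) (i : ℕ) (hi : i < q) (z : ℝ)
    (hz0 : 0 < z) (hz1 : z < 1) : x i + w * z ∈ dom l := by
  have hw := hc.w_pos
  obtain ⟨a, ha1, ha2, _⟩ := hc.inside i hi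
  apply Set.mem_iUnion.2
  refine ⟨a, ?_, ?_⟩
  · have := mul_pos hw hz0
    linarith
  · have := mul_lt_mul_of_pos_left hz1 hw
    linarith

private theorem MemS_lev_iem (hl : ∀ i, 0 < l i) (hc : IsCylinder p l x q w s) (i : ℕ)
    (hi : i < q) (z : ℝ) (hz0 : 0 < z) (hz1 : z < 1) :
    iem p l (x i + w * z) = (if i + 1 < q then x (i + 1) else x 0 + s) + w * z := by
  have hw := hc.w_pos
  obtain ⟨a, ha1, ha2, ha3⟩ := hc.inside i hi
  have hcell : x i + w * z ∈ cell l a := by
    refine ⟨?_, ?_⟩
    · have := mul_pos hw hz0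
      linarith
    · have := mul_lt_mul_of_pos_left hz1 hw
      linarith
  rw [iem_cell p l hl a _ hcell, ← ha3]
  ring

private theorem MemS_unique (hc : IsCylinder p l x q w s) (i j : ℕ) (hi : i < q) (hj : j < q)
    (y : ℝ) (h1 : x i < y) (h2 : y < x i + w) (h3 : x j < y) (h4 : y < x j + w) : i = j := by
  rcases lt_trichotomy i j with h | h | h
  · rcases hc.disjoint i j h hj with h5 | h5 <;> linarith
  · exact h
  · rcases hc.disjoint j i h hi with h5 | h5 <;> linarith

private theorem MemS_outside (hc : IsCylinder p l x q w s) (i j : ℕ) (hi : i < q) (hj : j < q)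
    (hij : j ≠ i) (y : ℝ) (h0 : x i < y) (h1 : y < x i + w) :
    (y - x j) / w ≤ 0 ∨ 1 ≤ (y - x j) / w := by
  have hw := hc.w_pos
  by_contra h
  push Not at h
  obtain ⟨h2, h3⟩ := h
  rw [div_lt_one hw] at h3
  have h4 : 0 < y - x j := by
    by_contra h5
    push Not at h5
    exact absurd h2 (not_lt.2 (div_nonpos_of_nonpos_of_nonneg h5 hw.le))
  exact hij (MemS_unique hc j i hj hi y (by linarith) (by linarith) h0 h1)

private theorem MemS_off (hw : 0 < w) (i : ℕ) (y : ℝ) (hy : y ≤ x i ∨ x i + w ≤ y) :
    (y - x i) / w ≤ 0 ∨ 1 ≤ (y - x i) / w := by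
  rcases hy with h | h
  · left
    exact div_nonpos_of_nonpos_of_nonneg (by linarith) hw.le
  · right
    rw [le_div_iff₀ hw]
    linarith

/-- If a term of the conjugacy is nonzero at `iem y` then `y` lies in the preceding level. -/
private theorem MemS_back (hl : ∀ i, 0 < l i) (hθ : IsProfile θ) (hc : IsCylinder p l x q w s)
    (hs : |s / w| ≤ 1 / 32) (y : ℝ) (hy : y ∈ dom l) (j : ℕ) (hj : j < q)
    (hne : θ ((iem p l y - x j) / w + j * (s / w / q)) ≠ 0) :
    ∃ i, i < q ∧ x i < y ∧ y < x i + w ∧ (1 ≤ j → i + 1 = j) ∧ (j = 0 → i + 1 = q) := by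
  have hw := hc.w_pos
  have hph := abs_le.1 (phase_le (q := q) hs j hj.le)
  have hs' := abs_le.1 hs
  obtain ⟨t, ht⟩ : ∃ t, t = (iem p l y - x j) / w := ⟨_, rfl⟩
  have hyt : iem p l y = x j + w * t := by
    rw [ht]
    field_simp
    ring
  rw [← ht] at hne
  have h1 : 1 / 4 < t + j * (s / w / q) := by
    by_contra h
    push Not at h
    exact hne (hθ.left _ h)
  have h2 : t + j * (s / w / q) < 3 / 4 := by
    by_contra h
    push Not at h
    exact hne (hθ.right _ h)
  have hlev : ∀ i, i < q → ∀ z, 0 < z → z < 1 → y = x i + w * z → x i < y ∧ y < x i + w := by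
    intro i _ z hz0 hz1 hyz
    rw [hyz]
    constructor
    · have := mul_pos hw hz0
      linarith
    · have := mul_lt_mul_of_pos_left hz1 hw
      linarith
  rcases Nat.eq_zero_or_pos j with hj0 | hj0
  · have hq := hc.q_pos
    have ht0 : 0 < t - s / w := by
      rw [hj0] at h1
      simp only [Nat.cast_zero, zero_mul, add_zero] at h1
      linarith [hs'.2]
    have ht1 : t - s / w < 1 := by
      rw [hj0] at h2
      simp only [Nat.cast_zero, zero_mul, add_zero] at h2
      linarith [hs'.1]
    have hiem := MemS_lev_iem hl hc (q - 1) (by omega) _ ht0 ht1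
    rw [if_neg (by omega)] at hiem
    have heq : iem p l (x (q - 1) + w * (t - s / w)) = iem p l y := by
      rw [hiem, hyt, hj0]
      field_simp
      ring
    have hyy := iem_injOn p l hl (MemS_lev_dom hc (q - 1) (by omega) _ ht0 ht1) hy heq
    obtain ⟨h3, h4⟩ := hlev (q - 1) (by omega) _ ht0 ht1 hyy.symm
    exact ⟨q - 1, by omega, h3, h4, fun h => by omega, fun _ => by omega⟩
  · have ht0 : 0 < t := by linarith [hph.2]
    have ht1 : t < 1 := by linarith [hph.1]
    have hiem := MemS_lev_iem hl hc (j - 1) (by omega) _ ht0 ht1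
    rw [if_pos (by omega), Nat.sub_add_cancel hj0] at hiem
    have heq : iem p l (x (j - 1) + w * t) = iem p l y := by
      rw [hiem, hyt]
    have hyy := iem_injOn p l hl (MemS_lev_dom hc (j - 1) (by omega) _ ht0 ht1) hy heq
    obtain ⟨h3, h4⟩ := hlev (j - 1) (by omega) _ ht0 ht1 hyy.symm
    exact ⟨j - 1, by omega, h3, h4, fun _ => by omega, fun h => by omega⟩

private theorem MemS_H (hH : IsBump η θ H) (hq : 1 ≤ q) (hs : |s / w| ≤ 1 / 32) (j : ℕ)
    (hj : j < q) (z : ℝ) (hz : z ≤ 0 ∨ 1 ≤ z) :
    H r (s / w / q) (z + j * (s / w / q)) = 0 := by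
  have hph := abs_le.1 (phase_le (q := q) hs j hj.le)
  have h1 := phase_le (q := q) hs 1 hq
  rw [Nat.cast_one, one_mul] at h1
  apply hH.supp r _ _ (by linarith)
  rcases hz with h | h
  · left; linarith [hph.2]
  · right; linarith [hph.1]

private theorem MemS_nonneg (hc : IsCylinder p l x q w s) (hl : ∀ i, 0 < l i) (i : ℕ)
    (hi : i < q) : 0 ≤ x i ∧ x i + w ≤ tot l := by
  have hw := hc.w_pos
  obtain ⟨a, ha1, ha2, _⟩ := hc.inside i hi
  have h1 : 0 ≤ top l a := by
    unfold top
    apply Finset.sum_nonneg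
    intro i _
    split_ifs
    · exact (hl i).le
    · exact le_refl _
  have h2 : top l a + l a ≤ tot l := by
    have h : l a = ∑ i, if i = a then l i else 0 := by
      rw [Finset.sum_ite_eq' Finset.univ a]
      simp
    unfold top tot
    conv_lhs => rw [h]
    rw [← Finset.sum_add_distrib]
    apply Finset.sum_le_sum
    intro i _
    by_cases h1 : i < a
    · have h2 : i ≠ a := h1.ne
      simp [h1, h2]
    · by_cases h2 : i = a
      · simp [h2]
      · simp [h1, h2, (hl i).le]
  exact ⟨by linarith, by linarith⟩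

/-- PROOF (compare `kk_rel` in Mem.lean).  Put `σ = s / w`, `τ i = i * (σ / q)`, so `|τ i| ≤ 1/32`.
Case 1: `y` in no level `(x i, x i + w)`.  Then `kks y = y` (`kks_off`), all terms of `F y` vanish
(`IsBump.supp`: `(y - x i) / w ≤ 0` or `≥ 1`, the shift is `≤ 1/32`), and
`kks (iem y) = iem y`: if a term `θ ((iem y - x j) / w + τ j)` is nonzero then
`(iem y - x j) / w ∈ (1/4 - 1/32, 3/4 + 1/32)`, so `iem y` is the image of a point of level
`j - 1` (`j ≥ 1`) or, as `|s| ≤ w/32`, of level `q - 1` (`j = 0`); injectivity.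
Case 2: `y = x i + w z`, `0 < z < 1`, `i + 1 < q`.  `iem y = x (i+1) + w z`,
`kks (iem y) = x (i+1) + w (κ (z + τ (i+1)) - τ (i+1))`.  `kks y = x i + w (κ (z + τ i) - τ i)`
is in level `i` (`kapS_mem`), so `iem (kks y) = x (i+1) + w (κ (z + τ i) - τ i)` and the only
nonzero term of `F (kks y)` is the `i`-th: `w * H r (σ/q) (κ (z + τ i)) =
w (κ (z + τ i + σ/q) - κ (z + τ i) - σ/q)` (`IsBump.eq`).  The sum is as required.
Case 3: `i = q - 1`: `iem y = x 0 + w (z + σ)`, all terms `j ≥ 1` of `kks (iem y)` vanish, so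
`kks (iem y) = x 0 + w κ (z + σ)` (also when `z + σ` is outside `(0, 1)`), and
`iem (kks y) + F (kks y) = x 0 + s + w (κ (z + τ (q-1)) - τ (q-1)) +
w (κ (z + σ) - κ (z + τ (q-1)) - σ/q) = x 0 + w κ (z + σ)`. -/
theorem kks_rel (hl : ∀ i, 0 < l i) (hη : 0 < η) (hη1 : η < 1) (hθ : IsProfile θ)
    (hH : IsBump η θ H) (hc : IsCylinder p l x q w s) (hs : |s / w| ≤ 1 / 32) (F : ℝ → ℝ)
    (hF : ∀ y, F y = ∑ i ∈ Finset.range q,
      w * H r (s / w / q) ((y - x i) / w + i * (s / w / q))) (y : ℝ) (hy : y ∈ dom l) :
    kks η θ x q w (s / w) r (iem p l y) =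
      iem p l (kks η θ x q w (s / w) r y) + F (kks η θ x q w (s / w) r y) := by
  have hw := hc.w_pos
  have hq := hc.q_pos
  have hq0 : (q : ℝ) ≠ 0 := by
    have : 0 < q := hq
    positivity
  by_cases hex : ∃ i, i < q ∧ x i < y ∧ y < x i + w
  · obtain ⟨i, hi, h0, h1⟩ := hex
    obtain ⟨z, hz⟩ : ∃ z, z = (y - x i) / w := ⟨_, rfl⟩
    have hyz : y = x i + w * z := by
      rw [hz]
      field_simp
      ring
    have hz0 : 0 < z := by
      rw [hz]
      exact div_pos (by linarith) hw
    have hz1 : z < 1 := by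
      rw [hz, div_lt_one hw]
      linarith
    have hk := (kks_level (η := η) (r := r) hθ hc hs i hi z hz0 hz1).1
    have hph := phase_le (q := q) hs i hi.le
    obtain ⟨hm0, hm1⟩ := kapS_mem (r := r) hη hη1 hθ _ hph z hz0 hz1
    obtain ⟨z1, hz1d⟩ : ∃ z1, z1 = kap η θ r (z + i * (s / w / q)) - i * (s / w / q) := ⟨_, rfl⟩
    rw [← hz1d] at hk hm0 hm1
    have hki : kks η θ x q w (s / w) r y = x i + w * z1 := by rw [hyz, hk]
    have hF1 : F (x i + w * z1) =
        w * (kap η θ r (z + (i + 1 : ℕ) * (s / w / q)) - kap η θ r (z + i * (s / w / q)) -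
          s / w / q) := by
      rw [hF, Finset.sum_eq_single i]
      · have e1 : (x i + w * z1 - x i) / w = z1 := by
          field_simp
          ring
        have e2 : z1 + i * (s / w / q) = kap η θ r (z + i * (s / w / q)) := by
          rw [hz1d]
          ring
        have e3 : z + i * (s / w / q) + s / w / q = z + (i + 1 : ℕ) * (s / w / q) := by
          push_cast
          ring
        rw [e1, e2, hH.eq, e3]
      · intro j hj hji
        have h2 : x i < x i + w * z1 := by
          have := mul_pos hw hm0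
          linarith
        have h3 : x i + w * z1 < x i + w := by
          have := mul_lt_mul_of_pos_left hm1 hw
          linarith
        rw [MemS_H hH hq hs j (Finset.mem_range.1 hj) _
          (MemS_outside hc i j hi (Finset.mem_range.1 hj) hji _ h2 h3), mul_zero]
      · intro h
        exact absurd (Finset.mem_range.2 hi) h
    rw [hki, hF1, MemS_lev_iem hl hc i hi z1 hm0 hm1]
    by_cases hiq : i + 1 < q
    · rw [if_pos hiq]
      have hY : iem p l y = x (i + 1) + w * z := by
        rw [hyz, MemS_lev_iem hl hc i hi z hz0 hz1, if_pos hiq]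
      rw [hY, (kks_level (η := η) (r := r) hθ hc hs (i + 1) hiq z hz0 hz1).1, hz1d]
      push_cast
      ring
    · rw [if_neg hiq]
      have hiq' : i + 1 = q := by omega
      have hY : iem p l y = x 0 + s + w * z := by
        rw [hyz, MemS_lev_iem hl hc i hi z hz0 hz1, if_neg hiq]
      have hsum : kks η θ x q w (s / w) r (iem p l y) =
          iem p l y + w * (η * Real.cos r) * θ ((iem p l y - x 0) / w + (0 : ℕ) * (s / w / q)) := by
        unfold kks
        rw [Finset.sum_eq_single 0]
        · intro j hj hj0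
          have hjq := Finset.mem_range.1 hj
          by_contra hne
          have hne' : θ ((iem p l y - x j) / w + j * (s / w / q)) ≠ 0 := by
            intro h
            rw [h, mul_zero] at hne
            exact hne rfl
          obtain ⟨i', hi', h2, h3, h4, _⟩ := MemS_back hl hθ hc hs y hy j hjq hne'
          have h5 := MemS_unique hc i i' hi hi' y h0 h1 h2 h3
          have h6 := h4 (by omega)
          omega
        · intro h
          exact absurd (Finset.mem_range.2 (by omega)) h
      rw [hsum, hY, hz1d, hiq']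
      have e1 : (x 0 + s + w * z - x 0) / w + (0 : ℕ) * (s / w / q) = z + s / w := by
        push_cast
        field_simp
        ring
      have e2 : (q : ℝ) * (s / w / q) = s / w := by
        field_simp
      have e3 : (i : ℝ) = q - 1 := by
        rw [← hiq']
        push_cast
        ring
      rw [e1, e2]
      have e4 : kap η θ r (z + s / w) = z + s / w + η * Real.cos r * θ (z + s / w) := rfl
      rw [e4]
      have e5 : (i : ℝ) * (s / w / q) + s / w / q = s / w := by
        rw [e3]
        field_simp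
        ring
      have e6 : w * (s / w) = s := by
        field_simp
      linear_combination w * e5
  · have hno : ∀ i < q, y ≤ x i ∨ x i + w ≤ y := by
      intro i hi
      by_contra h
      push Not at h
      exact hex ⟨i, hi, h.1, h.2⟩
    have hk : kks η θ x q w (s / w) r y = y := kks_off hθ hc hs y hno
    have hFy : F y = 0 := by
      rw [hF]
      apply Finset.sum_eq_zero
      intro j hj
      rw [MemS_H hH hq hs j (Finset.mem_range.1 hj) _
        (MemS_off hw j y (hno j (Finset.mem_range.1 hj))), mul_zero]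
    rw [hk, hFy, add_zero]
    unfold kks
    rw [Finset.sum_eq_zero, add_zero]
    intro j hj
    by_contra hne
    have hne' : θ ((iem p l y - x j) / w + j * (s / w / q)) ≠ 0 := by
      intro h
      rw [h, mul_zero] at hne
      exact hne rfl
    obtain ⟨i', hi', h2, h3, _, _⟩ := MemS_back hl hθ hc hs y hy j (Finset.mem_range.1 hj) hne'
    exact hex ⟨i', hi', h2, h3⟩

/-- PROOF (compare `mem_conjClass` in Mem.lean).  `h = kks η θ x q w (s / w) r`.
`-1 < deriv (disp g) y`: at most one term of the sum has nonzero derivative (disjoint levels),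
and each term has derivative `deriv (H r (σ/q)) (..) > -1`. -/
theorem mem_conjClassS (R : ℕ) (hl : ∀ i, 0 < l i) (hη : 0 < η) (hη1 : η < 1)
    (hθ : IsProfile θ) (hH : IsBump η θ H) (hc : IsCylinder p l x q w s)
    (hs : |s / w| ≤ 1 / 32) (hr0 : 0 ≤ Real.cos r) (hr1 : Real.cos r < 1) (g : Disp R l)
    (hg : ∀ y, disp g y = ∑ i ∈ Finset.range q,
      w * H r (s / w / q) ((y - x i) / w + i * (s / w / q))) :
    g ∈ ConjClass R p l η := by
  have hw := hc.w_pos
  have hq := hc.q_pos
  have hcos : |Real.cos r| = Real.cos r := abs_of_nonneg hr0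
  obtain ⟨hk1, hk2⟩ := kks_deriv (r := r) hη hθ hc hs
  have htot : 0 < tot l := by
    obtain ⟨h1, h2⟩ := MemS_nonneg hc hl 0 (by omega)
    linarith
  refine ⟨fun y => ?_, kks η θ x q w (s / w) r, ?_, ?_, ?_, ?_, ?_, ?_⟩
  · have hgf : disp g = fun y => ∑ i ∈ Finset.range q,
        w * H r (s / w / q) ((y - x i) / w + i * (s / w / q)) := funext hg
    have hd : HasDerivAt (disp g) (∑ i ∈ Finset.range q,
        deriv (H r (s / w / q)) ((y - x i) / w + i * (s / w / q))) y := by
      rw [hgf]
      apply HasDerivAt.fun_sum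
      intro i _
      have h2 : HasDerivAt (H r (s / w / q))
          (deriv (H r (s / w / q)) ((y - x i) / w + i * (s / w / q)))
          ((y - x i) / w + i * (s / w / q)) :=
        (((hH.smooth r (s / w / q)).differentiable (by simp)) _).hasDerivAt
      have h3 : HasDerivAt (fun y => (y - x i) / w + i * (s / w / q)) (1 / w) y :=
        (((hasDerivAt_id y).sub_const (x i)).div_const w).add_const _
      have h4 : HasDerivAt (fun y => H r (s / w / q) ((y - x i) / w + i * (s / w / q)))
          (deriv (H r (s / w / q)) ((y - x i) / w + i * (s / w / q)) * (1 / w)) y :=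
        HasDerivAt.comp (h₂ := H r (s / w / q))
          (h := fun y => (y - x i) / w + i * (s / w / q)) y h2 h3
      have h5 := h4.const_mul w
      have h6 : w * (deriv (H r (s / w / q)) ((y - x i) / w + i * (s / w / q)) * (1 / w)) =
          deriv (H r (s / w / q)) ((y - x i) / w + i * (s / w / q)) := by
        field_simp
      rw [h6] at h5
      exact h5
    rw [hd.deriv]
    have h1q := phase_le (q := q) hs 1 hq
    rw [Nat.cast_one, one_mul] at h1q
    have hvan : ∀ j < q, ((y - x j) / w ≤ 0 ∨ 1 ≤ (y - x j) / w) →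
        deriv (H r (s / w / q)) ((y - x j) / w + j * (s / w / q)) = 0 := by
      intro j hj hz
      have hph := abs_le.1 (phase_le (q := q) hs j hj.le)
      have h1 : H r (s / w / q) =ᶠ[nhds ((y - x j) / w + j * (s / w / q))]
          fun _ => (0 : ℝ) := by
        rcases hz with h | h
        · filter_upwards [Iio_mem_nhds (show (y - x j) / w + j * (s / w / q) < 1 / 8 by
            linarith [hph.2])] with t ht
          exact hH.supp r _ t (by linarith) (Or.inl (le_of_lt ht))
        · filter_upwards [Ioi_mem_nhds (show 7 / 8 < (y - x j) / w + j * (s / w / q) by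
            linarith [hph.1])] with t ht
          exact hH.supp r _ t (by linarith) (Or.inr (le_of_lt ht))
      rw [h1.deriv_eq]
      simp
    by_cases hex : ∃ i, i < q ∧ x i < y ∧ y < x i + w
    · obtain ⟨i, hi, h0, h1⟩ := hex
      rw [Finset.sum_eq_single i]
      · exact hH.deriv_gt r _ _
      · intro j hj hji
        exact hvan j (Finset.mem_range.1 hj)
          (MemS_outside hc i j hi (Finset.mem_range.1 hj) hji y h0 h1)
      · intro h
        exact absurd (Finset.mem_range.2 hi) h
    · rw [Finset.sum_eq_zero]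
      · norm_num
      · intro j hj
        refine hvan j (Finset.mem_range.1 hj) (MemS_off hw j y ?_)
        by_contra h
        push Not at h
        exact hex ⟨j, Finset.mem_range.1 hj, h.1, h.2⟩
  · exact (hk1.of_le (by exact_mod_cast le_top)).contDiffOn
  · exact kks_off hθ hc hs 0 fun i hi => Or.inl (MemS_nonneg hc hl i hi).1
  · exact kks_off hθ hc hs _ fun i hi => Or.inr (MemS_nonneg hc hl i hi).2
  · intro y hy
    have hdiff : DifferentiableAt ℝ (kks η θ x q w (s / w) r) y :=
      (hk1.differentiable (by simp)) y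
    rw [hdiff.derivWithin ((uniqueDiffOn_Icc htot) y hy)]
    refine (hk2 y).trans_lt ?_
    rw [hcos]
    calc η * Real.cos r < η * 1 := mul_lt_mul_of_pos_left hr1 hη
      _ = η := mul_one η
  · intro y _
    exact kks_dom hη hη1 hθ hc hs y
  · intro y hy
    exact kks_rel hl hη hη1 hθ hH hc hs (disp g) hg y hy

end Pool.Agent.W_ef8234_h97
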