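import Mathlib
import Pool.Agent.W_ef8234_h97.MemS
import Pool.Agent.W_ef8234_h97.NotMem

/-! # At `r = 0` the deformation has no conjugacy with `|h' - 1| < η`, version with phases -/

namespace Pool.Agent.W_ef8234_h97

open scoped ContDiff

variable {d : ℕ}

variable {p : Equiv.Perm (Fin d)} {l : Fin d → ℝ} {x : ℕ → ℝ} {q : ℕ} {w s η r : ℝ}
  {θ : ℝ → ℝ} {H : ℝ → ℝ → ℝ → ℝ}

/-- PROOF.  Exactly as `not_mem_conjClass` in NotMem.lean, with `kks` in place of `kk` (at level
`0` the phase is `0`, so `deriv kks (x 0 + w z) = 1 + η deriv θ z`). -/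
theorem not_mem_conjClassS (R : ℕ) (hR : 1 ≤ R) (hl : ∀ i, 0 < l i) (hη : 0 < η) (hη1 : η < 1)
    (hθ : IsProfile θ) (hH : IsBump η θ H) (hc : IsCylinder p l x q w s)
    (hs0 : s ≠ 0) (hs : |s / w| ≤ 1 / 32) (g : Disp R l)
    (hg : ∀ y, disp g y = ∑ i ∈ Finset.range q,
      w * H 0 (s / w / q) ((y - x i) / w + i * (s / w / q))) :
    g ∉ ConjClass R p l η := by
  rintro ⟨-, h, hh, hh0, hhL, hhη, hhdom, hhrel⟩
  have hw := hc.w_pos
  have hq := hc.q_pos
  have hσ0 : s / w ≠ 0 := div_ne_zero hs0 hw.ne'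
  obtain ⟨hksm, hkder⟩ := kks_deriv (r := 0) hη hθ hc hs
  have hk1 : ContDiff ℝ 1 (kks η θ x q w (s / w) 0) := hksm.of_le (by exact_mod_cast le_top)
  have hkpos : ∀ y, 0 < deriv (kks η θ x q w (s / w) 0) y := fun y => by
    have := hkder y
    rw [Real.cos_zero, abs_one, mul_one] at this
    have := (abs_le.1 this).1
    linarith
  have hF : Differentiable ℝ (disp g) := fun y => by
    have := g.2.1 ⟨0, hR⟩ y
    exact this.differentiableAt
  have hkrel := fun y hy => kks_rel (r := 0) hl hη hη1 hθ hH hc hs (disp g) hg y hy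
  have main : ∀ z, 3 / 8 ≤ z → z ≤ 5 / 8 → ∀ m : ℕ,
      (∀ j < m, 0 < z + j * (s / w) ∧ z + j * (s / w) < 1) →
      0 < z + m * (s / w) → z + m * (s / w) < 1 →
      ∃ a b : ℝ, |a - 1| < η ∧ |b - 1| < η ∧
        b * (1 + η * deriv θ z) = a * (1 + η * deriv θ (z + m * (s / w))) := by
    intro z hz0 hz1 m hj hm0 hm1
    obtain ⟨h1, h2⟩ := turns hl hc z m hj
    have hy : x 0 + w * z ∈ dom l :=
      (turn_level hl hc z (by linarith) (by linarith) 0 (by omega)).1
    obtain ⟨a, b, ha, hb, hab⟩ := same_distortion hl hη1 (kks η θ x q w (s / w) 0) h (disp g)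
      hF hk1 hkpos (kks_dom hη hη1 hθ hc hs) hkrel hh hh0 hhL hhη hhdom hhrel
      (x 0 + w * z) (m * q) h1 hy
    refine ⟨a, b, ha, hb, ?_⟩
    rw [h2, (kks_level (r := 0) hθ hc hs 0 (by omega) z (by linarith) (by linarith)).2,
      (kks_level (r := 0) hθ hc hs 0 (by omega) _ hm0 hm1).2, Real.cos_zero, mul_one,
      Nat.cast_zero, zero_mul, add_zero, add_zero] at hab
    exact hab
  rcases lt_or_gt_of_ne hσ0 with hneg | hpos
  · obtain ⟨m, hm1, hm2⟩ := notMem_steps (s / w) hσ0 hs (5 / 8) (by norm_num) (by norm_num)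
      (3 / 8) (Or.inr ⟨by norm_num, hneg⟩) (by norm_num) (by norm_num)
    have hm3 := abs_le.1 hm2
    obtain ⟨a, b, ha, hb, hab⟩ := main (5 / 8) (by norm_num) (by norm_num) m hm1
      (by linarith [hm3.1]) (by linarith [hm3.2])
    rw [hθ.down (5 / 8) (by norm_num), hθ.up _ hm2] at hab
    have ha' := abs_lt.1 ha
    have hb' := abs_lt.1 hb
    have e1 : b * (1 + η * -1) < (1 + η) * (1 - η) := by
      have : b * (1 - η) < (1 + η) * (1 - η) :=
        mul_lt_mul_of_pos_right (by linarith) (by linarith)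
      calc b * (1 + η * -1) = b * (1 - η) := by ring
        _ < _ := this
    have e2 : (1 - η) * (1 + η) < a * (1 + η * 1) := by
      have : (1 - η) * (1 + η) < a * (1 + η) :=
        mul_lt_mul_of_pos_right (by linarith) (by linarith)
      calc (1 - η) * (1 + η) < a * (1 + η) := this
        _ = _ := by ring
    have e3 : (1 + η) * (1 - η) = (1 - η) * (1 + η) := by ring
    linarith
  · obtain ⟨m, hm1, hm2⟩ := notMem_steps (s / w) hσ0 hs (3 / 8) (by norm_num) (by norm_num)
      (5 / 8) (Or.inl ⟨by norm_num, hpos⟩) (by norm_num) (by norm_num)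
    have hm3 := abs_le.1 hm2
    obtain ⟨a, b, ha, hb, hab⟩ := main (3 / 8) (by norm_num) (by norm_num) m hm1
      (by linarith [hm3.1]) (by linarith [hm3.2])
    rw [hθ.up (3 / 8) (by norm_num), hθ.down _ hm2] at hab
    have ha' := abs_lt.1 ha
    have hb' := abs_lt.1 hb
    have e1 : a * (1 + η * -1) < (1 + η) * (1 - η) := by
      have : a * (1 - η) < (1 + η) * (1 - η) :=
        mul_lt_mul_of_pos_right (by linarith) (by linarith)
      calc a * (1 + η * -1) = a * (1 - η) := by ring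
        _ < _ := this
    have e2 : (1 - η) * (1 + η) < b * (1 + η * 1) := by
      have : (1 - η) * (1 + η) < b * (1 + η) :=
        mul_lt_mul_of_pos_right (by linarith) (by linarith)
      calc (1 - η) * (1 + η) < b * (1 + η) := this
        _ = _ := by ring
    have e3 : (1 + η) * (1 - η) = (1 - η) * (1 + η) := by ring
    linarith

end Pool.Agent.W_ef8234_h97
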