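import Mathlib
import Pool.Agent.W_ef8234_h97.NotMemS
import Pool.Agent.W_ef8234_h97.MkS
import Pool.Agent.W_ef8234_h97.Key

/-! # The necessary Diophantine condition -/

namespace Pool.Agent.W_ef8234_h97

open scoped ContDiff Topology

variable {d : ℕ}

/-- PROOF.  `θ`, `H`, `C₀` of `exists_profile`, `exists_bump`, `IsBump.small R`.  For a cylinder
put `σ = s / w`, `τ i = i (σ / q)`, `f r i z = H r (σ / q) (z + τ i)`; this is a `BumpFam`
(`IsBump.supp`: `|σ/q| ≤ 1/32 ≤ 1/16`, `|τ i| ≤ 1/32` for `i < q`; for `i ≥ q` replace `f r i`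
by `0`), and `iteratedDeriv j (f r i) z = iteratedDeriv j (H r (σ/q)) (z + τ i)`
(`iteratedDeriv_comp_add_const`).  `gstar = Φ (f 0)`: `|iteratedDeriv j (f 0 i) z| ≤ C₀ |σ| / q`,
so `‖gstar‖ ≤ w^(1-R) C₀ |s| / (w q) = C₀ |s| / (q w^R)` (`mkS_norm_le`).
`gstar ∉ ConjClass` (`not_mem_conjClassS`).  Given `ε`, take `r` of `IsBump.approx R (σ/q)` with
`ε' = ε w^R / 2`: `Φ (f r) ∈ ConjClass` (`mem_conjClassS`) and
`‖Φ (f r) - gstar‖ ≤ w^(1-R) ε' < ε`. -/
theorem keyS (R : ℕ) (hR : 1 ≤ R) (η : ℝ) (hη : 0 < η) (hη1 : η < 1) :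
    ∃ C : ℝ, 0 < C ∧ ∀ (p : Equiv.Perm (Fin d)) (l : Fin d → ℝ), (∀ i, 0 < l i) →
      ∀ (x : ℕ → ℝ) (q : ℕ) (w s : ℝ), IsCylinder p l x q w s → w ≤ 1 → s ≠ 0 →
        |s| ≤ w / 32 →
      ∃ gstar : Disp R l, ‖gstar‖ ≤ C * |s| / (q * w ^ R) ∧ gstar ∉ ConjClass R p l η ∧
        ∀ ε > 0, ∃ g ∈ ConjClass R p l η, ‖g - gstar‖ < ε := by
  classical
  obtain ⟨θ, hθ⟩ := exists_profile
  obtain ⟨H, hH⟩ := exists_bump hη hη1 hθ
  obtain ⟨C, hC0, hC⟩ := hH.small R
  refine ⟨C + 1, by linarith, ?_⟩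
  intro p l hl x q w s hc hw1 hs0 hs
  have hw := hc.w_pos
  have hq := hc.q_pos
  have hq' : (0 : ℝ) < q := by exact_mod_cast hq
  have hq1 : (1 : ℝ) ≤ q := by exact_mod_cast hq
  have hσ : |s / w| ≤ 1 / 32 := by
    rw [abs_div, abs_of_pos hw, div_le_iff₀ hw]
    linarith
  have hσq : |s / w / q| ≤ 1 / 16 := by
    rw [abs_div, abs_of_pos hq']
    exact ((div_le_self (abs_nonneg _) hq1).trans hσ).trans (by norm_num)
  obtain ⟨Φ, hΦ⟩ := exists_mkS R hl hc
  obtain ⟨f, hfdef⟩ : ∃ f : ℝ → ℕ → ℝ → ℝ, ∀ r i z, f r i z =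
      if i < q then H r (s / w / q) (z + i * (s / w / q)) else 0 := ⟨_, fun _ _ _ => rfl⟩
  have hf1 : ∀ r i, i < q → f r i = fun z => H r (s / w / q) (z + i * (s / w / q)) := by
    intro r i hi
    funext z
    rw [hfdef, if_pos hi]
  have hf2 : ∀ r i, ¬ i < q → f r i = fun _ => 0 := by
    intro r i hi
    funext z
    rw [hfdef, if_neg hi]
  have hf : ∀ r, BumpFam (f r) := by
    intro r
    refine ⟨fun i => ?_, fun i z hz => ?_⟩
    · by_cases hi : i < q
      · rw [hf1 r i hi]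
        exact (hH.smooth r _).comp (contDiff_id.add contDiff_const)
      · rw [hf2 r i hi]
        exact contDiff_const
    · by_cases hi : i < q
      · rw [hf1 r i hi]
        have hph := abs_le.1 (phase_le hσ i hi.le)
        refine hH.supp r _ _ hσq ?_
        rcases hz with hz | hz
        · left; linarith [hph.2]
        · right; linarith [hph.1]
      · rw [hf2 r i hi]
  have hder : ∀ r i, i < q → ∀ j z, iteratedDeriv j (f r i) z =
      iteratedDeriv j (H r (s / w / q)) (z + i * (s / w / q)) := by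
    intro r i hi j z
    rw [hf1 r i hi, iteratedDeriv_comp_add_const]
  have hdisp : ∀ r y, disp (Φ (f r)) y = ∑ i ∈ Finset.range q,
      w * H r (s / w / q) ((y - x i) / w + i * (s / w / q)) := by
    intro r y
    have h1 := hΦ (f r) (hf r) 0 y
    unfold disp
    rw [h1]
    refine Finset.sum_congr rfl fun i hi => ?_
    rw [hf1 r i (Finset.mem_range.1 hi)]
    simp
  have hwR : 0 < w ^ R := by positivity
  refine ⟨Φ (f 0), ?_, not_mem_conjClassS R hR hl hη hη1 hθ hH hc hs0 hσ _ (hdisp 0), ?_⟩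
  · have h1 := (mkS_norm_le R hc hw1 Φ hΦ (f 0) (f 0) (hf 0) (hf 0) (C * |s / w / q|)
      (by positivity) (fun i _ j _ z => by
        rw [sub_self, abs_zero]; positivity)).2 (fun i hi j hj z => by
          rw [hder 0 i hi j]
          exact hC _ hσq j hj _)
    refine h1.trans ?_
    rw [abs_div, abs_div, abs_of_pos hw, abs_of_pos hq']
    have h2 : w * w⁻¹ ^ R * (C * (|s| / w / q)) = C * |s| / (q * w ^ R) := by
      rw [inv_pow]
      field_simp
    rw [h2]
    gcongr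
    linarith
  · intro ε hε
    obtain ⟨r, hr0, hr1, hr⟩ := hH.approx R (s / w / q) hσq (w ^ R * (ε / 2)) (by positivity)
    refine ⟨Φ (f r), mem_conjClassS R hl hη hη1 hθ hH hc hσ hr0 hr1 _ (hdisp r), ?_⟩
    have h1 := (mkS_norm_le R hc hw1 Φ hΦ (f r) (f 0) (hf r) (hf 0) (w ^ R * (ε / 2))
      (by positivity) (fun i hi j hj z => by
        rw [hder r i hi j, hder 0 i hi j]
        exact hr j hj _)).1
    have h2 : w * w⁻¹ ^ R * (w ^ R * (ε / 2)) = w * (ε / 2) := by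
      rw [inv_pow]
      field_simp
    rw [h2] at h1
    refine lt_of_le_of_lt h1 ?_
    calc w * (ε / 2) ≤ 1 * (ε / 2) := mul_le_mul_of_nonneg_right hw1 (by positivity)
      _ < ε := by linarith

end Pool.Agent.W_ef8234_h97
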