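import Mathlib
import Pool.Agent.W_ef8234_h97.KeyS

/-! # The necessary Diophantine condition -/

namespace Pool.Agent.W_ef8234_h97

open scoped ContDiff Topology

variable {d : ℕ}

/-- PROOF.  If `S` is locally closed and coincides with the class near `0`, there is a `δ > 0`
such that every limit `gstar` of elements of the class with `‖gstar‖ < δ` is in the class (see
the proof of `not_locallyClosed` in Key.lean).  With `keyS`: `C |s| / (q w^R) ≥ δ` for every
cylinder as in `keyS`.  Take `c = δ / C`. -/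
theorem necessary_small (p : Equiv.Perm (Fin d)) (l : Fin d → ℝ) (hl : ∀ i, 0 < l i)
    (R : ℕ) (hR : 1 ≤ R) (η : ℝ) (hη : 0 < η) (hη1 : η < 1)
    (h : ∃ S : Set (Disp R l), IsLocallyClosed S ∧
      ∀ᶠ g in 𝓝 (0 : Disp R l), (g ∈ S ↔ g ∈ ConjClass R p l η)) :
    ∃ c : ℝ, 0 < c ∧ ∀ (x : ℕ → ℝ) (q : ℕ) (w s : ℝ), IsCylinder p l x q w s → w ≤ 1 →
      s ≠ 0 → |s| ≤ w / 32 → c * q * w ^ R ≤ |s| := by
  rcases Nat.eq_zero_or_pos d with hd | hd
  · subst hd
    refine ⟨1, one_pos, fun x q w s hc => ?_⟩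
    obtain ⟨a, -⟩ := hc.inside 0 (by have := hc.q_pos; omega)
    exact a.elim0
  obtain ⟨S, hS, hev⟩ := h
  have h0 : (0 : Disp R l) ∈ S := hev.self_of_nhds.2 (zero_mem hd p l hl R η hη)
  have hS' : ∀ x ∈ S, ∃ U, x ∈ U ∧ IsOpen U ∧ U ∩ closure S ⊆ S :=
    ((isLocallyClosed_tfae S).out 0 3).1 hS
  obtain ⟨U, h0U, hU, hUS⟩ := hS' 0 h0
  obtain ⟨δ, hδ, hball⟩ := Metric.eventually_nhds_iff.1 (hev.and (hU.mem_nhds h0U))
  obtain ⟨C, hC, hkey⟩ := keyS (d := d) R hR η hη hη1
  refine ⟨δ / C, by positivity, ?_⟩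
  intro x q w s hc hw1 hs0 hs
  have hw := hc.w_pos
  have hq := hc.q_pos
  have hq' : (0 : ℝ) < q := by exact_mod_cast hq
  obtain ⟨gstar, hg1, hg2, hg3⟩ := hkey p l hl x q w s hc hw1 hs0 hs
  by_contra hlt
  push Not at hlt
  have hsmall : ‖gstar‖ < δ := by
    refine lt_of_le_of_lt hg1 ?_
    have hwR : 0 < w ^ R := by positivity
    rw [div_lt_iff₀ (by positivity)]
    have h1 : C * |s| < C * (δ / C * q * w ^ R) := mul_lt_mul_of_pos_left hlt hC
    have h2 : C * (δ / C * q * w ^ R) = δ * (q * w ^ R) := by field_simp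
    linarith
  have hdist : ∀ g : Disp R l, ‖g‖ < δ → dist g 0 < δ := fun g hg =>
    lt_of_eq_of_lt (dist_zero_right g) hg
  have hgs := hball (hdist gstar hsmall)
  refine hg2 (hgs.1.1 (hUS ⟨hgs.2, ?_⟩))
  rw [Metric.mem_closure_iff]
  intro ε hε
  obtain ⟨g, hg, hgn⟩ := hg3 (min ε (δ - ‖gstar‖)) (lt_min hε (by linarith))
  have h1 := lt_of_lt_of_le hgn (min_le_left _ _)
  have h2 := lt_of_lt_of_le hgn (min_le_right _ _)
  have h3 : ‖g‖ < δ := by
    have h4 : ‖g‖ ≤ ‖gstar‖ + ‖g - gstar‖ := by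
      have h5 : ‖g.1‖ ≤ ‖gstar.1‖ + ‖g.1 - gstar.1‖ := by
        have h6 := norm_add_le gstar.1 (g.1 - gstar.1)
        rwa [add_sub_cancel] at h6
      exact h5
    linarith
  refine ⟨g, (hball (hdist g h3)).1.2 hg, ?_⟩
  rw [dist_comm]
  exact lt_of_eq_of_lt (dist_eq_norm g gstar) h1

/-- The levels are disjoint subintervals of `(0, tot l)`.  PROOF.  Their total length `q w` is at
most `tot l` (measure of a disjoint union, or sort the `x i`). -/
theorem cylinder_area {p : Equiv.Perm (Fin d)} {l : Fin d → ℝ} {x : ℕ → ℝ} {q : ℕ} {w s : ℝ}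
    (hl : ∀ i, 0 < l i) (hc : IsCylinder p l x q w s) : q * w ≤ tot l := by
  have hw := hc.w_pos
  have hsub : ⋃ i ∈ Finset.range q, Set.Ioo (x i) (x i + w) ⊆ Set.Ioo 0 (tot l) := by
    intro y hy
    simp only [Set.mem_iUnion, Finset.mem_range] at hy
    obtain ⟨i, hi, hy⟩ := hy
    obtain ⟨a, ha1, ha2, -⟩ := hc.inside i hi
    refine dom_subset l hl (Set.mem_iUnion.2 ⟨a, ?_, ?_⟩)
    · exact lt_of_le_of_lt ha1 hy.1
    · exact lt_of_lt_of_le hy.2 ha2
  have hdis : Set.PairwiseDisjoint (↑(Finset.range q)) (fun i => Set.Ioo (x i) (x i + w)) := by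
    intro i hi j hj hij
    rw [Finset.coe_range, Set.mem_Iio] at hi hj
    change Disjoint (Set.Ioo (x i) (x i + w)) (Set.Ioo (x j) (x j + w))
    rw [Set.Ioo_disjoint_Ioo]
    rcases lt_or_gt_of_ne hij with h | h
    · rcases hc.disjoint i j h hj with h' | h'
      · exact (min_le_left _ _).trans (h'.trans (le_max_right _ _))
      · exact (min_le_right _ _).trans (h'.trans (le_max_left _ _))
    · rcases hc.disjoint j i h hi with h' | h'
      · exact (min_le_right _ _).trans (h'.trans (le_max_left _ _))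
      · exact (min_le_left _ _).trans (h'.trans (le_max_right _ _))
  have h1 := MeasureTheory.measure_biUnion_finset (μ := MeasureTheory.volume) hdis
    (fun i _ => measurableSet_Ioo)
  have h2 := MeasureTheory.measure_mono (μ := MeasureTheory.volume) hsub
  rw [h1] at h2
  simp only [Real.volume_Ioo, add_sub_cancel_left, Finset.sum_const, Finset.card_range,
    sub_zero, nsmul_eq_mul] at h2
  have htot : 0 ≤ tot l := by
    unfold tot
    exact Finset.sum_nonneg fun i _ => (hl i).le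
  have h3 : ENNReal.ofReal (q * w) ≤ ENNReal.ofReal (tot l) := by
    rw [ENNReal.ofReal_mul (by positivity), ENNReal.ofReal_natCast]
    exact h2
  exact (ENNReal.ofReal_le_ofReal_iff htot).1 h3

/-- PROOF.  Let `c₀` be the constant of `necessary_small`, `L = tot l`, and `c` small.  Given a
cylinder with `s ≠ 0`: let `w' = min w 1`; `(x, q, w', s)` is a cylinder too.
If `|s| ≤ w' / 32` then `c₀ q w'^R ≤ |s|`, and `w^R ≤ max(1, L)^R w'^R` as `w ≤ L`
(`cylinder_area`, `q ≥ 1`).  If `|s| > w' / 32`: `c q w^R = c (q w) w^(R-1) ≤ c L w^(R-1)`, and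
since `R ≥ 2`, `w ≤ L`, `w ≤ max(1, L) w'`: `w^(R-1) ≤ L^(R-2) max(1,L) w'`; so
`c q w^R ≤ w' / 32` if `c ≤ 1 / (32 L^(R-1) max(1, L))`. -/
theorem necessary (p : Equiv.Perm (Fin d)) (l : Fin d → ℝ) (hl : ∀ i, 0 < l i)
    (R : ℕ) (hR : 2 ≤ R) (η : ℝ) (hη : 0 < η) (hη1 : η < 1)
    (h : ∃ S : Set (Disp R l), IsLocallyClosed S ∧
      ∀ᶠ g in 𝓝 (0 : Disp R l), (g ∈ S ↔ g ∈ ConjClass R p l η)) :
    ∃ c : ℝ, 0 < c ∧ ∀ (x : ℕ → ℝ) (q : ℕ) (w s : ℝ), IsCylinder p l x q w s →
      s ≠ 0 → c * q * w ^ R ≤ |s| := by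
  obtain ⟨c₀, hc₀, hsm⟩ := necessary_small p l hl R (by omega) η hη hη1 h
  have hM1 : 1 ≤ max 1 (tot l) := le_max_left _ _
  have hML : tot l ≤ max 1 (tot l) := le_max_right _ _
  generalize max 1 (tot l) = M at hM1 hML
  have hM0 : 0 < M := by linarith
  have hMR : 0 < M ^ R := by positivity
  refine ⟨min c₀ (1 / 32) / M ^ R, by positivity, ?_⟩
  intro x q w s hc hs0
  have hw := hc.w_pos
  have hq := hc.q_pos
  have hq1 : (1 : ℝ) ≤ q := by exact_mod_cast hq
  have harea := cylinder_area hl hc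
  have hwL : w ≤ tot l := by nlinarith
  have hwM : w ≤ M := hwL.trans hML
  have hw'0 : 0 < min w 1 := lt_min hw one_pos
  have hw'w : min w 1 ≤ w := min_le_left _ _
  have hww' : w ≤ M * min w 1 := by
    rcases le_total w 1 with h1 | h1
    · rw [min_eq_left h1]
      nlinarith
    · rw [min_eq_right h1]
      linarith
  have hc' : IsCylinder p l x q (min w 1) s := by
    refine ⟨hq, hw'0, fun i hi => ?_, fun i j hij hj => ?_⟩
    · obtain ⟨a, ha1, ha2, ha3⟩ := hc.inside i hi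
      exact ⟨a, ha1, by linarith, ha3⟩
    · rcases hc.disjoint i j hij hj with h1 | h1
      · left; linarith
      · right; linarith
  rw [div_mul_eq_mul_div, div_mul_eq_mul_div, div_le_iff₀ hMR]
  rcases le_or_gt |s| (min w 1 / 32) with h1 | h1
  · have h2 := hsm x q (min w 1) s hc' (min_le_right _ _) hs0 h1
    have h3 : w ^ R ≤ M ^ R * (min w 1) ^ R := by
      rw [← mul_pow]
      exact pow_le_pow_left₀ hw.le hww' R
    calc min c₀ (1 / 32) * q * w ^ R ≤ c₀ * q * (M ^ R * (min w 1) ^ R) := by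
          gcongr
          exact min_le_left _ _
      _ = (c₀ * q * (min w 1) ^ R) * M ^ R := by ring
      _ ≤ |s| * M ^ R := mul_le_mul_of_nonneg_right h2 hMR.le
  · obtain ⟨m, rfl⟩ := Nat.exists_eq_add_of_le hR
    have h2 : w ^ (2 + m) * q ≤ M ^ (2 + m) * min w 1 := by
      calc w ^ (2 + m) * q = (q * w) * w ^ m * w := by ring
        _ ≤ M * M ^ m * (M * min w 1) := by
          have := harea.trans hML
          gcongr
        _ = M ^ (2 + m) * min w 1 := by ring
    calc min c₀ (1 / 32) * q * w ^ (2 + m) = min c₀ (1 / 32) * (w ^ (2 + m) * q) := by ring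
      _ ≤ 1 / 32 * (M ^ (2 + m) * min w 1) :=
        mul_le_mul (min_le_right _ _) h2 (by positivity) (by norm_num)
      _ = (min w 1 / 32) * M ^ (2 + m) := by ring
      _ ≤ |s| * M ^ (2 + m) := mul_le_mul_of_nonneg_right h1.le hMR.le

end Pool.Agent.W_ef8234_h97
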