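import Mathlib
import Pool.Agent.W_ef8234_h97.Defs

/-! # Genericity -/

namespace Pool.Agent.W_ef8234_h97

variable {d : ℕ}

/-- PROOF.  Countable intersection (over `a ≠ 0`) of the open dense sets
`{l | ∑ i, a i * l i ≠ 0}` (complement of the kernel of a nonzero linear form).
`residual`: `eventually_countable_forall`, `IsOpen ∧ Dense → ∈ residual`
(`residual_of_dense_open`). -/
theorem residual_ratIndep : ∀ᶠ l in residual (Fin d → ℝ), RatIndep l := by
  unfold RatIndep
  rw [eventually_countable_forall]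
  intro a
  by_cases ha : a = 0
  · exact Filter.Eventually.of_forall fun _ _ => ha
  obtain ⟨i₀, hi₀⟩ : ∃ i, a i ≠ 0 := by
    by_contra hcon
    exact ha (funext fun i => not_not.1 (not_exists.1 hcon i))
  have hc : Continuous fun l : Fin d → ℝ => ∑ i, (a i : ℝ) * l i :=
    continuous_finsetSum _ fun i _ => continuous_const.mul (continuous_apply i)
  have hU : {l : Fin d → ℝ | ∑ i, (a i : ℝ) * l i ≠ 0} ∈ residual (Fin d → ℝ) := by
    refine residual_of_dense_open (isOpen_ne_fun hc continuous_const) fun l => ?_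
    have h1 : Filter.Tendsto (fun t : ℝ => l + t • (Pi.single i₀ (1 : ℝ) : Fin d → ℝ))
        (nhdsWithin 0 {0}ᶜ) (nhds l) := by
      have h2 : Continuous fun t : ℝ => l + t • (Pi.single i₀ (1 : ℝ) : Fin d → ℝ) := by fun_prop
      have h3 := (h2.tendsto 0).mono_left (nhdsWithin_le_nhds (s := {0}ᶜ))
      simpa using h3
    refine mem_closure_of_tendsto h1 ?_
    have h4 : ∀ t : ℝ, ∑ i, (a i : ℝ) * (l + t • (Pi.single i₀ (1 : ℝ) : Fin d → ℝ)) i =
        (∑ i, (a i : ℝ) * l i) + t * a i₀ := by
      intro t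
      simp only [Pi.add_apply, Pi.smul_apply, smul_eq_mul, mul_add, Finset.sum_add_distrib]
      congr 1
      rw [Finset.sum_eq_single i₀ (fun i _ hi => by rw [Pi.single_eq_of_ne hi]; ring)
        (fun h => absurd (Finset.mem_univ i₀) h), Pi.single_eq_same]
      ring
    have ha0 : (a i₀ : ℝ) ≠ 0 := Int.cast_ne_zero.2 hi₀
    by_cases h0 : ∑ i, (a i : ℝ) * l i = 0
    · filter_upwards [self_mem_nhdsWithin] with t ht
      rw [h4, h0, zero_add]
      exact mul_ne_zero ht ha0
    · have h5 : Filter.Tendsto (fun t : ℝ => (∑ i, (a i : ℝ) * l i) + t * a i₀)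
          (nhdsWithin 0 {0}ᶜ) (nhds (∑ i, (a i : ℝ) * l i)) := by
        have h6 : Continuous fun t : ℝ => (∑ i, (a i : ℝ) * l i) + t * a i₀ := by fun_prop
        have h7 := (h6.tendsto 0).mono_left (nhdsWithin_le_nhds (s := {0}ᶜ))
        simpa using h7
      filter_upwards [h5.eventually_ne h0] with t ht
      rw [h4]
      exact ht
  filter_upwards [hU] with l hl h
  exact absurd h hl

/-- PROOF.  `Liouvillian l` iff for all `K, N : ℕ` it holds with `ε = 1/(N+1)`; for fixed
`K, N` the set of such `l` is open (union of open sets `{l | ∀ i, M^K |l i - n i / M| < ε}`)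
and dense: given `l` and `δ`, choose `M` with `1/M < δ` and `n i = ⌊M l i⌋`; the point
`n / M` is in the set (error `0`) and within `δ` of `l`. -/
theorem residual_liouvillian : ∀ᶠ l in residual (Fin d → ℝ), Liouvillian l := by
  have hres : ∀ᶠ l : Fin d → ℝ in residual (Fin d → ℝ), ∀ K N : ℕ,
      ∃ (M : ℕ) (n : Fin d → ℤ), 1 ≤ M ∧
        ∀ i, (M : ℝ) ^ K * |l i - (n i : ℝ) / M| < 1 / ((N : ℝ) + 1) := by
    rw [eventually_countable_forall]
    intro K
    rw [eventually_countable_forall]
    intro N
    refine residual_of_dense_open ?_ fun l => ?_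
    · simp only [Set.ofPred_exists]
      refine isOpen_iUnion fun M => isOpen_iUnion fun n => IsOpen.and isOpen_const ?_
      simp only [Set.ofPred_forall]
      refine isOpen_iInter_of_finite fun i => isOpen_lt ?_ continuous_const
      exact continuous_const.mul ((continuous_apply i).sub continuous_const).abs
    · have h1 : Filter.Tendsto (fun m : ℕ => fun i : Fin d =>
          ((⌊((m : ℝ) + 1) * l i⌋ : ℤ) : ℝ) / ((m : ℝ) + 1)) Filter.atTop (nhds l) := by
        rw [tendsto_pi_nhds]
        intro i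
        rw [tendsto_iff_norm_sub_tendsto_zero]
        refine squeeze_zero (fun _ => norm_nonneg _) (fun m => ?_)
          tendsto_one_div_add_atTop_nhds_zero_nat
        have hm : (0 : ℝ) < (m : ℝ) + 1 := by positivity
        have h2 := Int.floor_le (((m : ℝ) + 1) * l i)
        have h3 := Int.lt_floor_add_one (((m : ℝ) + 1) * l i)
        have h4 : ((⌊((m : ℝ) + 1) * l i⌋ : ℤ) : ℝ) / ((m : ℝ) + 1) - l i =
            (((⌊((m : ℝ) + 1) * l i⌋ : ℤ) : ℝ) - ((m : ℝ) + 1) * l i) / ((m : ℝ) + 1) := by
          field_simp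
        rw [h4, Real.norm_eq_abs, abs_div, abs_of_pos hm]
        refine div_le_div_of_nonneg_right ?_ hm.le
        rw [abs_le]
        constructor <;> linarith
      refine mem_closure_of_tendsto h1 (Filter.Eventually.of_forall fun m => ?_)
      refine ⟨m + 1, fun i => ⌊((m : ℝ) + 1) * l i⌋, by omega, fun i => ?_⟩
      push_cast
      rw [sub_self, abs_zero, mul_zero]
      positivity
  filter_upwards [hres] with l hl K ε hε
  obtain ⟨N, hN⟩ := exists_nat_one_div_lt hε
  obtain ⟨M, n, hM, h⟩ := hl K N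
  exact ⟨M, n, hM, fun i => (h i).trans hN⟩

end Pool.Agent.W_ef8234_h97
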